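import Pool.Agent.NUE.RevTau
import Pool.Agent.NUP.MF.Profile

/-!
# The inputs of `NUE.bessel_le`, `NUE.br2_le`, `NUE.br2_tau` for `g = NUMF.g`

* `lgm t = log g(0) - log g(t) = (1/π) ∫_0^∞ (1 - cos (kt)) L^(k) dk`, `L^ = NUMF.Lh`;
* `inst`: the profile `c` with all hypotheses, and `∫ log (1 + 2 c² / U^) ≥ (8π/3)(1 - ε)`.
-/

set_option autoImplicit false

open MeasureTheory Set Filter Topology

namespace NUE

open NUMF

noncomputable section

/-- `log (g 0 / g t)` -/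
def lgm (t : ℝ) : ℝ := Real.log (g 0) - Real.log (g t)

lemma Lh_meas : Measurable Lh := by
  unfold Lh ck1
  have := sk_meas
  fun_prop

lemma Uh_meas : Measurable Uh := by
  unfold Uh ck1
  have := sk_meas
  fun_prop

lemma Lh_nonneg : ∀ k, 0 < k → 0 ≤ Lh k := fun _ hk => (Lh_pos hk.ne').le

lemma g_cont : Continuous g := by
  unfold g
  have h1 : ∀ t, (Real.cosh (2 * t) + r) ^ 2 ≠ 0 := fun t => (pow_pos (cp_r t) 2).ne'
  have := Real.continuous_cosh
  exact Continuous.div (by fun_prop) (by fun_prop) h1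

lemma g_even (t : ℝ) : g (-t) = g t := by
  unfold g
  rw [mul_neg, Real.cosh_neg, Real.cosh_neg]

lemma lgm_cont : Continuous lgm := by
  unfold lgm
  exact continuous_const.sub (g_cont.log fun t => (g_pos t).ne')

lemma lgm_meas : Measurable lgm := lgm_cont.measurable

/-- the Fourier formula -/
theorem lgm_fourier (t : ℝ) : IntegrableOn (fun k => (1 - Real.cos (k * t)) * Lh k) (Ioi 0) ∧
    lgm t = 1 / Real.pi * ∫ k in Ioi (0:ℝ), (1 - Real.cos (k * t)) * Lh k := by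
  have hpi := Real.pi_pos
  obtain ⟨i, e⟩ := log_g_fourier t
  have hf : ∀ k : ℝ, (1 - Real.cos (k * t)) * Lh k =
      Real.pi * (2 * (1 - Real.cos (k * t)) * (2 * ck1 k - 1) / (k * sk k)) := by
    intro k
    unfold Lh
    ring
  simp_rw [hf]
  refine ⟨i.const_mul _, ?_⟩
  rw [integral_const_mul, ← mul_assoc, one_div_mul_cancel hpi.ne', one_mul]
  unfold lgm
  rw [e]
  ring

lemma lgm_int : ∀ t, IntegrableOn (fun k => (1 - Real.cos (k * t)) * Lh k) (Ioi 0) := fun t => (lgm_fourier t).1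

lemma lgm_eq : ∀ t, lgm t = 1 / Real.pi * ∫ k in Ioi (0:ℝ), (1 - Real.cos (k * t)) * Lh k :=
  fun t => (lgm_fourier t).2

/-- the exponential form -/
lemma g_exp : ∀ t, g t = Real.exp (Real.log (g 0) - lgm t) := by
  intro t
  unfold lgm
  rw [sub_sub_cancel, Real.exp_log (g_pos t)]

lemma g_zero : g 0 = 4 / (1 + r) ^ 2 := by
  unfold g
  simp

lemma g_zero_le : g 0 ≤ 4 := by
  rw [g_zero, div_le_iff₀ (by have := r_pos; positivity)]
  have := r_pos
  nlinarith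

lemma g_ge (t : ℝ) : Real.exp (-(2 * |t|)) ≤ g t := by
  unfold g
  have h1 := cp_r t
  have h2 := r_lt_one
  have h3 := Real.cosh_pos t
  have h4 : Real.cosh (2 * t) + 1 = 2 * Real.cosh t ^ 2 := by
    rw [cosh_two, Real.cosh_sq]
    ring
  have h5 : Real.cosh t ≤ Real.exp |t| := cosh_le_exp le_rfl
  rw [le_div_iff₀ (by positivity)]
  have h6 : Real.cosh (2 * t) + r ≤ 2 * Real.cosh t ^ 2 := by linarith
  have h7 : Real.exp (-(2 * |t|)) * Real.exp |t| ^ 2 = 1 := by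
    rw [← Real.exp_nat_mul, ← Real.exp_add]
    push_cast
    rw [show -(2 * |t|) + 2 * |t| = 0 by ring, Real.exp_zero]
  have h8 := Real.exp_pos (-(2 * |t|))
  calc Real.exp (-(2 * |t|)) * (Real.cosh (2 * t) + r) ^ 2
      ≤ Real.exp (-(2 * |t|)) * (2 * Real.cosh t ^ 2) ^ 2 := by gcongr
    _ = 4 * Real.cosh t ^ 2 * (Real.exp (-(2 * |t|)) * Real.cosh t ^ 2) := by ring
    _ ≤ 4 * Real.cosh t ^ 2 * (Real.exp (-(2 * |t|)) * Real.exp |t| ^ 2) := by gcongr
    _ = 4 * Real.cosh t ^ 2 := by rw [h7, mul_one]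

/-- linear growth -/
lemma lgm_le : ∀ t, lgm t ≤ 2 * (1 + |t|) := by
  intro t
  unfold lgm
  have h1 : Real.log (g 0) ≤ 2 := by
    have h2 : Real.log (g 0) ≤ Real.log 4 := Real.log_le_log (g_pos 0) g_zero_le
    have h3 : Real.log 4 = 2 * Real.log 2 := by
      rw [show (4:ℝ) = 2 ^ 2 by norm_num, Real.log_pow]
      push_cast
      ring
    have h4 : Real.log 2 ≤ 1 := by
      have := Real.log_le_sub_one_of_pos (show (0:ℝ) < 2 by norm_num)
      linarith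
    linarith
  have h5 : -(2 * |t|) ≤ Real.log (g t) := by
    rw [Real.le_log_iff_exp_le (g_pos t)]
    exact g_ge t
  linarith

/-- **the profile** (`[4.5] (d)`), in the form of the hypotheses of `bessel_le`, `br2_le`, `br2_tau`,
`field_bound` -/
theorem inst {ε : ℝ} (hε : 0 < ε) : ∃ (δ K : ℝ) (c : ℝ → ℝ), 0 < δ ∧ δ < K ∧
    ContDiff ℝ ((⊤ : ℕ∞) : WithTop ℕ∞) c ∧ (∀ k, 0 ≤ c k) ∧ (∀ k, c (-k) = c k) ∧
    (∀ k, |k| ≤ δ → c k = 0) ∧ (∀ k, K < |k| → c k = 0) ∧ (∀ k, 0 < k → c k ^ 2 ≤ Lh k) ∧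
    Continuous (fun k => c k ^ 2 / Uh k) ∧ (∀ k, 0 ≤ c k ^ 2 / Uh k) ∧
    (∀ k, c (-k) ^ 2 / Uh (-k) = c k ^ 2 / Uh k) ∧
    Integrable (fun k => Real.log (1 + 2 * (c k ^ 2 / Uh k))) ∧
    8 * Real.pi / 3 * (1 - ε) ≤ ∫ k, Real.log (1 + 2 * (c k ^ 2 / Uh k)) := by
  obtain ⟨δ, K, c, hδ, hδK, hs, h0, hev, hsm, hla, hsq, hi, hlog⟩ := exists_profile hε
  have hU : ∀ k, 0 ≤ Uh k := by
    intro k
    rcases eq_or_ne k 0 with e | e
    · subst e
      unfold Uh
      simp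
    · exact (Uh_pos e).le
  have hkev : ∀ k, c (-k) ^ 2 / Uh (-k) = c k ^ 2 / Uh k := by
    intro k
    rw [hev, Uh_neg]
  have hcont : Continuous (fun k => c k ^ 2 / Uh k) := by
    rw [continuous_iff_continuousAt]
    intro k
    rcases eq_or_ne k 0 with e | e
    · subst e
      have h1 : (fun k => c k ^ 2 / Uh k) =ᶠ[𝓝 0] fun _ => 0 := by
        have h2 : Ioo (-δ) δ ∈ 𝓝 (0:ℝ) := Ioo_mem_nhds (by linarith) hδ
        filter_upwards [h2] with k hk
        rw [hsm k (abs_le.2 ⟨hk.1.le, hk.2.le⟩)]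
        simp
      exact continuousAt_const.congr h1.symm
    · have h3 : ContinuousAt Uh k := by
        unfold Uh ck1 sk
        have hne : k * Real.sinh (Real.pi / 2 * k) ≠ 0 := (ksk_pos e).ne'
        refine ContinuousAt.mul continuousAt_const (ContinuousAt.div ?_ ?_ hne)
        · exact Continuous.continuousAt (by fun_prop)
        · exact Continuous.continuousAt (by fun_prop)
      exact (hs.continuous.continuousAt.pow 2).div h3 (Uh_pos e).ne'
  have hlogev : ∀ k, Real.log (1 + 2 * (c |k| ^ 2 / Uh |k|)) = Real.log (1 + 2 * (c k ^ 2 / Uh k)) := by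
    intro k
    rcases abs_cases k with ⟨h, _⟩ | ⟨h, _⟩
    · rw [h]
    · rw [h, hkev]
  have hint : Integrable (fun k => Real.log (1 + 2 * (c k ^ 2 / Uh k))) := by
    refine (integrable_comp_abs' hi).congr (Eventually.of_forall fun k => ?_)
    exact hlogev k
  have hval : ∫ k, Real.log (1 + 2 * (c k ^ 2 / Uh k)) =
      2 * ∫ k in Ioi (0:ℝ), Real.log (1 + 2 * (c k ^ 2 / Uh k)) := by
    rw [← integral_comp_abs (f := fun k => Real.log (1 + 2 * (c k ^ 2 / Uh k)))]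
    exact integral_congr_ae (Eventually.of_forall fun k => (hlogev k).symm)
  refine ⟨δ, K, c, hδ, hδK, hs, h0, hev, hsm, fun k hk => hla k hk.le, fun k hk => hsq k hk.ne', hcont,
    fun k => div_nonneg (sq_nonneg _) (hU k), hkev, hint, ?_⟩
  rw [hval]
  linarith

/-- `br2_tau` for `NUMF.g` -/
theorem br2_tau_g {p n : ℕ} {c : ℝ → ℝ} (hc : Continuous c)
    (hce : ∀ k, c (-k) = c k) {K h : ℝ} (hh : 0 < h) (hK : K * h < Real.pi)
    (hcs : ∀ k, K < |k| → c k = 0) (hL : ∀ k, 0 < k → c k ^ 2 ≤ Lh k)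
    (La : Finset ℤ) (a : ℝ) (s : Fin p → ℝ) (s' : Fin n → ℝ) {τ : ℝ → ℝ} (hτ : Integrable τ)
    (hτ1 : Integrable fun x => τ x * x) (h0 : ∫ x, τ x = (p : ℝ) - n) :
    br2 NUMF.g s s' * Real.exp (1 / 2 * ∑ l ∈ La, (∑ i, chi c h (s i - (a + l * h)) -
        ∑ j, chi c h (s' j - (a + l * h)) - ∫ x, τ x * chi c h (x - (a + l * h))) ^ 2) ≤
      Real.exp (Real.log (g 0) * (((p : ℝ) + n - ((p : ℝ) - n) ^ 2) / 2) - 1 / 2 * ∫ x, τ x * cv lgm τ x) *
        ((∏ i, Real.exp (cv lgm τ (s i))) * ∏ j, Real.exp (- cv lgm τ (s' j))) :=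
  br2_tau hc hce hh hK hcs hL Lh_meas lgm_int lgm_eq lgm_le lgm_meas (Real.log (g 0)) g_exp La a s s' hτ hτ1 h0

end

end NUE
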