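import Mathlib

/-!
# Reduction of the two component gas to a one component gas in a Gaussian imaginary field

`bessel`, `bessel_le`: Bessel inequality for a band limited profile on a grid.
`hubbard`: the Gaussian (Hubbard-Stratonovich) identity.
`reduction`: `∫∫ A A' Π g / (Π g Π g) ≤ g(0)^n E |∫ A exp(i field)| |∫ A' exp(i field)|`.
-/

set_option autoImplicit false

open MeasureTheory Set Filter Topology

namespace NUE

noncomputable section

/-- the profile in position space -/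
def chi (c : ℝ → ℝ) (h t : ℝ) : ℝ := √h / (2 * Real.pi) * ∫ k, c k * Real.cos (k * t)

/-- squared modulus of the structure factor -/
def sf {ι : Type*} [Fintype ι] (q s : ι → ℝ) (k : ℝ) : ℝ :=
  (∑ i, q i * Real.cos (k * s i)) ^ 2 + (∑ i, q i * Real.sin (k * s i)) ^ 2

lemma sf_nonneg {ι : Type*} [Fintype ι] (q s : ι → ℝ) (k : ℝ) : 0 ≤ sf q s k := by
  unfold sf; positivity

lemma sf_cont {ι : Type*} [Fintype ι] (q s : ι → ℝ) : Continuous (sf q s) := by
  unfold sf; fun_prop

lemma sf_eq {ι : Type*} [Fintype ι] (q s : ι → ℝ) (k : ℝ) :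
    sf q s k = ∑ i, ∑ j, q i * q j * Real.cos (k * (s i - s j)) := by
  unfold sf
  rw [sq, sq, Finset.sum_mul_sum, Finset.sum_mul_sum, ← Finset.sum_add_distrib]
  refine Finset.sum_congr rfl fun i _ => ?_
  rw [← Finset.sum_add_distrib]
  refine Finset.sum_congr rfl fun j _ => ?_
  rw [show k * (s i - s j) = k * s i - k * s j by ring, Real.cos_sub]
  ring

lemma sf_neutral {ι : Type*} [Fintype ι] (q s : ι → ℝ) (hq : ∑ i, q i = 0) (k : ℝ) :
    sf q s k = - ∑ i, ∑ j, q i * q j * (1 - Real.cos (k * (s i - s j))) := by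
  rw [sf_eq]
  have h0 : ∑ i, ∑ j, q i * q j = 0 := by
    rw [← Finset.sum_mul_sum, hq, zero_mul]
  have : ∑ i, ∑ j, q i * q j * (1 - Real.cos (k * (s i - s j))) =
      ∑ i, ∑ j, q i * q j - ∑ i, ∑ j, q i * q j * Real.cos (k * (s i - s j)) := by
    rw [← Finset.sum_sub_distrib]
    refine Finset.sum_congr rfl fun i _ => ?_
    rw [← Finset.sum_sub_distrib]
    refine Finset.sum_congr rfl fun j _ => ?_
    ring
  rw [this, h0]
  ring

/-- Bessel inequality on the grid `h ℤ` -/
theorem bessel {ι : Type*} [Fintype ι] {c : ℝ → ℝ} (hc : Continuous c) {K h : ℝ} (hh : 0 < h)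
    (hK : K * h < Real.pi) (hcs : ∀ k, K < |k| → c k = 0) (La : Finset ℤ) (q s : ι → ℝ) :
    ∑ l ∈ La, (∑ i, q i * chi c h (s i - l * h)) ^ 2 ≤
      1 / (2 * Real.pi) * ∫ k, c k ^ 2 * sf q s k := by
  have hpi := Real.pi_pos
  set b : ℝ := Real.pi / h with hb
  have hb0 : 0 < b := by positivity
  have hab : -b < b := by linarith
  have hKb : K < b := by rw [hb, lt_div_iff₀ hh]; exact hK
  have hba : b - -b = 2 * Real.pi / h := by rw [hb]; ring
  set F : ℝ → ℂ := fun k => (c k : ℂ) * ∑ i, (q i : ℂ) * Complex.exp (Complex.I * (k * s i : ℝ)) with hF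
  have hFc : Continuous F := by fun_prop
  have hsupp : ∀ f : ℝ → ℝ, Function.support (fun k => c k * f k) ⊆ Ioc (-b) b := by
    intro f k hk
    have h1 : c k ≠ 0 := fun e => hk (by simp [e])
    have h2 : ¬ K < |k| := fun e => h1 (hcs k e)
    push Not at h2
    have h3 := abs_lt.1 (lt_of_le_of_lt h2 hKb)
    exact ⟨h3.1, h3.2.le⟩
  have hmem : MemLp F 2 (volume.restrict (Ioc (-b) b)) := by
    obtain ⟨C, hC⟩ := (isCompact_Icc : IsCompact (Icc (-b) b)).exists_bound_of_continuousOn hFc.continuousOn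
    refine MemLp.of_bound hFc.aestronglyMeasurable C ?_
    filter_upwards [ae_restrict_mem measurableSet_Ioc] with x hx
    exact hC x ⟨hx.1.le, hx.2⟩
  have hsum := hasSum_sq_fourierCoeffOn hab hmem
  have hn : ∀ k, ‖F k‖ ^ 2 = c k ^ 2 * sf q s k := by
    intro k
    rw [hF]
    simp only
    rw [norm_mul, mul_pow, Complex.norm_real, Real.norm_eq_abs, sq_abs]
    congr 1
    rw [← Complex.normSq_eq_norm_sq, Complex.normSq_apply]
    have hre : (∑ i, (q i : ℂ) * Complex.exp (Complex.I * (k * s i : ℝ))).re =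
        ∑ i, q i * Real.cos (k * s i) := by
      rw [Complex.re_sum]
      refine Finset.sum_congr rfl fun i _ => ?_
      rw [mul_comm Complex.I, Complex.re_ofReal_mul, Complex.exp_ofReal_mul_I_re]
    have him : (∑ i, (q i : ℂ) * Complex.exp (Complex.I * (k * s i : ℝ))).im =
        ∑ i, q i * Real.sin (k * s i) := by
      rw [Complex.im_sum]
      refine Finset.sum_congr rfl fun i _ => ?_
      rw [mul_comm Complex.I, Complex.im_ofReal_mul, Complex.exp_ofReal_mul_I_im]
    rw [hre, him]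
    unfold sf
    ring
  have hcoef : ∀ l : ℤ, (fourierCoeffOn hab F l).re = √h * ∑ i, q i * chi c h (s i - l * h) := by
    intro l
    rw [fourierCoeffOn_eq_integral]
    have e1 : ∀ x : ℝ, ((fourier (-l)) (x : AddCircle (b - -b)) : ℂ) • F x =
        ∑ i, (q i : ℂ) * ((c x : ℂ) * Complex.exp (((x * (s i - l * h) : ℝ) : ℂ) * Complex.I)) := by
      intro x
      rw [fourier_coe_apply, hF, hba]
      simp only [smul_eq_mul]
      rw [Finset.mul_sum, Finset.mul_sum]
      refine Finset.sum_congr rfl fun i _ => ?_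
      have : Complex.exp (2 * Real.pi * Complex.I * ((-l : ℤ) : ℂ) * x / ((2 * Real.pi / h : ℝ) : ℂ)) *
          Complex.exp (Complex.I * (x * s i : ℝ)) =
          Complex.exp (((x * (s i - l * h) : ℝ) : ℂ) * Complex.I) := by
        rw [← Complex.exp_add]
        congr 1
        have hpc : (Real.pi : ℂ) ≠ 0 := by exact_mod_cast hpi.ne'
        have hhc : (h : ℂ) ≠ 0 := by exact_mod_cast hh.ne'
        push_cast
        field_simp
        ring
      rw [← this]
      ring
    rw [intervalIntegral.integral_congr (fun x _ => e1 x), intervalIntegral.integral_finsetSum]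
    · have e2 : ∀ i, (∫ x in (-b)..b, (q i : ℂ) * ((c x : ℂ) *
          Complex.exp (((x * (s i - l * h) : ℝ) : ℂ) * Complex.I))).re =
          q i * ∫ x, c x * Real.cos (x * (s i - l * h)) := by
        intro i
        rw [intervalIntegral.integral_const_mul, Complex.re_ofReal_mul]
        congr 1
        rw [intervalIntegral.intervalIntegral_eq_integral_uIoc, if_pos hab.le, one_smul,
          uIoc_of_le hab.le]
        have e3 := (Complex.reCLM).integral_comp_comm (μ := volume.restrict (Ioc (-b) b))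
          (φ := fun x : ℝ => (c x : ℂ) * Complex.exp (((x * (s i - l * h) : ℝ) : ℂ) * Complex.I))
          (by
            have : Continuous fun x : ℝ => (c x : ℂ) * Complex.exp (((x * (s i - l * h) : ℝ) : ℂ) * Complex.I) := by
              fun_prop
            exact this.integrableOn_Ioc)
        simp only [Complex.reCLM_apply] at e3
        rw [← e3]
        have e4 : ∀ x : ℝ, ((c x : ℂ) * Complex.exp (((x * (s i - l * h) : ℝ) : ℂ) * Complex.I)).re =
            c x * Real.cos (x * (s i - l * h)) := by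
          intro x
          rw [Complex.re_ofReal_mul, Complex.exp_ofReal_mul_I_re]
        simp_rw [e4]
        rw [← intervalIntegral.integral_of_le hab.le]
        exact intervalIntegral.integral_eq_integral_of_support_subset (hsupp _)
      rw [Complex.smul_re, Complex.re_sum, Finset.sum_congr rfl (fun i _ => e2 i), smul_eq_mul, hba,
        Finset.mul_sum, Finset.mul_sum]
      refine Finset.sum_congr rfl fun i _ => ?_
      unfold chi
      have hsq : √h * √h = h := Real.mul_self_sqrt hh.le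
      generalize (∫ x, c x * Real.cos (x * (s i - l * h))) = X
      rw [show √h * (q i * (√h / (2 * Real.pi) * X)) = (√h * √h) * (q i * X / (2 * Real.pi)) by ring,
        hsq]
      field_simp
    · intro i _
      refine Continuous.intervalIntegrable ?_ _ _
      fun_prop
  have hle : ∀ l : ℤ, (∑ i, q i * chi c h (s i - l * h)) ^ 2 ≤ h⁻¹ * ‖fourierCoeffOn hab F l‖ ^ 2 := by
    intro l
    have h1 : (fourierCoeffOn hab F l).re ^ 2 ≤ ‖fourierCoeffOn hab F l‖ ^ 2 := by
      rw [← sq_abs]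
      exact pow_le_pow_left₀ (abs_nonneg _) (Complex.abs_re_le_norm _) 2
    rw [hcoef, mul_pow, Real.sq_sqrt hh.le] at h1
    rw [inv_mul_eq_div, le_div_iff₀ hh]
    linarith
  calc ∑ l ∈ La, (∑ i, q i * chi c h (s i - l * h)) ^ 2
      ≤ ∑ l ∈ La, h⁻¹ * ‖fourierCoeffOn hab F l‖ ^ 2 := Finset.sum_le_sum fun l _ => hle l
    _ = h⁻¹ * ∑ l ∈ La, ‖fourierCoeffOn hab F l‖ ^ 2 := by rw [Finset.mul_sum]
    _ ≤ h⁻¹ * ((b - -b)⁻¹ • ∫ x in (-b)..b, ‖F x‖ ^ 2) := by
        refine mul_le_mul_of_nonneg_left ?_ (by positivity)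
        exact hsum.summable.sum_le_tsum La (fun _ _ => by positivity) |>.trans_eq hsum.tsum_eq
    _ = 1 / (2 * Real.pi) * ∫ k, c k ^ 2 * sf q s k := by
        simp_rw [hn, smul_eq_mul]
        rw [intervalIntegral.integral_eq_integral_of_support_subset, hba]
        · field_simp
        · have := hsupp (fun k => c k * sf q s k)
          intro k hk
          apply this
          intro e
          apply hk
          simp only at e ⊢
          rw [← e]
          ring

/-- The Bessel inequality for a neutral system, in terms of the pair potential `lg`. -/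
theorem bessel_le {ι : Type*} [Fintype ι] {c : ℝ → ℝ} (hc : Continuous c) (hce : ∀ k, c (-k) = c k)
    {K h : ℝ} (hh : 0 < h) (hK : K * h < Real.pi) (hcs : ∀ k, K < |k| → c k = 0)
    {Lh lg : ℝ → ℝ} (hL : ∀ k, 0 < k → c k ^ 2 ≤ Lh k)
    (hint : ∀ t, IntegrableOn (fun k => (1 - Real.cos (k * t)) * Lh k) (Ioi 0))
    (hlg : ∀ t, lg t = 1 / Real.pi * ∫ k in Ioi (0:ℝ), (1 - Real.cos (k * t)) * Lh k)
    (La : Finset ℤ) (a : ℝ) (q s : ι → ℝ) (hq : ∑ i, q i = 0) :
    ∑ l ∈ La, (∑ i, q i * chi c h (s i - (a + l * h))) ^ 2 ≤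
      - ∑ i, ∑ j, q i * q j * lg (s i - s j) := by
  have hpi := Real.pi_pos
  set s' : ι → ℝ := fun i => s i - a with hs'
  have h1 := bessel hc hh hK hcs La q s'
  have h2 : ∀ k : ℝ, c k ^ 2 * sf q s' k = (fun x => c x ^ 2 * sf q s' x) |k| := by
    intro k
    rcases abs_cases k with ⟨h, _⟩ | ⟨h, _⟩
    · simp only [h]
    · simp only [h, hce]
      congr 1
      unfold sf
      simp
  have h3 : ∫ k, c k ^ 2 * sf q s' k = 2 * ∫ k in Ioi (0:ℝ), c k ^ 2 * sf q s' k := by
    rw [← integral_comp_abs (f := fun x => c x ^ 2 * sf q s' x)]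
    exact integral_congr_ae (ae_of_all _ h2)
  have hiL : IntegrableOn (fun k => Lh k * sf q s' k) (Ioi 0) := by
    have : (fun k => Lh k * sf q s' k) = fun k => - ∑ i, ∑ j, q i * q j * ((1 - Real.cos (k * (s' i - s' j))) * Lh k) := by
      ext k
      rw [sf_neutral q s' hq, mul_neg, Finset.mul_sum]
      congr 1
      refine Finset.sum_congr rfl fun i _ => ?_
      rw [Finset.mul_sum]
      refine Finset.sum_congr rfl fun j _ => ?_
      ring
    rw [this]
    refine Integrable.neg (integrable_finsetSum _ fun i _ => integrable_finsetSum _ fun j _ => ?_)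
    exact (hint _).const_mul _
  have h4 : ∫ k in Ioi (0:ℝ), c k ^ 2 * sf q s' k ≤ ∫ k in Ioi (0:ℝ), Lh k * sf q s' k := by
    refine setIntegral_mono_on ?_ hiL measurableSet_Ioi fun k hk =>
      mul_le_mul_of_nonneg_right (hL k hk) (sf_nonneg _ _ _)
    have hcc : HasCompactSupport fun k => c k ^ 2 * sf q s' k := by
      refine HasCompactSupport.of_support_subset_isCompact (isCompact_Icc (a := -K) (b := K)) ?_
      intro k hk
      have : ¬ K < |k| := fun e => hk (by simp [hcs k e])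
      push Not at this
      exact abs_le.1 this
    have hcont : Continuous fun k => c k ^ 2 * sf q s' k := by
      have := sf_cont q s'
      fun_prop
    exact (hcont.integrable_of_hasCompactSupport hcc).integrableOn
  have h5 : ∫ k in Ioi (0:ℝ), Lh k * sf q s' k = - ∑ i, ∑ j, q i * q j * (Real.pi * lg (s i - s j)) := by
    have e : ∀ k, Lh k * sf q s' k = - ∑ i, ∑ j, q i * q j * ((1 - Real.cos (k * (s' i - s' j))) * Lh k) := by
      intro k
      rw [sf_neutral q s' hq, mul_neg, Finset.mul_sum]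
      congr 1
      refine Finset.sum_congr rfl fun i _ => ?_
      rw [Finset.mul_sum]
      refine Finset.sum_congr rfl fun j _ => ?_
      ring
    simp_rw [e]
    rw [integral_neg, integral_finsetSum]
    · congr 1
      refine Finset.sum_congr rfl fun i _ => ?_
      rw [integral_finsetSum]
      · refine Finset.sum_congr rfl fun j _ => ?_
        rw [integral_const_mul, hlg, ← mul_assoc Real.pi, mul_one_div_cancel hpi.ne', one_mul, hs']
        simp only [sub_sub_sub_cancel_right]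
      · intro j _
        exact (hint _).const_mul _
    · intro i _
      exact integrable_finsetSum _ fun j _ => (hint _).const_mul _
  have h6 : ∑ l ∈ La, (∑ i, q i * chi c h (s i - (a + l * h))) ^ 2 =
      ∑ l ∈ La, (∑ i, q i * chi c h (s' i - l * h)) ^ 2 := by
    refine Finset.sum_congr rfl fun l _ => ?_
    congr 1
    refine Finset.sum_congr rfl fun i _ => ?_
    rw [hs']
    simp only
    congr 2
    ring
  rw [h6]
  refine h1.trans ?_
  rw [h3]
  have h7 : ∑ i, ∑ j, q i * q j * (Real.pi * lg (s i - s j)) = Real.pi * ∑ i, ∑ j, q i * q j * lg (s i - s j) := by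
    rw [Finset.mul_sum]
    refine Finset.sum_congr rfl fun i _ => ?_
    rw [Finset.mul_sum]
    refine Finset.sum_congr rfl fun j _ => ?_
    ring
  have h8 : (1 / (2 * Real.pi)) * (2 * ∫ k in Ioi (0:ℝ), c k ^ 2 * sf q s' k) =
      (∫ k in Ioi (0:ℝ), c k ^ 2 * sf q s' k) / Real.pi := by
    field_simp
  rw [h8, div_le_iff₀ hpi]
  refine h4.trans ?_
  rw [h5, h7]
  exact le_of_eq (by ring)

/-- Characteristic function of independent standard Gaussians. -/
theorem hubbard {κ : Type*} [Fintype κ] (x : κ → ℝ) :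
    ∫ g : κ → ℝ, Complex.exp (((∑ l, g l * x l : ℝ) : ℂ) * Complex.I)
      ∂(Measure.pi fun _ => ProbabilityTheory.gaussianReal 0 1) =
    Complex.exp (((-(1 / 2) * ∑ l, x l ^ 2 : ℝ) : ℂ)) := by
  have e1 : ∀ g : κ → ℝ, Complex.exp (((∑ l, g l * x l : ℝ) : ℂ) * Complex.I) =
      ∏ l, Complex.exp ((x l : ℂ) * (g l : ℂ) * Complex.I) := by
    intro g
    rw [← Complex.exp_sum]
    congr 1
    rw [← Finset.sum_mul]
    congr 1
    push_cast
    exact Finset.sum_congr rfl fun l _ => mul_comm _ _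
  simp_rw [e1]
  rw [integral_fintype_prod_eq_prod (𝕜 := ℂ) (fun l (u : ℝ) => Complex.exp ((x l : ℂ) * (u : ℂ) * Complex.I))]
  have e2 : ∀ l, ∫ u : ℝ, Complex.exp ((x l : ℂ) * (u : ℂ) * Complex.I) ∂(ProbabilityTheory.gaussianReal 0 1) =
      Complex.exp (((-(1 / 2) * x l ^ 2 : ℝ) : ℂ)) := by
    intro l
    have := ProbabilityTheory.charFun_gaussianReal (μ := 0) (v := 1) (x l)
    rw [charFun_apply_real] at this
    rw [this]
    congr 1
    push_cast
    ring
  simp_rw [e2]
  rw [← Complex.exp_sum]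
  congr 1
  push_cast
  rw [Finset.mul_sum]

/-- Hubbard-Stratonovich in a product form. -/
theorem hs_prod {κ α β : Type*} [Fintype κ] [MeasurableSpace α] [MeasurableSpace β]
    {μ : Measure α} {ν : Measure β} [SFinite μ] [SFinite ν] {A : α → ℝ} {B : β → ℝ}
    (hA : Integrable A μ) (hB : Integrable B ν) {X : κ → α → ℝ} {Y : κ → β → ℝ}
    (hX : ∀ l, Measurable (X l)) (hY : ∀ l, Measurable (Y l)) :
    ∫ p : α × β, A p.1 * B p.2 * Real.exp (-(1 / 2) * ∑ l, (X l p.1 - Y l p.2) ^ 2) ∂(μ.prod ν) ≤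
      ∫ g : κ → ℝ, ‖∫ a, (A a : ℂ) * Complex.exp (((∑ l, g l * X l a : ℝ) : ℂ) * Complex.I) ∂μ‖ *
        ‖∫ b, (B b : ℂ) * Complex.exp (((∑ l, g l * Y l b : ℝ) : ℂ) * Complex.I) ∂ν‖
        ∂(Measure.pi fun _ => ProbabilityTheory.gaussianReal 0 1) := by
  set γ : Measure (κ → ℝ) := Measure.pi fun _ => ProbabilityTheory.gaussianReal 0 1 with hγ
  set Φ : (α × β) → (κ → ℝ) → ℂ := fun p g => ((A p.1 * B p.2 : ℝ) : ℂ) *
    Complex.exp (((∑ l, g l * (X l p.1 - Y l p.2) : ℝ) : ℂ) * Complex.I) with hΦ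
  have hAB : Integrable (fun p : α × β => A p.1 * B p.2) (μ.prod ν) := hA.mul_prod hB
  have hnorm : ∀ x : ℝ, ‖Complex.exp ((x : ℂ) * Complex.I)‖ = 1 := Complex.norm_exp_ofReal_mul_I
  have hmeas : Measurable fun q : (α × β) × (κ → ℝ) =>
      Complex.exp (((∑ l, q.2 l * (X l q.1.1 - Y l q.1.2) : ℝ) : ℂ) * Complex.I) := by
    have : Measurable fun q : (α × β) × (κ → ℝ) => ∑ l, q.2 l * (X l q.1.1 - Y l q.1.2) := by
      refine Finset.measurable_sum _ fun l _ => ?_
      have h1 := (hX l).comp (measurable_fst.comp (measurable_fst : Measurable fun q : (α × β) × (κ → ℝ) => q.1))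
      have h2 := (hY l).comp (measurable_snd.comp (measurable_fst : Measurable fun q : (α × β) × (κ → ℝ) => q.1))
      have h3 : Measurable fun q : (α × β) × (κ → ℝ) => q.2 l := (measurable_pi_apply l).comp measurable_snd
      exact h3.mul (h1.sub h2)
    exact Complex.measurable_exp.comp ((Complex.measurable_ofReal.comp this).mul_const _)
  have hPhi : Integrable (Function.uncurry Φ) ((μ.prod ν).prod γ) := by
    have h1 : Integrable (fun q : (α × β) × (κ → ℝ) => A q.1.1 * B q.1.2) ((μ.prod ν).prod γ) := by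
      have := hAB.mul_prod (integrable_const (μ := γ) (1:ℝ))
      simpa using this
    refine Integrable.mono' h1.norm ?_ (ae_of_all _ fun q => ?_)
    · exact (h1.ofReal (𝕜 := ℂ)).aestronglyMeasurable.mul hmeas.aestronglyMeasurable
    · simp only [Function.uncurry, hΦ]
      rw [norm_mul, hnorm, mul_one, Complex.norm_real]
  have h1 : ∀ p, ∫ g, Φ p g ∂γ =
      ((A p.1 * B p.2 * Real.exp (-(1 / 2) * ∑ l, (X l p.1 - Y l p.2) ^ 2) : ℝ) : ℂ) := by
    intro p
    rw [hΦ]
    simp only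
    rw [integral_const_mul, hubbard, ← Complex.ofReal_exp, ← Complex.ofReal_mul]
  have h2 : ∀ g, ∫ p, Φ p g ∂(μ.prod ν) =
      (∫ a, (A a : ℂ) * Complex.exp (((∑ l, g l * X l a : ℝ) : ℂ) * Complex.I) ∂μ) *
      (∫ b, (B b : ℂ) * Complex.exp (((- ∑ l, g l * Y l b : ℝ) : ℂ) * Complex.I) ∂ν) := by
    intro g
    rw [← integral_prod_mul]
    refine integral_congr_ae (ae_of_all _ fun p => ?_)
    simp only [hΦ]
    have : (((∑ l, g l * (X l p.1 - Y l p.2) : ℝ) : ℂ) * Complex.I) =
        ((∑ l, g l * X l p.1 : ℝ) : ℂ) * Complex.I + ((- ∑ l, g l * Y l p.2 : ℝ) : ℂ) * Complex.I := by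
      rw [← add_mul, ← Complex.ofReal_add]
      congr 2
      rw [← sub_eq_add_neg, ← Finset.sum_sub_distrib]
      exact Finset.sum_congr rfl fun l _ => by ring
    rw [this, Complex.exp_add]
    push_cast
    ring
  have h3 : ∀ g : κ → ℝ, ‖∫ b, (B b : ℂ) * Complex.exp (((- ∑ l, g l * Y l b : ℝ) : ℂ) * Complex.I) ∂ν‖ =
      ‖∫ b, (B b : ℂ) * Complex.exp (((∑ l, g l * Y l b : ℝ) : ℂ) * Complex.I) ∂ν‖ := by
    intro g
    rw [← Complex.norm_conj (∫ b, (B b : ℂ) * Complex.exp (((∑ l, g l * Y l b : ℝ) : ℂ) * Complex.I) ∂ν),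
      ← integral_conj]
    congr 1
    refine integral_congr_ae (ae_of_all _ fun b => ?_)
    simp only [map_mul, Complex.conj_ofReal]
    congr 1
    rw [← Complex.exp_conj]
    congr 1
    simp
  have h4 : ((∫ p : α × β, A p.1 * B p.2 * Real.exp (-(1 / 2) * ∑ l, (X l p.1 - Y l p.2) ^ 2) ∂(μ.prod ν) : ℝ) : ℂ) =
      ∫ g, ∫ p, Φ p g ∂(μ.prod ν) ∂γ := by
    rw [← integral_integral_swap hPhi]
    simp_rw [h1]
    exact (integral_ofReal).symm
  calc ∫ p : α × β, A p.1 * B p.2 * Real.exp (-(1 / 2) * ∑ l, (X l p.1 - Y l p.2) ^ 2) ∂(μ.prod ν)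
      ≤ |∫ p : α × β, A p.1 * B p.2 * Real.exp (-(1 / 2) * ∑ l, (X l p.1 - Y l p.2) ^ 2) ∂(μ.prod ν)| :=
        le_abs_self _
    _ = ‖((∫ p : α × β, A p.1 * B p.2 * Real.exp (-(1 / 2) * ∑ l, (X l p.1 - Y l p.2) ^ 2) ∂(μ.prod ν) : ℝ) : ℂ)‖ := by
        rw [Complex.norm_real, Real.norm_eq_abs]
    _ = ‖∫ g, ∫ p, Φ p g ∂(μ.prod ν) ∂γ‖ := by rw [h4]
    _ ≤ ∫ g, ‖∫ p, Φ p g ∂(μ.prod ν)‖ ∂γ := norm_integral_le_integral_norm _
    _ = _ := by
        refine integral_congr_ae (ae_of_all _ fun g => ?_)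
        simp only
        rw [h2, norm_mul, h3]

/-- the sum over all ordered pairs is twice the sum over pairs plus the diagonal -/
lemma sum_sum_eq {n : ℕ} (f : Fin n → Fin n → ℝ) (hf : ∀ i j, f i j = f j i) :
    ∑ i, ∑ j, f i j = ∑ i, f i i + 2 * ∑ i, ∑ j ∈ Finset.Ioi i, f i j := by
  have h1 : ∀ i, ∑ j, f i j = f i i + (∑ j ∈ Finset.Ioi i, f i j + ∑ j ∈ Finset.Iio i, f i j) := by
    intro i
    have h2 : (Finset.univ : Finset (Fin n)) = insert i (Finset.Ioi i ∪ Finset.Iio i) := by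
      ext j
      simp only [Finset.mem_univ, Finset.mem_insert, Finset.mem_union, Finset.mem_Ioi, Finset.mem_Iio,
        true_iff]
      rcases lt_trichotomy i j with h | h | h
      · exact Or.inr (Or.inl h)
      · exact Or.inl h.symm
      · exact Or.inr (Or.inr h)
    rw [h2, Finset.sum_insert (by simp), Finset.sum_union]
    rw [Finset.disjoint_left]
    intro j h3 h4
    rw [Finset.mem_Ioi] at h3
    rw [Finset.mem_Iio] at h4
    exact absurd h3 (not_lt.2 h4.le)
  have h5 : ∑ i, ∑ j ∈ Finset.Iio i, f i j = ∑ i, ∑ j ∈ Finset.Ioi i, f i j := by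
    have e1 : ∀ i, ∑ j ∈ Finset.Iio i, f i j = ∑ j, if j < i then f i j else 0 := by
      intro i
      rw [← Finset.sum_filter]
      congr 1
      ext j
      simp
    have e2 : ∀ i, ∑ j ∈ Finset.Ioi i, f i j = ∑ j, if i < j then f i j else 0 := by
      intro i
      rw [← Finset.sum_filter]
      congr 1
      ext j
      simp
    simp_rw [e1, e2]
    rw [Finset.sum_comm]
    exact Finset.sum_congr rfl fun i _ => Finset.sum_congr rfl fun j _ => by rw [hf]
  simp_rw [h1]
  rw [Finset.sum_add_distrib, Finset.sum_add_distrib, h5]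
  ring

/-- cross over own pair products -/
def br {n : ℕ} (g : ℝ → ℝ) (s s' : Fin n → ℝ) : ℝ :=
  (∏ i, ∏ j, g (s i - s' j)) /
    ((∏ i, ∏ j ∈ Finset.Ioi i, g (s i - s j)) * ∏ i, ∏ j ∈ Finset.Ioi i, g (s' i - s' j))

/-- the bracket is the exponential of the energy of the neutral system -/
theorem br_eq {n : ℕ} {g lg : ℝ → ℝ} (g0 : ℝ) (hg0 : 0 < g0) (hg : ∀ t, g t = g0 * Real.exp (- lg t))
    (hl0 : lg 0 = 0) (hle : ∀ t, lg (-t) = lg t) (s s' : Fin n → ℝ) :
    br g s s' = g0 ^ n * Real.exp (1 / 2 * ∑ a : Fin n ⊕ Fin n, ∑ b : Fin n ⊕ Fin n,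
      Sum.elim (fun _ => (1:ℝ)) (fun _ => -1) a * Sum.elim (fun _ => (1:ℝ)) (fun _ => -1) b *
        lg (Sum.elim s s' a - Sum.elim s s' b)) := by
  have hown : ∀ x : Fin n → ℝ, ∏ i, ∏ j ∈ Finset.Ioi i, g (x i - x j) =
      g0 ^ (∑ i : Fin n, (Finset.Ioi i).card) * Real.exp (-(1 / 2) * ∑ i, ∑ j, lg (x i - x j)) := by
    intro x
    rw [sum_sum_eq (fun i j => lg (x i - x j)) (fun i j => by rw [← hle, neg_sub])]
    simp only [sub_self, hl0, Finset.sum_const_zero, zero_add]
    have e1 : ∀ i, ∏ j ∈ Finset.Ioi i, g (x i - x j) =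
        g0 ^ (Finset.Ioi i).card * Real.exp (- ∑ j ∈ Finset.Ioi i, lg (x i - x j)) := by
      intro i
      simp_rw [hg]
      rw [Finset.prod_mul_distrib, Finset.prod_const, ← Real.exp_sum, Finset.sum_neg_distrib]
    simp_rw [e1]
    rw [Finset.prod_mul_distrib, Finset.prod_pow_eq_pow_sum, ← Real.exp_sum, Finset.sum_neg_distrib]
    congr 2
    ring
  have hcross : ∏ i, ∏ j, g (s i - s' j) = g0 ^ (n * n) * Real.exp (- ∑ i, ∑ j, lg (s i - s' j)) := by
    have e1 : ∀ i, ∏ j, g (s i - s' j) = g0 ^ n * Real.exp (- ∑ j, lg (s i - s' j)) := by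
      intro i
      simp_rw [hg]
      rw [Finset.prod_mul_distrib, Finset.prod_const, ← Real.exp_sum, Finset.sum_neg_distrib]
      simp
    simp_rw [e1]
    rw [Finset.prod_mul_distrib, Finset.prod_const, ← Real.exp_sum, Finset.sum_neg_distrib, ← pow_mul]
    simp
  have hcard : n * n = n + 2 * ∑ i : Fin n, (Finset.Ioi i).card := by
    have := sum_sum_eq (n := n) (fun _ _ => (1:ℝ)) (fun _ _ => rfl)
    simp only [Finset.sum_const, Finset.card_univ, Fintype.card_fin, mul_one,
      nsmul_eq_mul] at this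
    exact_mod_cast this
  have hsum : ∑ a : Fin n ⊕ Fin n, ∑ b : Fin n ⊕ Fin n,
      Sum.elim (fun _ => (1:ℝ)) (fun _ => -1) a * Sum.elim (fun _ => (1:ℝ)) (fun _ => -1) b *
        lg (Sum.elim s s' a - Sum.elim s s' b) =
      ∑ i, ∑ j, lg (s i - s j) + ∑ i, ∑ j, lg (s' i - s' j) - 2 * ∑ i, ∑ j, lg (s i - s' j) := by
    rw [Fintype.sum_sum_type]
    simp only [Fintype.sum_sum_type, Sum.elim_inl, Sum.elim_inr, one_mul, mul_one, neg_mul, mul_neg,
      neg_neg, Finset.sum_add_distrib, Finset.sum_neg_distrib]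
    have : ∑ i, ∑ j, lg (s' i - s j) = ∑ i, ∑ j, lg (s i - s' j) := by
      rw [Finset.sum_comm]
      exact Finset.sum_congr rfl fun i _ => Finset.sum_congr rfl fun j _ => by rw [← hle, neg_sub]
    rw [this]
    ring
  unfold br
  rw [hsum, hown, hown, hcross]
  set N := ∑ i : Fin n, (Finset.Ioi i).card
  rw [hcard, pow_add, two_mul, pow_add]
  have hN : 0 < g0 ^ N := by positivity
  rw [div_eq_iff (by positivity)]
  have : Real.exp (1 / 2 * (∑ i, ∑ j, lg (s i - s j) + ∑ i, ∑ j, lg (s' i - s' j) -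
      2 * ∑ i, ∑ j, lg (s i - s' j))) * (Real.exp (-(1 / 2) * ∑ i, ∑ j, lg (s i - s j)) *
      Real.exp (-(1 / 2) * ∑ i, ∑ j, lg (s' i - s' j))) = Real.exp (- ∑ i, ∑ j, lg (s i - s' j)) := by
    rw [← Real.exp_add, ← Real.exp_add]
    congr 1
    ring
  rw [← this]
  ring

/-- The bracket is dominated by the Gaussian of the grid statistics. -/
theorem br_le {n : ℕ} {c : ℝ → ℝ} (hc : Continuous c) (hce : ∀ k, c (-k) = c k)
    {K h : ℝ} (hh : 0 < h) (hK : K * h < Real.pi) (hcs : ∀ k, K < |k| → c k = 0)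
    {Lh lg : ℝ → ℝ} (hL : ∀ k, 0 < k → c k ^ 2 ≤ Lh k)
    (hint : ∀ t, IntegrableOn (fun k => (1 - Real.cos (k * t)) * Lh k) (Ioi 0))
    (hlg : ∀ t, lg t = 1 / Real.pi * ∫ k in Ioi (0:ℝ), (1 - Real.cos (k * t)) * Lh k)
    {g : ℝ → ℝ} (g0 : ℝ) (hg0 : 0 < g0) (hg : ∀ t, g t = g0 * Real.exp (- lg t))
    (La : Finset ℤ) (a : ℝ) (s s' : Fin n → ℝ) :
    br g s s' ≤ g0 ^ n * Real.exp (-(1 / 2) * ∑ l : La,
      (∑ i, chi c h (s i - (a + (l : ℤ) * h)) - ∑ i, chi c h (s' i - (a + (l : ℤ) * h))) ^ 2) := by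
  have hl0 : lg 0 = 0 := by rw [hlg]; simp
  have hle : ∀ t, lg (-t) = lg t := by intro t; rw [hlg, hlg]; simp
  rw [br_eq g0 hg0 hg hl0 hle]
  refine mul_le_mul_of_nonneg_left (Real.exp_le_exp.2 ?_) (by positivity)
  have h1 := bessel_le hc hce hh hK hcs hL hint hlg La a
    (Sum.elim (fun _ : Fin n => (1:ℝ)) (fun _ : Fin n => -1)) (Sum.elim s s') (by simp)
  simp only [Fintype.sum_sum_type (fun i : Fin n ⊕ Fin n => Sum.elim (fun _ => (1:ℝ)) (fun _ => -1) i *
    chi c h (Sum.elim s s' i - _)), Sum.elim_inl, Sum.elim_inr, one_mul, neg_mul,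
    Finset.sum_neg_distrib, ← sub_eq_add_neg] at h1
  rw [Finset.sum_coe_sort La (fun l : ℤ => (∑ i, chi c h (s i - (a + l * h)) -
    ∑ i, chi c h (s' i - (a + l * h))) ^ 2)]
  linarith

lemma chi_cont {c : ℝ → ℝ} (hc : Continuous c) {K : ℝ} (hcs : ∀ k, K < |k| → c k = 0) (h : ℝ) :
    Continuous (chi c h) := by
  unfold chi
  refine continuous_const.mul ?_
  have hcc : HasCompactSupport c := by
    refine HasCompactSupport.of_support_subset_isCompact (isCompact_Icc (a := -K) (b := K)) ?_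
    intro k hk
    have : ¬ K < |k| := fun e => hk (hcs k e)
    push Not at this
    exact abs_le.1 this
  refine continuous_of_dominated (bound := fun k => |c k|) (fun t => ?_) (fun t => ae_of_all _ fun k => ?_)
    (hc.integrable_of_hasCompactSupport hcc).norm (ae_of_all _ fun k => by fun_prop)
  · exact Continuous.aestronglyMeasurable (by fun_prop)
  · rw [Real.norm_eq_abs, abs_mul]
    exact mul_le_of_le_one_right (abs_nonneg _) (Real.abs_cos_le_one _)

/-- **Reduction**: two component weights to one component gases in a Gaussian imaginary field. -/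
theorem reduction {n : ℕ} {c : ℝ → ℝ} (hc : Continuous c) (hce : ∀ k, c (-k) = c k)
    {K h : ℝ} (hh : 0 < h) (hK : K * h < Real.pi) (hcs : ∀ k, K < |k| → c k = 0)
    {Lh lg : ℝ → ℝ} (hL : ∀ k, 0 < k → c k ^ 2 ≤ Lh k)
    (hint : ∀ t, IntegrableOn (fun k => (1 - Real.cos (k * t)) * Lh k) (Ioi 0))
    (hlg : ∀ t, lg t = 1 / Real.pi * ∫ k in Ioi (0:ℝ), (1 - Real.cos (k * t)) * Lh k)
    {g : ℝ → ℝ} (g0 : ℝ) (hg0 : 0 < g0) (hg : ∀ t, g t = g0 * Real.exp (- lg t))
    (La : Finset ℤ) (a : ℝ) {A B : (Fin n → ℝ) → ℝ} (hA : Integrable A) (hB : Integrable B)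
    (hA0 : ∀ s, 0 ≤ A s) (hB0 : ∀ s, 0 ≤ B s) :
    ∫ p : (Fin n → ℝ) × (Fin n → ℝ), A p.1 * B p.2 * br g p.1 p.2 ≤
      g0 ^ n * ∫ x : La → ℝ,
        ‖∫ s, (A s : ℂ) * Complex.exp (((∑ l, x l * ∑ i, chi c h (s i - (a + (l : ℤ) * h)) : ℝ) : ℂ) * Complex.I)‖ *
        ‖∫ s, (B s : ℂ) * Complex.exp (((∑ l, x l * ∑ i, chi c h (s i - (a + (l : ℤ) * h)) : ℝ) : ℂ) * Complex.I)‖
        ∂(Measure.pi fun _ => ProbabilityTheory.gaussianReal 0 1) := by
  have hgp : ∀ t, 0 < g t := fun t => by rw [hg]; positivity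
  have hcont := chi_cont hc hcs h
  have hX : ∀ l : La, Measurable fun s : Fin n → ℝ => ∑ i, chi c h (s i - (a + (l : ℤ) * h)) := by
    intro l
    refine Continuous.measurable ?_
    exact continuous_finsetSum _ fun i _ => hcont.comp (by fun_prop)
  have h1 := hs_prod hA hB hX hX
  refine le_trans ?_ (mul_le_mul_of_nonneg_left h1 (by positivity))
  rw [← integral_const_mul]
  refine integral_mono_of_nonneg (ae_of_all _ fun p => ?_) ?_ (ae_of_all _ fun p => ?_)
  · have : 0 ≤ br g p.1 p.2 := by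
      unfold br
      have h2 := fun t => (hgp t).le
      refine div_nonneg (Finset.prod_nonneg fun i _ => Finset.prod_nonneg fun j _ => h2 _)
        (mul_nonneg ?_ ?_) <;>
      exact Finset.prod_nonneg fun i _ => Finset.prod_nonneg fun j _ => h2 _
    have h3 := hA0 p.1
    have h4 := hB0 p.2
    simp only [Pi.zero_apply]
    positivity
  · have hAB : Integrable (fun p : (Fin n → ℝ) × (Fin n → ℝ) => A p.1 * B p.2) := hA.mul_prod hB
    refine (Integrable.mul_bdd (c := 1) hAB ?_ (ae_of_all _ fun p => ?_)).const_mul _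
    · refine Measurable.aestronglyMeasurable ?_
      refine Real.measurable_exp.comp (Measurable.const_mul (Finset.measurable_sum _ fun l _ => ?_) _)
      exact (((hX l).comp measurable_fst).sub ((hX l).comp measurable_snd)).pow_const _
    · rw [Real.norm_eq_abs, abs_of_pos (Real.exp_pos _)]
      refine Real.exp_le_one_iff.2 ?_
      have : 0 ≤ ∑ l : La, (∑ i, chi c h (p.1 i - (a + (l : ℤ) * h)) -
        ∑ i, chi c h (p.2 i - (a + (l : ℤ) * h))) ^ 2 := Finset.sum_nonneg fun _ _ => sq_nonneg _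
      linarith
  · have h2 := br_le hc hce hh hK hcs hL hint hlg g0 hg0 hg La a p.1 p.2
    have h3 := mul_le_mul_of_nonneg_left h2 (mul_nonneg (hA0 p.1) (hB0 p.2))
    refine h3.trans (le_of_eq ?_)
    ring

end

end NUE
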