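import Mathlib

/-!
# Cosine and sine transforms of smooth compactly supported profiles

`ct a t = ∫ a(k) cos(k t) dk`, `st a t = ∫ a(k) sin(k t) dk`.
Derivatives, rapid decay.
-/

set_option autoImplicit false

open MeasureTheory Set Filter Topology

namespace NUE

noncomputable section

/-- cosine transform -/
def ct (a : ℝ → ℝ) (t : ℝ) : ℝ := ∫ k, a k * Real.cos (k * t)

/-- sine transform -/
def st (a : ℝ → ℝ) (t : ℝ) : ℝ := ∫ k, a k * Real.sin (k * t)

lemma ct_integrable {a : ℝ → ℝ} (ha : Integrable a) (t : ℝ) :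
    Integrable fun k => a k * Real.cos (k * t) := by
  refine Integrable.mul_bdd (c := 1) ha (by fun_prop) (ae_of_all _ fun k => ?_)
  rw [Real.norm_eq_abs]
  exact Real.abs_cos_le_one _

lemma st_integrable {a : ℝ → ℝ} (ha : Integrable a) (t : ℝ) :
    Integrable fun k => a k * Real.sin (k * t) := by
  refine Integrable.mul_bdd (c := 1) ha (by fun_prop) (ae_of_all _ fun k => ?_)
  rw [Real.norm_eq_abs]
  exact Real.abs_sin_le_one _

lemma abs_ct_le {a : ℝ → ℝ} (ha : Integrable a) (t : ℝ) : |ct a t| ≤ ∫ k, |a k| := by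
  unfold ct
  rw [← Real.norm_eq_abs]
  refine (norm_integral_le_integral_norm _).trans (integral_mono_of_nonneg
    (ae_of_all _ fun k => norm_nonneg _) ha.abs (ae_of_all _ fun k => ?_))
  simp only [norm_mul, Real.norm_eq_abs]
  exact mul_le_of_le_one_right (abs_nonneg _) (Real.abs_cos_le_one _)

lemma abs_st_le {a : ℝ → ℝ} (ha : Integrable a) (t : ℝ) : |st a t| ≤ ∫ k, |a k| := by
  unfold st
  rw [← Real.norm_eq_abs]
  refine (norm_integral_le_integral_norm _).trans (integral_mono_of_nonneg
    (ae_of_all _ fun k => norm_nonneg _) ha.abs (ae_of_all _ fun k => ?_))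
  simp only [norm_mul, Real.norm_eq_abs]
  exact mul_le_of_le_one_right (abs_nonneg _) (Real.abs_sin_le_one _)

lemma ct_cont {a : ℝ → ℝ} (ha : Integrable a) : Continuous (ct a) := by
  unfold ct
  refine continuous_of_dominated (bound := fun k => |a k|) (fun t => (ct_integrable ha t).aestronglyMeasurable)
    (fun t => ae_of_all _ fun k => ?_) ha.abs (ae_of_all _ fun k => by fun_prop)
  rw [norm_mul, Real.norm_eq_abs]
  exact mul_le_of_le_one_right (abs_nonneg _) (Real.abs_cos_le_one _)

lemma st_cont {a : ℝ → ℝ} (ha : Integrable a) : Continuous (st a) := by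
  unfold st
  refine continuous_of_dominated (bound := fun k => |a k|) (fun t => (st_integrable ha t).aestronglyMeasurable)
    (fun t => ae_of_all _ fun k => ?_) ha.abs (ae_of_all _ fun k => by fun_prop)
  rw [norm_mul, Real.norm_eq_abs]
  exact mul_le_of_le_one_right (abs_nonneg _) (Real.abs_sin_le_one _)

lemma ct_neg (a : ℝ → ℝ) (t : ℝ) : ct a (-t) = ct a t := by
  unfold ct; simp

lemma st_neg (a : ℝ → ℝ) (t : ℝ) : st a (-t) = - st a t := by
  unfold st
  rw [← integral_neg]
  refine integral_congr_ae (ae_of_all _ fun k => ?_)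
  simp

lemma hasDerivAt_ct {a : ℝ → ℝ} (ha : Integrable a) (ha1 : Integrable fun k => k * a k) (t : ℝ) :
    HasDerivAt (ct a) (- st (fun k => k * a k) t) t := by
  have h := hasDerivAt_integral_of_dominated_loc_of_deriv_le (μ := volume)
    (F := fun t k => a k * Real.cos (k * t)) (F' := fun t k => - (k * a k * Real.sin (k * t))) (x₀ := t)
    (s := univ) (bound := fun k => |k * a k|) Filter.univ_mem
    (Eventually.of_forall fun t => (ct_integrable ha t).aestronglyMeasurable) (ct_integrable ha t)
    (st_integrable ha1 t).neg.aestronglyMeasurable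
    (ae_of_all _ fun k x _ => ?_) ha1.abs (ae_of_all _ fun k x _ => ?_)
  · have h2 := h.2
    rw [integral_neg] at h2
    exact h2
  · rw [norm_neg, norm_mul, Real.norm_eq_abs]
    exact mul_le_of_le_one_right (abs_nonneg _) (Real.abs_sin_le_one _)
  · have h0 : HasDerivAt (fun x : ℝ => k * x) k x := by simpa using (hasDerivAt_id x).const_mul k
    have h1 := (h0.cos).const_mul (a k)
    have e : a k * (-Real.sin (k * x) * k) = - (k * a k * Real.sin (k * x)) := by ring
    rw [e] at h1
    exact h1

lemma hasDerivAt_st {a : ℝ → ℝ} (ha : Integrable a) (ha1 : Integrable fun k => k * a k) (t : ℝ) :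
    HasDerivAt (st a) (ct (fun k => k * a k) t) t := by
  have h := hasDerivAt_integral_of_dominated_loc_of_deriv_le (μ := volume)
    (F := fun t k => a k * Real.sin (k * t)) (F' := fun t k => (k * a k * Real.cos (k * t))) (x₀ := t)
    (s := univ) (bound := fun k => |k * a k|) Filter.univ_mem
    (Eventually.of_forall fun t => (st_integrable ha t).aestronglyMeasurable) (st_integrable ha t)
    (ct_integrable ha1 t).aestronglyMeasurable
    (ae_of_all _ fun k x _ => ?_) ha1.abs (ae_of_all _ fun k x _ => ?_)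
  · exact h.2
  · rw [norm_mul, Real.norm_eq_abs]
    exact mul_le_of_le_one_right (abs_nonneg _) (Real.abs_cos_le_one _)
  · have h0 : HasDerivAt (fun x : ℝ => k * x) k x := by simpa using (hasDerivAt_id x).const_mul k
    have h1 := (h0.sin).const_mul (a k)
    have e : a k * (Real.cos (k * x) * k) = (k * a k * Real.cos (k * x)) := by ring
    rw [e] at h1
    exact h1

/-- smooth compactly supported profiles -/
def Pf (a : ℝ → ℝ) : Prop := ContDiff ℝ ((⊤ : ℕ∞) : WithTop ℕ∞) a ∧ HasCompactSupport a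

lemma Pf.cont {a : ℝ → ℝ} (h : Pf a) : Continuous a := h.1.continuous

lemma Pf.int {a : ℝ → ℝ} (h : Pf a) : Integrable a := h.cont.integrable_of_hasCompactSupport h.2

lemma Pf.deriv {a : ℝ → ℝ} (h : Pf a) : Pf (deriv a) :=
  ⟨h.1.deriv', h.2.deriv⟩

lemma Pf.mulk {a : ℝ → ℝ} (h : Pf a) : Pf fun k => k * a k :=
  ⟨contDiff_id.mul h.1, h.2.mul_left⟩

lemma Pf.hasDeriv {a : ℝ → ℝ} (h : Pf a) (x : ℝ) : HasDerivAt a (_root_.deriv a x) x :=
  (h.1.differentiable (by simp) x).hasDerivAt

lemma t_mul_ct {a : ℝ → ℝ} (h : Pf a) (t : ℝ) : t * ct a t = - st (deriv a) t := by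
  have h1 : ∫ k, (deriv a k * Real.sin (k * t) + a k * (Real.cos (k * t) * t)) = 0 := by
    refine integral_eq_zero_of_hasDerivAt_of_integrable (f := fun k => a k * Real.sin (k * t))
      (fun k => ?_) ?_ ?_
    · have h0 : HasDerivAt (fun x : ℝ => x * t) t k := by simpa using (hasDerivAt_id k).mul_const t
      exact (h.hasDeriv k).mul h0.sin
    · refine (st_integrable h.deriv.int t).add ?_
      have := (ct_integrable h.int t).mul_const t
      refine this.congr (ae_of_all _ fun k => ?_)
      simp only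
      ring
    · exact st_integrable h.int t
  have h2 : ∫ k, (deriv a k * Real.sin (k * t) + a k * (Real.cos (k * t) * t)) =
      st (deriv a) t + ct a t * t := by
    unfold st ct
    rw [← integral_mul_const, ← integral_add (st_integrable h.deriv.int t) ((ct_integrable h.int t).mul_const t)]
    refine integral_congr_ae (ae_of_all _ fun k => ?_)
    simp only
    ring
  rw [h2] at h1
  linarith

lemma t_mul_st {a : ℝ → ℝ} (h : Pf a) (t : ℝ) : t * st a t = ct (deriv a) t := by
  have h1 : ∫ k, (deriv a k * Real.cos (k * t) + a k * (-Real.sin (k * t) * t)) = 0 := by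
    refine integral_eq_zero_of_hasDerivAt_of_integrable (f := fun k => a k * Real.cos (k * t))
      (fun k => ?_) ?_ ?_
    · have h0 : HasDerivAt (fun x : ℝ => x * t) t k := by simpa using (hasDerivAt_id k).mul_const t
      exact (h.hasDeriv k).mul h0.cos
    · refine (ct_integrable h.deriv.int t).add ?_
      have := (st_integrable h.int t).mul_const (-t)
      refine this.congr (ae_of_all _ fun k => ?_)
      simp only
      ring
    · exact ct_integrable h.int t
  have h2 : ∫ k, (deriv a k * Real.cos (k * t) + a k * (-Real.sin (k * t) * t)) =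
      ct (deriv a) t + st a t * (-t) := by
    unfold st ct
    rw [← integral_mul_const, ← integral_add (ct_integrable h.deriv.int t) ((st_integrable h.int t).mul_const (-t))]
    refine integral_congr_ae (ae_of_all _ fun k => ?_)
    simp only
    ring
  rw [h2] at h1
  linarith

/-- rapid decay of the transforms -/
theorem decay (n : ℕ) : ∀ {a : ℝ → ℝ}, Pf a → ∃ C, 0 ≤ C ∧ ∀ t,
    (1 + |t|) ^ n * |ct a t| ≤ C ∧ (1 + |t|) ^ n * |st a t| ≤ C := by
  induction n with
  | zero =>
    intro a h
    refine ⟨∫ k, |a k|, integral_nonneg fun k => abs_nonneg _, fun t => ?_⟩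
    rw [pow_zero, one_mul, one_mul]
    exact ⟨abs_ct_le h.int t, abs_st_le h.int t⟩
  | succ n ih =>
    intro a h
    obtain ⟨C1, h1, H1⟩ := ih h
    obtain ⟨C2, h2, H2⟩ := ih h.deriv
    refine ⟨C1 + C2, by positivity, fun t => ⟨?_, ?_⟩⟩
    · have e : (1 + |t|) ^ (n + 1) * |ct a t| = (1 + |t|) ^ n * |ct a t| + (1 + |t|) ^ n * |t * ct a t| := by
        rw [abs_mul]; ring
      rw [e, t_mul_ct h, abs_neg]
      exact add_le_add (H1 t).1 (H2 t).2
    · have e : (1 + |t|) ^ (n + 1) * |st a t| = (1 + |t|) ^ n * |st a t| + (1 + |t|) ^ n * |t * st a t| := by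
        rw [abs_mul]; ring
      rw [e, t_mul_st h]
      exact add_le_add (H1 t).2 (H2 t).1

lemma decay_int {f : ℝ → ℝ} (hf : Continuous f) {C : ℝ} (hC : ∀ t, (1 + |t|) ^ 4 * |f t| ≤ C) :
    Integrable fun t => (1 + |t|) ^ 2 * |f t| := by
  have h1 : Integrable fun t : ℝ => C * (1 + t ^ 2)⁻¹ := integrable_inv_one_add_sq.const_mul C
  refine Integrable.mono' h1 (by fun_prop) (ae_of_all _ fun t => ?_)
  rw [Real.norm_of_nonneg (by positivity)]
  rw [← div_eq_mul_inv, le_div_iff₀ (by positivity)]
  refine le_trans ?_ (hC t)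
  have h2 : 1 + t ^ 2 ≤ (1 + |t|) ^ 2 := by
    rw [← sq_abs t]
    nlinarith [abs_nonneg t]
  calc (1 + |t|) ^ 2 * |f t| * (1 + t ^ 2) ≤ (1 + |t|) ^ 2 * |f t| * (1 + |t|) ^ 2 :=
        mul_le_mul_of_nonneg_left h2 (by positivity)
    _ = (1 + |t|) ^ 4 * |f t| := by ring

lemma ct_wint {a : ℝ → ℝ} (h : Pf a) : Integrable fun t => (1 + |t|) ^ 2 * |ct a t| := by
  obtain ⟨C, _, hC⟩ := decay 4 h
  exact decay_int (ct_cont h.int) fun t => (hC t).1

lemma st_wint {a : ℝ → ℝ} (h : Pf a) : Integrable fun t => (1 + |t|) ^ 2 * |st a t| := by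
  obtain ⟨C, _, hC⟩ := decay 4 h
  exact decay_int (st_cont h.int) fun t => (hC t).2

lemma int_of_wint {f : ℝ → ℝ} (hf : Continuous f) (h : Integrable fun t => (1 + |t|) ^ 2 * |f t|) :
    Integrable f := by
  refine Integrable.mono' h hf.aestronglyMeasurable (ae_of_all _ fun t => ?_)
  rw [Real.norm_eq_abs]
  have : 1 ≤ (1 + |t|) ^ 2 := by
    have := abs_nonneg t
    nlinarith
  nlinarith [abs_nonneg (f t)]

lemma ct_int {a : ℝ → ℝ} (h : Pf a) : Integrable (ct a) := int_of_wint (ct_cont h.int) (ct_wint h)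

lemma st_int {a : ℝ → ℝ} (h : Pf a) : Integrable (st a) := int_of_wint (st_cont h.int) (st_wint h)

end

end NUE
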