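import Pool.Agent.NUA.RevLin

/-!
# The finite Gaussian field ([4.5] of doc nu34/50d)

Toeplitz matrix of a nonnegative symbol, Szegoe lower bound for `det (1 + 2B)` and the Gaussian average
of a function with a Gaussian bound.
-/

set_option autoImplicit false

namespace NUE

open MeasureTheory ProbabilityTheory ENNReal Module NURev

open scoped RealInnerProductSpace NNReal

/-- the Toeplitz matrix of the symbol `f` -/
noncomputable def toep (f : ℝ → ℝ) (N : ℕ) : Matrix (Fin N) (Fin N) ℝ := fun i j =>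
  1 / (2 * Real.pi) * ∫ θ in (-Real.pi)..Real.pi, f θ * Real.cos (θ * ((i : ℝ) - (j : ℝ)))

/-- `|Σ g_i e^{i i θ}|²` -/
noncomputable def sq {N : ℕ} (g : Fin N → ℝ) (θ : ℝ) : ℝ :=
  (∑ i : Fin N, g i * Real.cos (θ * (i : ℝ))) ^ 2 + (∑ i : Fin N, g i * Real.sin (θ * (i : ℝ))) ^ 2

lemma sq_nonneg' {N : ℕ} (g : Fin N → ℝ) (θ : ℝ) : 0 ≤ sq g θ := by unfold sq; positivity

lemma continuous_sq {N : ℕ} (g : Fin N → ℝ) : Continuous (sq g) := by unfold sq; fun_prop

lemma sq_eq {N : ℕ} (g : Fin N → ℝ) (θ : ℝ) :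
    sq g θ = ∑ i, ∑ j, g i * g j * Real.cos (θ * ((i : ℝ) - (j : ℝ))) := by
  unfold sq
  rw [pow_two, pow_two, Finset.sum_mul_sum, Finset.sum_mul_sum, ← Finset.sum_add_distrib]
  refine Finset.sum_congr rfl fun i _ => ?_
  rw [← Finset.sum_add_distrib]
  refine Finset.sum_congr rfl fun j _ => ?_
  rw [mul_sub, Real.cos_sub]
  ring

/-- (a) the quadratic form -/
theorem toep_quad {f : ℝ → ℝ} (hf : Continuous f) {N : ℕ} (g : Fin N → ℝ) :
    ∑ i, ∑ j, g i * toep f N i j * g j =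
      1 / (2 * Real.pi) * ∫ θ in (-Real.pi)..Real.pi, f θ * sq g θ := by
  have h1 : ∀ θ, f θ * sq g θ = ∑ i, ∑ j, g i * g j * (f θ * Real.cos (θ * ((i : ℝ) - (j : ℝ)))) := by
    intro θ
    rw [sq_eq, Finset.mul_sum]
    refine Finset.sum_congr rfl fun i _ => ?_
    rw [Finset.mul_sum]
    exact Finset.sum_congr rfl fun j _ => by ring
  simp_rw [h1]
  rw [intervalIntegral.integral_finsetSum
    (fun i _ => by apply Continuous.intervalIntegrable; fun_prop), Finset.mul_sum]
  refine Finset.sum_congr rfl fun i _ => ?_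
  rw [intervalIntegral.integral_finsetSum
    (fun j _ => by apply Continuous.intervalIntegrable; fun_prop), Finset.mul_sum]
  refine Finset.sum_congr rfl fun j _ => ?_
  rw [intervalIntegral.integral_const_mul]
  unfold toep
  ring

/-- orthogonality of the exponentials -/
lemma int_sq {N : ℕ} (g : Fin N → ℝ) :
    1 / (2 * Real.pi) * ∫ θ in (-Real.pi)..Real.pi, sq g θ = ∑ i, g i ^ 2 := by
  have h := toep_quad (f := fun _ => 1) continuous_const g
  simp only [one_mul] at h
  rw [← h]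
  refine Finset.sum_congr rfl fun i _ => ?_
  rw [Finset.sum_eq_single i]
  · unfold toep
    simp only [sub_self, mul_zero, Real.cos_zero, mul_one, intervalIntegral.integral_const, smul_eq_mul]
    field_simp
    ring
  · intro j _ hj
    have : toep (fun _ => 1) N i j = 0 := by
      unfold toep
      simp only [one_mul]
      have hne : (i : ℝ) - (j : ℝ) ≠ 0 := by
        intro h0
        apply hj
        have : (i : ℝ) = (j : ℝ) := by linarith
        exact (Fin.ext (by exact_mod_cast this)).symm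
      have h2 : ∫ θ in (-Real.pi)..Real.pi, Real.cos (θ * ((i : ℝ) - (j : ℝ))) = 0 := by
        rw [intervalIntegral.integral_comp_mul_right (fun x => Real.cos x) hne, integral_cos]
        have h3 : (i : ℝ) - (j : ℝ) = (((i : ℤ) - (j : ℤ) : ℤ) : ℝ) := by push_cast; ring
        rw [h3, mul_comm Real.pi, mul_comm (-Real.pi), show ((((i : ℤ) - (j : ℤ) : ℤ) : ℝ)) * -Real.pi =
          -((((i : ℤ) - (j : ℤ) : ℤ) : ℝ) * Real.pi) by ring, Real.sin_neg, Real.sin_int_mul_pi]
        simp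
      rw [h2, mul_zero]
    rw [this]
    ring
  · intro h0
    exact absurd (Finset.mem_univ _) h0

lemma toep_symm (f : ℝ → ℝ) {N : ℕ} (i j : Fin N) : toep f N i j = toep f N j i := by
  unfold toep
  congr 1
  refine intervalIntegral.integral_congr fun θ _ => ?_
  rw [show θ * ((i : ℝ) - (j : ℝ)) = -(θ * ((j : ℝ) - (i : ℝ))) by ring, Real.cos_neg]

lemma toep_nonneg {f : ℝ → ℝ} (hf : Continuous f) (h0 : ∀ θ, 0 ≤ f θ) {N : ℕ} (g : Fin N → ℝ) :
    0 ≤ ∑ i, ∑ j, g i * toep f N i j * g j := by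
  rw [toep_quad hf]
  have hpi := Real.pi_pos
  refine mul_nonneg (by positivity) (intervalIntegral.integral_nonneg (by linarith) fun θ _ => ?_)
  exact mul_nonneg (h0 θ) (sq_nonneg' g θ)

/-- (b), one vector: Jensen -/
lemma jensen {f : ℝ → ℝ} (hf : Continuous f) (h0 : ∀ θ, 0 ≤ f θ) {N : ℕ} (g : Fin N → ℝ)
    (hg : ∑ i, g i ^ 2 = 1) {lam : ℝ} (hlam : ∑ i, ∑ j, g i * toep f N i j * g j = lam) :
    1 / (2 * Real.pi) * ∫ θ in (-Real.pi)..Real.pi, Real.log (1 + 2 * f θ) * sq g θ ≤ Real.log (1 + 2 * lam) := by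
  have hpi := Real.pi_pos
  have hl0 : 0 ≤ lam := hlam ▸ toep_nonneg hf h0 g
  have hq : 0 < 1 + 2 * lam := by linarith
  have hcs := continuous_sq g
  have hlogc : Continuous fun θ => Real.log (1 + 2 * f θ) := by
    refine Continuous.log (by fun_prop) fun θ => ?_
    have := h0 θ
    positivity
  have h1 : ∀ θ, Real.log (1 + 2 * f θ) * sq g θ ≤
      (Real.log (1 + 2 * lam) - 2 * lam / (1 + 2 * lam)) * sq g θ + 2 / (1 + 2 * lam) * (f θ * sq g θ) := by
    intro θ
    have hp : 0 < 1 + 2 * f θ := by have := h0 θ; positivity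
    have h2 := Real.log_le_sub_one_of_pos (div_pos hp hq)
    rw [Real.log_div hp.ne' hq.ne'] at h2
    have h3 : (1 + 2 * f θ) / (1 + 2 * lam) - 1 = 2 / (1 + 2 * lam) * f θ - 2 * lam / (1 + 2 * lam) := by
      field_simp
      ring
    rw [h3] at h2
    have h4 := mul_le_mul_of_nonneg_right h2 (sq_nonneg' g θ)
    nlinarith
  have h5 : ∫ θ in (-Real.pi)..Real.pi, Real.log (1 + 2 * f θ) * sq g θ ≤
      (Real.log (1 + 2 * lam) - 2 * lam / (1 + 2 * lam)) * (∫ θ in (-Real.pi)..Real.pi, sq g θ) +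
        2 / (1 + 2 * lam) * (∫ θ in (-Real.pi)..Real.pi, f θ * sq g θ) := by
    rw [← intervalIntegral.integral_const_mul, ← intervalIntegral.integral_const_mul,
      ← intervalIntegral.integral_add (by apply Continuous.intervalIntegrable; fun_prop)
        (by apply Continuous.intervalIntegrable; fun_prop)]
    exact intervalIntegral.integral_mono_on (by linarith) (by apply Continuous.intervalIntegrable; fun_prop)
      (by apply Continuous.intervalIntegrable; fun_prop) fun θ _ => h1 θ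
  have h6 := int_sq g
  rw [hg] at h6
  rw [toep_quad hf] at hlam
  have h7 : 0 ≤ 1 / (2 * Real.pi) := by positivity
  have h8 := mul_le_mul_of_nonneg_left h5 h7
  rw [mul_add, mul_left_comm, h6, mul_left_comm (1 / (2 * Real.pi)) (2 / (1 + 2 * lam)), hlam] at h8
  have h9 : 2 / (1 + 2 * lam) * lam = 2 * lam / (1 + 2 * lam) := by ring
  rw [h9] at h8
  linarith

lemma sum_sq_basis {N : ℕ} {κ : Type*} [Fintype κ] (b : OrthonormalBasis κ ℝ (EuclideanSpace ℝ (Fin N))) (θ : ℝ) :
    ∑ k, sq (WithLp.ofLp (b k)) θ = N := by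
  obtain ⟨c, hc⟩ : ∃ c : EuclideanSpace ℝ (Fin N), c = WithLp.toLp 2 (fun i : Fin N => Real.cos (θ * (i : ℝ))) := ⟨_, rfl⟩
  obtain ⟨d, hd⟩ : ∃ d : EuclideanSpace ℝ (Fin N), d = WithLp.toLp 2 (fun i : Fin N => Real.sin (θ * (i : ℝ))) := ⟨_, rfl⟩
  have h1 : ∀ k, sq (WithLp.ofLp (b k)) θ = ⟪b k, c⟫ ^ 2 + ⟪b k, d⟫ ^ 2 := by
    intro k
    unfold sq
    rw [PiLp.inner_apply, PiLp.inner_apply, hc, hd]
    simp only [RCLike.inner_apply, conj_trivial]
    congr 2 <;> exact Finset.sum_congr rfl fun i _ => by ring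
  simp_rw [h1]
  rw [Finset.sum_add_distrib, b.sum_sq_inner_right, b.sum_sq_inner_right, EuclideanSpace.real_norm_sq_eq,
    EuclideanSpace.real_norm_sq_eq, ← Finset.sum_add_distrib, hc, hd]
  simp

/-- (b) + (c): the Gaussian integral of the Toeplitz form -/
theorem gauss_toep {f : ℝ → ℝ} (hf : Continuous f) (h0 : ∀ θ, 0 ≤ f θ) (N : ℕ) :
    ∫⁻ g : Fin N → ℝ, ENNReal.ofReal (Real.exp (-∑ i, ∑ j, g i * toep f N i j * g j))
      ∂(Measure.pi fun _ => gaussianReal 0 1) ≤
      ENNReal.ofReal (Real.exp (-((N : ℝ) / 2 *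
        (1 / (2 * Real.pi) * ∫ θ in (-Real.pi)..Real.pi, Real.log (1 + 2 * f θ))))) := by
  obtain ⟨T, hT⟩ : ∃ T : EuclideanSpace ℝ (Fin N) →ₗ[ℝ] EuclideanSpace ℝ (Fin N),
    T = (toep f N).toEuclideanLin := ⟨_, rfl⟩
  have hquad : ∀ g : EuclideanSpace ℝ (Fin N), ⟪T g, g⟫ = ∑ i, ∑ j, g i * toep f N i j * g j := by
    intro g
    rw [hT, PiLp.inner_apply]
    refine Finset.sum_congr rfl fun a _ => ?_
    rw [Matrix.toLpLin_apply]
    simp only [RCLike.inner_apply, conj_trivial, Matrix.mulVec, dotProduct]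
    rw [Finset.mul_sum]
    exact Finset.sum_congr rfl fun b _ => by ring
  have hsym : T.IsSymmetric := by
    rw [hT, Matrix.isSymmetric_toEuclideanLin_iff]
    ext a b
    simp [Matrix.conjTranspose_apply, toep_symm f a b]
  obtain ⟨b, hb⟩ : ∃ b, b = hsym.eigenvectorBasis rfl := ⟨_, rfl⟩
  obtain ⟨c, hcdef⟩ : ∃ c, c = hsym.eigenvalues rfl := ⟨_, rfl⟩
  have hTb : ∀ i, T (b i) = c i • b i := by
    intro i
    rw [hb, hcdef]
    exact hsym.apply_eigenvectorBasis rfl i
  have hdiag : ∀ g, ⟪T g, g⟫ = ∑ i, c i * ⟪b i, g⟫ ^ 2 := by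
    intro g
    rw [← b.sum_inner_mul_inner (T g) g]
    refine Finset.sum_congr rfl fun i _ => ?_
    rw [hsym g (b i), hTb, real_inner_smul_right, real_inner_comm]
    ring
  have hcb : ∀ i, c i = ⟪T (b i), b i⟫ := by
    intro i
    rw [hTb, real_inner_smul_left, real_inner_self_eq_norm_sq, b.orthonormal.1 i]
    ring
  have hc0 : ∀ i, 0 ≤ c i := fun i => by rw [hcb, hquad]; exact toep_nonneg hf h0 _
  have hpi := Real.pi_pos
  obtain ⟨J, hJ⟩ : ∃ J : ℝ, J = 1 / (2 * Real.pi) * ∫ θ in (-Real.pi)..Real.pi, Real.log (1 + 2 * f θ) := ⟨_, rfl⟩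
  rw [← hJ]
  have hlogc : Continuous fun θ => Real.log (1 + 2 * f θ) := by
    refine Continuous.log (by fun_prop) fun θ => ?_
    have := h0 θ
    positivity
  have hjen : ∀ k, 1 / (2 * Real.pi) * ∫ θ in (-Real.pi)..Real.pi, Real.log (1 + 2 * f θ) *
      sq (WithLp.ofLp (b k)) θ ≤ Real.log (1 + 2 * c k) := by
    intro k
    refine jensen hf h0 _ ?_ ?_
    · have := EuclideanSpace.real_norm_sq_eq (b k)
      rw [b.orthonormal.1 k] at this
      rw [← this]
      norm_num
    · rw [hcb k, hquad]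
  have hsum : (N : ℝ) * J ≤ ∑ k, Real.log (1 + 2 * c k) := by
    refine le_trans (le_of_eq ?_) (Finset.sum_le_sum fun k _ => hjen k)
    rw [← Finset.mul_sum, ← intervalIntegral.integral_finsetSum
      (fun k _ => by
        have := continuous_sq (WithLp.ofLp (b k))
        apply Continuous.intervalIntegrable
        fun_prop)]
    simp_rw [← Finset.mul_sum, sum_sq_basis b]
    rw [intervalIntegral.integral_mul_const, hJ]
    ring
  have hmap : ∫⁻ g : Fin N → ℝ, ENNReal.ofReal (Real.exp (-∑ i, ∑ j, g i * toep f N i j * g j))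
      ∂(Measure.pi fun _ => gaussianReal 0 1) =
      ∫⁻ x, ENNReal.ofReal (Real.exp ((∑ k, (-2 * c k) * ⟪b k, x⟫ ^ 2) / 2))
        ∂(stdGaussian (EuclideanSpace ℝ (Fin N))) := by
    rw [← map_pi_eq_stdGaussian, lintegral_map (by fun_prop) (by fun_prop)]
    refine lintegral_congr fun g => ?_
    have h1 := hdiag (WithLp.toLp 2 g)
    rw [hquad] at h1
    congr 2
    have h2 : ∑ i, ∑ j, g i * toep f N i j * g j = ∑ k, c k * ⟪b k, WithLp.toLp 2 g⟫ ^ 2 := h1
    rw [h2, Finset.sum_div, ← Finset.sum_neg_distrib]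
    exact Finset.sum_congr rfl fun k _ => by ring
  rw [hmap, quad b (c := fun k => -2 * c k) (fun k => by have := hc0 k; linarith)]
  refine ENNReal.ofReal_le_ofReal ?_
  have h3 : ∀ k, (Real.sqrt (1 - -2 * c k))⁻¹ = Real.exp (-(1 / 2) * Real.log (1 + 2 * c k)) := by
    intro k
    have hq : 0 < 1 + 2 * c k := by have := hc0 k; positivity
    rw [show 1 - -2 * c k = 1 + 2 * c k by ring, Real.sqrt_eq_rpow, ← Real.rpow_neg hq.le,
      Real.rpow_def_of_pos hq]
    congr 1
    ring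
  simp_rw [h3]
  rw [← Real.exp_sum, ← Finset.mul_sum]
  refine Real.exp_le_exp.2 ?_
  linarith

/-- the Gaussian tail -/
lemma tail {G : ℝ} (hG : 0 ≤ G) : gaussianReal 0 1 {x | G < |x|} ≤ ENNReal.ofReal (2 * Real.exp (-(G ^ 2 / 2))) := by
  have hm : MeasurableSet {x : ℝ | G < |x|} := measurableSet_lt measurable_const (by fun_prop)
  calc gaussianReal 0 1 {x | G < |x|} = ∫⁻ x in {x | G < |x|}, 1 ∂(gaussianReal 0 1) := by simp
    _ ≤ ∫⁻ x in {x | G < |x|}, (ENNReal.ofReal (Real.exp (-G ^ 2)) * (ENNReal.ofReal (Real.exp (x * G)) +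
          ENNReal.ofReal (Real.exp (x * -G)))) ∂(gaussianReal 0 1) := by
        refine setLIntegral_mono' hm fun x hx => ?_
        have hx' : G < |x| := hx
        rw [← ENNReal.ofReal_add (Real.exp_pos _).le (Real.exp_pos _).le,
          ← ENNReal.ofReal_mul (Real.exp_pos _).le, ← ENNReal.ofReal_one]
        refine ENNReal.ofReal_le_ofReal ?_
        have h1 : Real.exp (G ^ 2) ≤ Real.exp (x * G) + Real.exp (x * -G) := by
          rcases abs_cases x with ⟨h, _⟩ | ⟨h, _⟩
          · rw [h] at hx'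
            have : Real.exp (G ^ 2) ≤ Real.exp (x * G) := Real.exp_le_exp.2 (by nlinarith)
            have := Real.exp_pos (x * -G)
            linarith
          · rw [h] at hx'
            have : Real.exp (G ^ 2) ≤ Real.exp (x * -G) := Real.exp_le_exp.2 (by nlinarith)
            have := Real.exp_pos (x * G)
            linarith
        have h2 : Real.exp (-G ^ 2) * Real.exp (G ^ 2) = 1 := by rw [← Real.exp_add]; simp
        have := mul_le_mul_of_nonneg_left h1 (Real.exp_pos (-G ^ 2)).le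
        linarith
    _ ≤ ∫⁻ x, (ENNReal.ofReal (Real.exp (-G ^ 2)) * (ENNReal.ofReal (Real.exp (x * G)) +
          ENNReal.ofReal (Real.exp (x * -G)))) ∂(gaussianReal 0 1) := setLIntegral_le_lintegral _ _
    _ = ENNReal.ofReal (2 * Real.exp (-(G ^ 2 / 2))) := by
        rw [lintegral_const_mul _ (by fun_prop), lintegral_add_left (by fun_prop), g1, g1,
          ← ENNReal.ofReal_add (Real.exp_pos _).le (Real.exp_pos _).le, ← ENNReal.ofReal_mul (Real.exp_pos _).le]
        congr 1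
        rw [neg_sq, ← two_mul, mul_left_comm, ← Real.exp_add]
        congr 2
        ring

/-- the tail of the field -/
lemma tail_pi (N : ℕ) {G : ℝ} (hG : 0 ≤ G) :
    (Measure.pi fun _ : Fin N => gaussianReal 0 1) {g | ∃ i, G < |g i|} ≤
      ENNReal.ofReal (2 * N * Real.exp (-(G ^ 2 / 2))) := by
  have hset : {g : Fin N → ℝ | ∃ i, G < |g i|} = ⋃ i, {g : Fin N → ℝ | G < |g i|} := by
    ext g
    simp
  have hm : MeasurableSet {x : ℝ | G < |x|} := measurableSet_lt measurable_const (by fun_prop)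
  rw [hset]
  calc (Measure.pi fun _ : Fin N => gaussianReal 0 1) (⋃ i, {g : Fin N → ℝ | G < |g i|})
      ≤ ∑ i, (Measure.pi fun _ : Fin N => gaussianReal 0 1) {g : Fin N → ℝ | G < |g i|} :=
        measure_iUnion_fintype_le _ _
    _ ≤ ∑ _i : Fin N, ENNReal.ofReal (2 * Real.exp (-(G ^ 2 / 2))) := by
        refine Finset.sum_le_sum fun i _ => ?_
        have h1 := (measurePreserving_eval (fun _ : Fin N => gaussianReal 0 1) i).measure_preimage hm.nullMeasurableSet
        rw [show {g : Fin N → ℝ | G < |g i|} = Function.eval i ⁻¹' {x : ℝ | G < |x|} from rfl, h1]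
        exact tail hG
    _ = ENNReal.ofReal (2 * N * Real.exp (-(G ^ 2 / 2))) := by
        rw [Finset.sum_const, Finset.card_univ, Fintype.card_fin, nsmul_eq_mul,
          show (2 * (N : ℝ) * Real.exp (-(G ^ 2 / 2))) = (N : ℝ) * (2 * Real.exp (-(G ^ 2 / 2))) by ring,
          ENNReal.ofReal_mul (Nat.cast_nonneg N), ENNReal.ofReal_natCast]

/-- (d) the field bound, `lintegral` form -/
theorem field_bound_lint {f : ℝ → ℝ} (hf : Continuous f) (h0 : ∀ θ, 0 ≤ f θ) (N : ℕ) {F : (Fin N → ℝ) → ℝ}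
    {Z e₀ G : ℝ} (hZ : 0 ≤ Z) (hG : 0 ≤ G) (h1 : ∀ g, F g ≤ Z)
    (h2 : ∀ g : Fin N → ℝ, (∀ i, |g i| ≤ G) → F g ≤ Z * Real.exp (e₀ - ∑ i, ∑ j, g i * toep f N i j * g j)) :
    ∫⁻ g, ENNReal.ofReal (F g) ∂(Measure.pi fun _ : Fin N => gaussianReal 0 1) ≤
      ENNReal.ofReal (Z * (Real.exp (e₀ - (N : ℝ) / 2 *
        (1 / (2 * Real.pi) * ∫ θ in (-Real.pi)..Real.pi, Real.log (1 + 2 * f θ))) +
          2 * N * Real.exp (-(G ^ 2 / 2)))) := by
  have hms : MeasurableSet {g : Fin N → ℝ | ∃ i, G < |g i|} := by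
    have hset : {g : Fin N → ℝ | ∃ i, G < |g i|} = ⋃ i, {g : Fin N → ℝ | G < |g i|} := by
      ext g
      simp
    rw [hset]
    exact MeasurableSet.iUnion fun i => measurableSet_lt measurable_const (by fun_prop)
  have key : ∀ g, ENNReal.ofReal (F g) ≤ ENNReal.ofReal (Z * Real.exp e₀) *
      ENNReal.ofReal (Real.exp (-∑ i, ∑ j, g i * toep f N i j * g j)) +
        {g : Fin N → ℝ | ∃ i, G < |g i|}.indicator (fun _ => ENNReal.ofReal Z) g := by
    intro g
    by_cases hg : ∃ i, G < |g i|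
    · rw [Set.indicator_of_mem (show g ∈ {g : Fin N → ℝ | ∃ i, G < |g i|} from hg)]
      exact (ENNReal.ofReal_le_ofReal (h1 g)).trans le_add_self
    · rw [Set.indicator_of_notMem (show g ∉ {g : Fin N → ℝ | ∃ i, G < |g i|} from hg), add_zero,
        ← ENNReal.ofReal_mul (by positivity)]
      push Not at hg
      refine ENNReal.ofReal_le_ofReal ((h2 g hg).trans (le_of_eq ?_))
      rw [sub_eq_add_neg, Real.exp_add]
      ring
  have hB : Measurable fun g : Fin N → ℝ =>
      ENNReal.ofReal (Real.exp (-∑ i, ∑ j, g i * toep f N i j * g j)) := by fun_prop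
  calc ∫⁻ g, ENNReal.ofReal (F g) ∂(Measure.pi fun _ : Fin N => gaussianReal 0 1)
      ≤ ∫⁻ g, (ENNReal.ofReal (Z * Real.exp e₀) *
          ENNReal.ofReal (Real.exp (-∑ i, ∑ j, g i * toep f N i j * g j)) +
          {g : Fin N → ℝ | ∃ i, G < |g i|}.indicator (fun _ => ENNReal.ofReal Z) g)
            ∂(Measure.pi fun _ : Fin N => gaussianReal 0 1) := lintegral_mono key
    _ = ENNReal.ofReal (Z * Real.exp e₀) * ∫⁻ g : Fin N → ℝ,
          ENNReal.ofReal (Real.exp (-∑ i, ∑ j, g i * toep f N i j * g j))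
            ∂(Measure.pi fun _ : Fin N => gaussianReal 0 1) +
          ENNReal.ofReal Z * (Measure.pi fun _ : Fin N => gaussianReal 0 1) {g | ∃ i, G < |g i|} := by
        rw [lintegral_add_left (hB.const_mul _), lintegral_const_mul _ hB, lintegral_indicator_const hms]
    _ ≤ ENNReal.ofReal (Z * Real.exp e₀) * ENNReal.ofReal (Real.exp (-((N : ℝ) / 2 *
          (1 / (2 * Real.pi) * ∫ θ in (-Real.pi)..Real.pi, Real.log (1 + 2 * f θ))))) +
          ENNReal.ofReal Z * ENNReal.ofReal (2 * N * Real.exp (-(G ^ 2 / 2))) := by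
        gcongr
        · exact gauss_toep hf h0 N
        · exact tail_pi N hG
    _ = _ := by
        rw [← ENNReal.ofReal_mul (by positivity), ← ENNReal.ofReal_mul hZ,
          ← ENNReal.ofReal_add (by positivity) (by positivity)]
        congr 1
        rw [sub_eq_add_neg, Real.exp_add]
        ring

/-- (d) **the field bound** -/
theorem field_bound {f : ℝ → ℝ} (hf : Continuous f) (h0 : ∀ θ, 0 ≤ f θ) (N : ℕ) {F : (Fin N → ℝ) → ℝ}
    (hF0 : ∀ g, 0 ≤ F g) {Z e₀ G : ℝ} (hZ : 0 ≤ Z) (hG : 0 ≤ G) (h1 : ∀ g, F g ≤ Z)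
    (h2 : ∀ g : Fin N → ℝ, (∀ i, |g i| ≤ G) → F g ≤ Z * Real.exp (e₀ - ∑ i, ∑ j, g i * toep f N i j * g j)) :
    ∫ g, F g ∂(Measure.pi fun _ : Fin N => gaussianReal 0 1) ≤
      Z * (Real.exp (e₀ - (N : ℝ) / 2 *
        (1 / (2 * Real.pi) * ∫ θ in (-Real.pi)..Real.pi, Real.log (1 + 2 * f θ))) +
          2 * N * Real.exp (-(G ^ 2 / 2))) := by
  have h := field_bound_lint hf h0 N hZ hG h1 h2
  by_cases hi : Integrable F (Measure.pi fun _ : Fin N => gaussianReal 0 1)
  · rw [integral_eq_lintegral_of_nonneg_ae (Filter.Eventually.of_forall hF0) hi.aestronglyMeasurable]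
    exact ENNReal.toReal_le_of_le_ofReal (by positivity) h
  · rw [integral_undef hi]
    positivity

/-- the Toeplitz matrix of a symbol on the line, grid step `h` -/
lemma toep_scale {h : ℝ} (hh : 0 < h) (κ : ℝ → ℝ) (N : ℕ) (i j : Fin N) :
    toep (fun θ => κ (θ / h)) N i j =
      h / (2 * Real.pi) * ∫ k in (-(Real.pi / h))..(Real.pi / h), κ k * Real.cos (k * (h * ((i : ℝ) - (j : ℝ)))) := by
  unfold toep
  have h1 : ∀ θ : ℝ, κ (θ / h) * Real.cos (θ * ((i : ℝ) - (j : ℝ))) =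
      (fun k => κ k * Real.cos (k * (h * ((i : ℝ) - (j : ℝ))))) (θ / h) := by
    intro θ
    simp only
    congr 2
    field_simp
  rw [intervalIntegral.integral_congr (fun θ _ => h1 θ), intervalIntegral.integral_comp_div
    (fun k => κ k * Real.cos (k * (h * ((i : ℝ) - (j : ℝ))))) hh.ne', smul_eq_mul, neg_div]
  ring

lemma log_scale {h : ℝ} (hh : 0 < h) (κ : ℝ → ℝ) :
    1 / (2 * Real.pi) * ∫ θ in (-Real.pi)..Real.pi, Real.log (1 + 2 * κ (θ / h)) =
      h / (2 * Real.pi) * ∫ k in (-(Real.pi / h))..(Real.pi / h), Real.log (1 + 2 * κ k) := by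
  rw [intervalIntegral.integral_comp_div (fun k => Real.log (1 + 2 * κ k)) hh.ne', smul_eq_mul]
  rw [neg_div]
  ring

/-- a symbol supported in `[-π/h, π/h]`: integrals over the whole line -/
lemma int_line {h : ℝ} (hh : 0 < h) {F : ℝ → ℝ} (hF : ∀ k, Real.pi / h < |k| → F k = 0) :
    ∫ k in (-(Real.pi / h))..(Real.pi / h), F k = ∫ k, F k := by
  have hp : 0 < Real.pi / h := by positivity
  rw [intervalIntegral.integral_of_le (by linarith), ← integral_Icc_eq_integral_Ioc]
  refine setIntegral_eq_integral_of_forall_compl_eq_zero fun k hk => hF k ?_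
  rw [Set.mem_Icc, not_and_or, not_le, not_le] at hk
  rcases hk with hk | hk
  · rw [lt_abs]
    right
    linarith
  · rw [lt_abs]
    left
    exact hk

end NUE
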