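import Pool.Agent.NUE.RevToep
import Pool.Agent.NUP.MF.Profile

/-!
# R3 with the explicit symbols (docs nu34/50d, 57, proof/NU_ABS_4)

`s = 2 c² / (U₊ + 2 L)`, `U₊ = NUMF.Uh`, `L = NUMF.Lh`, `c` = helper18's profile.
-/

set_option autoImplicit false

namespace NUE

open MeasureTheory Set Filter Topology NUMF

/-- the reduced symbol of the difference mode -/
noncomputable def rs (c : ℝ → ℝ) (k : ℝ) : ℝ := 2 * c k ^ 2 / (Uh k + 2 * Lh k)

lemma Um_pos {k : ℝ} (hk : k ≠ 0) : 0 < Uh k + 2 * Lh k := by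
  have h1 := Uh_pos hk
  have h2 := Lh_pos hk
  linarith

lemma rs_prof (n : ℕ) {k : ℝ} (hk : k ≠ 0) : rs (prof n) k = cut n k ^ 2 * (2 * kap k / (1 + 2 * kap k)) := by
  have h1 := Uh_pos hk
  have h2 := Lh_pos hk
  unfold rs
  rw [prof_sq n hk]
  unfold kap
  field_simp

lemma one_sub_rs (n : ℕ) {k : ℝ} (hk : k ≠ 0) :
    1 - rs (prof n) k = (1 + 2 * kap k * (1 - cut n k ^ 2)) / (1 + 2 * kap k) := by
  have h1 := kap_pos hk
  rw [rs_prof n hk]
  field_simp
  ring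

lemma rs_nonneg (c : ℝ → ℝ) {k : ℝ} (hk : k ≠ 0) : 0 ≤ rs c k := by
  have := Um_pos hk
  unfold rs
  positivity

lemma log_rs_bound (n : ℕ) {k : ℝ} (hk : k ≠ 0) :
    Real.log (1 - rs (prof n) k) ≤ 0 ∧ -Real.log (1 + 2 * kap k) ≤ Real.log (1 - rs (prof n) k) := by
  have h1 := kap_pos hk
  have h2 := cut_nonneg n k
  have h3 := cut_le_one n k
  have h4 : cut n k ^ 2 ≤ 1 := by nlinarith
  have h5 : 0 < 1 + 2 * kap k := by linarith
  have h6 : 0 ≤ 2 * kap k * (1 - cut n k ^ 2) := mul_nonneg (by linarith) (by linarith)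
  rw [one_sub_rs n hk]
  constructor
  · refine Real.log_nonpos (by positivity) ?_
    rw [div_le_one h5]
    nlinarith [sq_nonneg (cut n k)]
  · rw [← Real.log_inv]
    refine Real.log_le_log (by positivity) ?_
    rw [inv_eq_one_div]
    gcongr
    linarith

lemma rs_meas (n : ℕ) : Measurable fun k => Real.log (1 - rs (prof n) k) := by
  have h2 : Measurable (prof n) := (prof_smooth n).continuous.measurable
  have h3 : Measurable Uh := by
    unfold Uh ck1
    have := sk_meas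
    fun_prop
  have h4 : Measurable Lh := by
    unfold Lh ck1
    have := sk_meas
    fun_prop
  unfold rs
  fun_prop

lemma rs_integrable (n : ℕ) : IntegrableOn (fun k => Real.log (1 - rs (prof n) k)) (Ioi 0) := by
  refine Integrable.mono' log_kap.1 (rs_meas n).aestronglyMeasurable ?_
  filter_upwards [ae_restrict_mem measurableSet_Ioi] with k hk
  have hk0 : (0:ℝ) < k := hk
  obtain ⟨h1, h2⟩ := log_rs_bound n hk0.ne'
  rw [Real.norm_eq_abs, abs_of_nonpos h1]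
  linarith

lemma rs_limit : Tendsto (fun n => ∫ k in Ioi (0:ℝ), Real.log (1 - rs (prof n) k)) atTop
    (𝓝 (-(4 * Real.pi / 3))) := by
  rw [← log_kap.2, ← integral_neg]
  refine tendsto_integral_of_dominated_convergence (fun k => Real.log (1 + 2 * kap k))
    (fun n => (rs_meas n).aestronglyMeasurable) log_kap.1 ?_ ?_
  · intro n
    filter_upwards [ae_restrict_mem measurableSet_Ioi] with k hk
    have hk0 : (0:ℝ) < k := hk
    obtain ⟨h1, h2⟩ := log_rs_bound n hk0.ne'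
    rw [Real.norm_eq_abs, abs_of_nonpos h1]
    linarith
  · filter_upwards [ae_restrict_mem measurableSet_Ioi] with k hk
    have hk0 : (0:ℝ) < k := hk
    have h1 := kap_pos hk0.ne'
    have h5 : 0 < 1 + 2 * kap k := by linarith
    have h2 : Tendsto (fun n => (1 + 2 * kap k * (1 - cut n k ^ 2)) / (1 + 2 * kap k)) atTop
        (𝓝 ((1 + 2 * kap k * (1 - 1 ^ 2)) / (1 + 2 * kap k))) :=
      ((((((cut_tendsto hk0.ne').pow 2).const_sub 1).const_mul (2 * kap k)).const_add 1).div_const _)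
    have h3 := h2.log (by
      rw [one_pow, sub_self, mul_zero, add_zero]
      positivity)
    rw [one_pow, sub_self, mul_zero, add_zero, one_div, Real.log_inv] at h3
    refine h3.congr fun n => ?_
    rw [one_sub_rs n hk0.ne']

/-- the reduced symbol stays away from `1` -/
lemma rs_le (n : ℕ) : ∃ η : ℝ, 0 < η ∧ ∀ k, rs (prof n) k ≤ 1 - η := by
  have hn : (0:ℝ) < n + 1 := by positivity
  have hl := l_pos
  obtain ⟨κ, hκ⟩ : ∃ κ, κ = kap (1 / ((n:ℝ) + 1)) := ⟨_, rfl⟩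
  have hk0 : (0:ℝ) < 1 / ((n:ℝ) + 1) := by positivity
  have hκ0 : 0 < κ := by rw [hκ]; exact kap_pos hk0.ne'
  refine ⟨1 / (1 + 2 * κ), by positivity, fun k => ?_⟩
  by_cases h : |k| ≤ 1 / ((n:ℝ) + 1)
  · unfold rs
    rw [prof_zero_small h]
    have : 1 / (1 + 2 * κ) ≤ 1 := by
      rw [div_le_one (by linarith)]
      linarith
    simpa using this
  · rw [not_le] at h
    have hk : k ≠ 0 := by
      intro h0
      rw [h0, abs_zero] at h
      linarith
    have h1 := kap_pos hk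
    have h2 := cut_nonneg n k
    have h3 := cut_le_one n k
    have h4 : cut n k ^ 2 ≤ 1 := by nlinarith
    have h5 : kap k ≤ κ := by
      rw [hκ, kap_eq hk, kap_eq hk0.ne']
      have c1 : ck1 (1 / ((n:ℝ) + 1)) ≤ ck1 k := by
        unfold ck1
        rw [Real.cosh_le_cosh, abs_mul, abs_mul]
        refine mul_le_mul_of_nonneg_left ?_ (abs_nonneg _)
        rw [abs_of_pos hk0]
        exact h.le
      have c2 := one_lt_ck1 hk0.ne'
      have c3 : 0 < ck1 (1 / ((n:ℝ) + 1)) - 1 := by linarith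
      have c4 : 0 < 2 * ck1 (1 / ((n:ℝ) + 1)) + 1 := by linarith
      have c5 : 0 ≤ ck1 k - 1 := by linarith
      apply one_div_le_one_div_of_le (by positivity)
      gcongr
    have h6 : 1 - 1 / (1 + 2 * κ) = 2 * κ / (1 + 2 * κ) := by
      field_simp
      ring
    rw [rs_prof n hk, h6]
    calc cut n k ^ 2 * (2 * kap k / (1 + 2 * kap k)) ≤ 1 * (2 * kap k / (1 + 2 * kap k)) := by gcongr
      _ ≤ 2 * κ / (1 + 2 * κ) := by
          rw [one_mul, div_le_div_iff₀ (by linarith) (by linarith)]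
          nlinarith

lemma rs_neg {c : ℝ → ℝ} (hc : ∀ k, c (-k) = c k) (k : ℝ) : rs c (-k) = rs c k := by
  unfold rs
  rw [hc, Uh_neg, Lh_neg]

lemma rs_continuous (n : ℕ) : Continuous (rs (prof n)) := by
  rw [continuous_iff_continuousAt]
  intro k
  by_cases hk : k = 0
  · have h1 : rs (prof n) =ᶠ[𝓝 k] fun _ => 0 := by
      rw [hk]
      have h2 : ∀ᶠ x : ℝ in 𝓝 0, |x| < 1 / ((n:ℝ) + 1) := by
        have h3 : Tendsto (fun x : ℝ => |x|) (𝓝 0) (𝓝 0) := by
          simpa using (continuous_abs.tendsto (0:ℝ))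
        exact h3.eventually (gt_mem_nhds (by positivity))
      filter_upwards [h2] with x hx
      unfold rs
      rw [prof_zero_small hx.le]
      simp
    exact continuousAt_const.congr h1.symm
  · unfold rs
    refine ContinuousAt.div ?_ ?_ (Um_pos hk).ne'
    · exact (((prof_smooth n).continuous.pow 2).const_mul 2).continuousAt
    · unfold Uh Lh ck1 sk
      have hne : k * Real.sinh (Real.pi / 2 * k) ≠ 0 := by
        have := ksk_pos hk
        unfold sk at this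
        exact this.ne'
      fun_prop (disch := exact hne)

/-- **R3**, the profile and the number: `-(1/2π) ∫ log (1 - s) = 4/3` up to `ε` -/
theorem exists_rs {ε : ℝ} (hε : 0 < ε) : ∃ (δ K η : ℝ) (c : ℝ → ℝ), 0 < δ ∧ δ < K ∧ 0 < η ∧
    ContDiff ℝ ((⊤ : ℕ∞) : WithTop ℕ∞) c ∧ (∀ k, 0 ≤ c k) ∧ (∀ k, c (-k) = c k) ∧ (∀ k, |k| ≤ δ → c k = 0) ∧
    (∀ k, K ≤ |k| → c k = 0) ∧ (∀ k, k ≠ 0 → c k ^ 2 ≤ Lh k) ∧ Continuous (rs c) ∧ (∀ k, rs c k ≤ 1 - η) ∧
    ∀ h : ℝ, 0 < h → K * h < Real.pi →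
      1 / (2 * Real.pi) * ∫ θ in (-Real.pi)..Real.pi, Real.log (1 - rs c (θ / h)) ≤ -(4 / 3 * (1 - ε) * h) := by
  have hpi := Real.pi_pos
  have h1 : -(4 * Real.pi / 3) < -(4 * Real.pi / 3) * (1 - ε) := by
    have : 0 < 4 * Real.pi / 3 := by positivity
    nlinarith
  obtain ⟨n, hn⟩ := (rs_limit.eventually (gt_mem_nhds h1)).exists
  obtain ⟨η, hη0, hη⟩ := rs_le n
  have hn0 : (0:ℝ) ≤ n := Nat.cast_nonneg n
  refine ⟨1 / (n + 1), n + 2, η, prof n, by positivity, ?_, hη0, prof_smooth n, prof_nonneg n, prof_neg n,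
    fun k hk => prof_zero_small hk, fun k hk => prof_zero_large hk, fun k hk => prof_sq_le n hk,
    rs_continuous n, hη, fun h hh hK => ?_⟩
  · rw [div_lt_iff₀ (by positivity)]
    nlinarith
  · have hc : ∀ k, Real.log (1 + 2 * (-(rs (prof n) k) / 2)) = Real.log (1 - rs (prof n) k) := by
      intro k
      congr 1
      ring
    have e1 := log_scale hh (fun k => -(rs (prof n) k) / 2)
    simp only [hc] at e1
    rw [e1, int_line hh (F := fun k => Real.log (1 - rs (prof n) k))]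
    · have hsym : ∫ k, Real.log (1 - rs (prof n) k) = 2 * ∫ k in Ioi (0:ℝ), Real.log (1 - rs (prof n) k) := by
        have h3 := integral_comp_abs (f := fun k => Real.log (1 - rs (prof n) k))
        rw [← h3]
        refine integral_congr_ae (Eventually.of_forall fun k => ?_)
        simp only
        rcases abs_choice k with h4 | h4
        · rw [h4]
        · rw [h4, rs_neg (prof_neg n)]
      rw [hsym]
      have h5 : h / (2 * Real.pi) * (2 * ∫ k in Ioi (0:ℝ), Real.log (1 - rs (prof n) k)) ≤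
          h / (2 * Real.pi) * (2 * (-(4 * Real.pi / 3) * (1 - ε))) := by
        gcongr
      refine h5.trans (le_of_eq ?_)
      field_simp
    · intro k hk
      have h6 : (n:ℝ) + 2 ≤ |k| := by
        have : (n:ℝ) + 2 ≤ Real.pi / h := by
          rw [le_div_iff₀ hh]
          exact hK.le
        linarith
      unfold rs
      rw [prof_zero_large h6]
      simp

/-- **R3, final form**: profile, grid step `h`, number of grid points `N`: gain `exp (-(2/3)(1-ε) N h)` -/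
theorem R3 {ε : ℝ} (hε : 0 < ε) : ∃ (δ K η : ℝ) (c : ℝ → ℝ), 0 < δ ∧ δ < K ∧ 0 < η ∧
    ContDiff ℝ ((⊤ : ℕ∞) : WithTop ℕ∞) c ∧ (∀ k, 0 ≤ c k) ∧ (∀ k, c (-k) = c k) ∧ (∀ k, |k| ≤ δ → c k = 0) ∧
    (∀ k, K ≤ |k| → c k = 0) ∧ (∀ k, k ≠ 0 → c k ^ 2 ≤ Lh k) ∧ Continuous (rs c) ∧ (∀ k, rs c k ≤ 1 - η) ∧
    ∀ h : ℝ, 0 < h → K * h < Real.pi → ∃ Cst : ℝ, ∀ (N : ℕ) (R : ℝ), 0 ≤ R → 2 * (N : ℝ) + 4 ≤ η * R ^ 2 →
      ∀ {Ω : Type*} [MeasurableSpace Ω] (μ : Measure Ω) [SFinite μ] (F : Fin N → Ω → ℝ) (Z₀ Z₁ e' : ℝ)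
        (l : (Fin N → ℝ) → ℝ), (∀ a, Measurable (F a)) → (∀ g, l (-g) = -l g) → 0 ≤ Z₀ → 0 ≤ Z₁ →
        ∫⁻ x, ENNReal.ofReal (Real.exp ((∑ a, F a x ^ 2) / 2)) ∂μ ≤ ENNReal.ofReal Z₀ →
        (∀ g : Fin N → ℝ, ∑ a, g a ^ 2 ≤ R ^ 2 →
          ENNReal.ofReal (Z₁ * Real.exp ((∑ a, ∑ b, g a * toep (fun θ => rs c (θ / h)) N a b * g b) / 2 +
            l g - e')) ≤ ∫⁻ x, ENNReal.ofReal (Real.exp (∑ a, g a * F a x)) ∂μ) →
        Z₁ ≤ Z₀ * Real.exp (e' - 2 / 3 * (1 - ε) * (N * h) + Cst) := by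
  obtain ⟨δ, K, η, c, hδ, hK, hη, hc1, hc2, hc3, hc4, hc5, hc6, hc7, hc8, hc9⟩ := exists_rs (half_pos hε)
  refine ⟨δ, K, η, c, hδ, hK, hη, hc1, hc2, hc3, hc4, hc5, hc6, hc7, hc8, fun h hh hKh => ?_⟩
  obtain ⟨Cst, hC⟩ := rev_toep (s := fun θ => rs c (θ / h)) (hc7.comp (continuous_id.div_const h))
    (fun θ => by simp only [neg_div]; exact rs_neg hc3 _) hη (fun θ => hc8 _) (e := 2 / 3 * ε * h) (by positivity)
  refine ⟨Cst, ?_⟩
  intro N R hR0 hR Ω _ μ _ F Z₀ Z₁ e' l hF hl hZ0 hZ1 hup hlow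
  refine (hC N R hR0 hR μ F Z₀ Z₁ e' l hF hl hZ0 hZ1 hup hlow).trans ?_
  have h1 := hc9 h hh hKh
  refine mul_le_mul_of_nonneg_left (Real.exp_le_exp.2 ?_) hZ0
  have hN : (0:ℝ) ≤ (N : ℝ) / 2 := by positivity
  have h2 := mul_le_mul_of_nonneg_left (add_le_add_left h1 (2 / 3 * ε * h)) hN
  have h3 : (N : ℝ) / 2 * (-(4 / 3 * (1 - ε / 2) * h) + 2 / 3 * ε * h) = -(2 / 3 * (1 - ε) * (N * h)) := by
    ring
  linarith

end NUE
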