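import Pool.Agent.NUE.PsiA
import Pool.Agent.NUE.Inst
import Pool.Agent.NUE.RevProf

/-!
# Gaussian algebra of the transport: `ψ`, the difference kernel, the Toeplitz form and the tails

`Ud u = V u + 2 log g u` is the kernel of the difference mode, `ev c = c / (Uh + 2 Lh)`.
`conv_Ud`: `Ud * ct (ev c) = ct c`.
`EE D D'`: the energy form.  `EE_grid`: the form of the grid functions is the Toeplitz form of `rs c`.
`psi_exact`: `- 2 ∫ D χ_g - EE D D = (1/2) g T g - EE (ψ_g' - D) (ψ_g' - D)`.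
`EE_le`: `|EE D D| ≤ C A²` if `(1+|t|)^4 |D| ≤ A`.
`psi_tail`: the case `D = (H ψ_g)'`.
-/

set_option autoImplicit false

open MeasureTheory Set Filter Topology NUMF

namespace NUE

noncomputable section

/-- difference kernel -/
def Ud (u : ℝ) : ℝ := V u + 2 * Real.log (g u)

lemma Ud_eq (u : ℝ) : Ud u = V u - 2 * lgm u + 2 * Real.log (g 0) := by
  unfold Ud lgm; ring

lemma V_even (t : ℝ) : V (-t) = V t := by
  unfold V
  rw [g_even]
  have : w (-t) = w t := by
    unfold w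
    rw [Real.sinh_neg, mul_neg, Real.cosh_neg, neg_sq]
  rw [this]

lemma Ud_even (t : ℝ) : Ud (-t) = Ud t := by
  unfold Ud
  rw [V_even, g_even]

lemma V_hf (k : ℝ) (hk : k ≠ 0) : ∫ t, V t * Real.cos (k * t) = Uh k := by
  rcases lt_or_gt_of_ne hk with h | h
  · have := (V_forward (k := -k) (by linarith)).2
    have e : ∫ t, V t * Real.cos (-k * t) = ∫ t, V t * Real.cos (k * t) := by
      refine integral_congr_ae (ae_of_all _ fun t => ?_)
      simp only [neg_mul, Real.cos_neg]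
    rw [e] at this
    rw [this, ← Uh_neg k]
    rfl
  · exact (V_forward h).2

/-- `c / U_-` -/
def ev (c : ℝ → ℝ) (k : ℝ) : ℝ := c k / (Uh k + 2 * Lh k)

/-- `c / (k U_-)` -/
def ev1 (c : ℝ → ℝ) (k : ℝ) : ℝ := c k / (k * (Uh k + 2 * Lh k))

lemma Um_smoothAt {k : ℝ} (hk : k ≠ 0) :
    ContDiffAt ℝ ((⊤ : ℕ∞) : WithTop ℕ∞) (fun k => Uh k + 2 * Lh k) k := by
  unfold Uh Lh ck1 sk
  have hd : ContDiffAt ℝ ((⊤ : ℕ∞) : WithTop ℕ∞) (fun k : ℝ => k * Real.sinh (Real.pi / 2 * k)) k := by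
    have : ContDiff ℝ ((⊤ : ℕ∞) : WithTop ℕ∞) fun k : ℝ => k * Real.sinh (Real.pi / 2 * k) := by fun_prop
    exact this.contDiffAt
  have hd0 : k * Real.sinh (Real.pi / 2 * k) ≠ 0 := (ksk_pos hk).ne'
  refine ContDiffAt.add (contDiffAt_const.mul (ContDiffAt.div ?_ hd hd0))
    (contDiffAt_const.mul (contDiffAt_const.mul (ContDiffAt.div ?_ hd hd0)))
  · have : ContDiff ℝ ((⊤ : ℕ∞) : WithTop ℕ∞) fun k : ℝ => (Real.cosh (l * k) - 1) *
      (2 * Real.cosh (l * k) - 1) * (2 * Real.cosh (l * k) + 1) ^ 2 := by fun_prop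
    exact this.contDiffAt
  · have : ContDiff ℝ ((⊤ : ℕ∞) : WithTop ℕ∞) fun k : ℝ => 2 * Real.cosh (l * k) - 1 := by fun_prop
    exact this.contDiffAt

/-- hypotheses on the profile -/
structure Prof (δ K : ℝ) (c : ℝ → ℝ) : Prop where
  dpos : 0 < δ
  smooth : ContDiff ℝ ((⊤ : ℕ∞) : WithTop ℕ∞) c
  even : ∀ k, c (-k) = c k
  small : ∀ k, |k| ≤ δ → c k = 0
  large : ∀ k, K ≤ |k| → c k = 0

variable {δ K : ℝ} {c : ℝ → ℝ}

lemma Prof.zero (hP : Prof δ K c) : c 0 = 0 := hP.small 0 (by simpa using hP.dpos.le)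

lemma Prof.large' (hP : Prof δ K c) : ∀ k, K < |k| → c k = 0 := fun k hk => hP.large k hk.le

lemma Prof.hcs (hP : Prof δ K c) {f : ℝ → ℝ} (hf : ∀ k, c k = 0 → f k = 0) : HasCompactSupport f := by
  refine HasCompactSupport.of_support_subset_isCompact (isCompact_Icc (a := -K) (b := K)) ?_
  intro k hk
  have : ¬ K < |k| := fun e => hk (hf k (hP.large' k e))
  push Not at this
  exact abs_le.1 this

lemma Prof.pf (hP : Prof δ K c) : Pf c := ⟨hP.smooth, hP.hcs fun _ h => h⟩

lemma Prof.smooth_div (hP : Prof δ K c) {f d : ℝ → ℝ} (hf : ∀ k, f k = c k / d k)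
    (hd : ∀ k, k ≠ 0 → ContDiffAt ℝ ((⊤ : ℕ∞) : WithTop ℕ∞) d k) (hd0 : ∀ k, k ≠ 0 → d k ≠ 0) :
    ContDiff ℝ ((⊤ : ℕ∞) : WithTop ℕ∞) f := by
  rw [contDiff_iff_contDiffAt]
  intro k
  by_cases hk : k = 0
  · have h1 : f =ᶠ[𝓝 k] fun _ => 0 := by
      rw [hk]
      have h2 : ∀ᶠ x : ℝ in 𝓝 0, |x| < δ := by
        have h3 : Tendsto (fun x : ℝ => |x|) (𝓝 0) (𝓝 0) := by
          simpa using (continuous_abs.tendsto (0:ℝ))
        exact h3.eventually (gt_mem_nhds hP.dpos)
      filter_upwards [h2] with x hx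
      rw [hf, hP.small x hx.le, zero_div]
    exact contDiffAt_const.congr_of_eventuallyEq h1
  · have h1 : f = fun k => c k / d k := funext hf
    rw [h1]
    exact hP.smooth.contDiffAt.div (hd k hk) (hd0 k hk)

lemma Prof.pf_ev (hP : Prof δ K c) : Pf (ev c) :=
  ⟨hP.smooth_div (fun _ => rfl) (fun _ h => Um_smoothAt h) (fun _ h => (Um_pos h).ne'),
    hP.hcs fun k h => by unfold ev; rw [h, zero_div]⟩

lemma Prof.pf_ev1 (hP : Prof δ K c) : Pf (ev1 c) :=
  ⟨hP.smooth_div (fun _ => rfl) (fun _ h => contDiffAt_id.mul (Um_smoothAt h))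
    (fun _ h => mul_ne_zero h (Um_pos h).ne'),
    hP.hcs fun k h => by unfold ev1; rw [h, zero_div]⟩

lemma Prof.ev_even (hP : Prof δ K c) (k : ℝ) : ev c (-k) = ev c k := by
  unfold ev
  rw [hP.even, Uh_neg, Lh_neg]

lemma Prof.ev_zero (hP : Prof δ K c) : ev c 0 = 0 := by
  unfold ev
  rw [hP.zero, zero_div]

lemma Prof.k_ev1 (hP : Prof δ K c) : (fun k => k * ev1 c k) = ev c := by
  funext k
  unfold ev1 ev
  by_cases hk : k = 0
  · rw [hk, hP.zero]; simp
  · have := Um_pos hk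
    field_simp

lemma Prof.ev_mul (hP : Prof δ K c) (k : ℝ) : ev c k * Uh k + 2 * (ev c k * Lh k) = c k := by
  unfold ev
  by_cases hk : k = 0
  · rw [hk, hP.zero]; simp
  · have := Um_pos hk
    field_simp

/-- `U_- * F^{-1}[c/U_-] = F^{-1} c` -/
theorem conv_Ud (hP : Prof δ K c) (t : ℝ) :
    (Integrable fun u => ct (ev c) u * Ud (t - u)) ∧ ∫ u, ct (ev c) u * Ud (t - u) = ct c t := by
  have h1 := conv_even hP.pf_ev V_integral.1 V_even V_hf hP.ev_zero t
  have h2 := conv_lg hP.pf_ev hP.ev_even hP.ev_zero Lh_nonneg Lh_neg Lh_meas lgm_int lgm_eq lgm_le t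
  obtain ⟨M, hM⟩ : ∃ M, ∀ u, |ct (ev c) u| ≤ M := ⟨_, fun u => abs_ct_le hP.pf_ev.int u⟩
  have i1 : Integrable fun u => ct (ev c) u * V (t - u) := by
    have := (V_integral.1.comp_sub_left t).bdd_mul (c := M) (ct_cont hP.pf_ev.int).aestronglyMeasurable
      (ae_of_all _ fun u => by rw [Real.norm_eq_abs]; exact hM u)
    exact this
  have i2 : Integrable fun u => ct (ev c) u * lgm (t - u) := by
    have e3 : Integrable fun u : ℝ => (2 * (1 + |t|)) * ((1 + |u|) ^ 2 * |ct (ev c) u|) :=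
      (ct_wint hP.pf_ev).const_mul _
    refine Integrable.mono' e3 ?_ (ae_of_all _ fun u => ?_)
    · exact ((ct_cont hP.pf_ev.int).mul (lgm_cont.comp (by fun_prop : Continuous fun u : ℝ => t - u))).aestronglyMeasurable
    · have h0 := lg_nonneg Lh_nonneg lgm_eq (t - u)
      rw [norm_mul, Real.norm_eq_abs, Real.norm_of_nonneg h0]
      have e4 : lgm (t - u) ≤ 2 * (1 + |t|) * (1 + |u|) ^ 2 := by
        refine (lgm_le _).trans ?_
        have h1 := abs_sub t u
        have h2 := abs_nonneg t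
        have h3 := abs_nonneg u
        nlinarith [mul_nonneg h2 h3, mul_nonneg h2 (mul_nonneg h3 h3), mul_nonneg h3 h3]
      calc |ct (ev c) u| * lgm (t - u) ≤ |ct (ev c) u| * (2 * (1 + |t|) * (1 + |u|) ^ 2) :=
            mul_le_mul_of_nonneg_left e4 (abs_nonneg _)
        _ = _ := by ring
  have i3 : Integrable fun u => ct (ev c) u * (2 * Real.log (g 0)) := (ct_int hP.pf_ev).mul_const _
  have hU : ∀ u, ct (ev c) u * Ud (t - u) = ct (ev c) u * V (t - u) - 2 * (ct (ev c) u * lgm (t - u)) +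
      ct (ev c) u * (2 * Real.log (g 0)) := by
    intro u
    rw [Ud_eq]
    ring
  have h0 : ∫ u, ct (ev c) u = 0 := by
    have := inv_cos hP.pf_ev hP.ev_even 0
    rw [hP.ev_zero] at this
    simpa using this
  simp_rw [hU]
  refine ⟨(i1.sub (i2.const_mul 2)).add i3, ?_⟩
  have e1 := integral_add (i1.sub (i2.const_mul 2)) i3
  have e2 := integral_sub i1 (i2.const_mul 2)
  simp only [Pi.sub_apply] at e1
  rw [e1, e2, integral_const_mul, integral_mul_const, h0, h1, h2]
  have hc1 : ∀ s, ct c s = ct (fun k => ev c k * Uh k) s + 2 * ct (fun k => ev c k * Lh k) s := by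
    intro s
    have j1 : Integrable fun k => ev c k * Lh k := by
      refine Continuous.integrable_of_hasCompactSupport ?_ (hP.hcs fun k h => by unfold ev; rw [h]; simp)
      have : ContDiff ℝ ((⊤ : ℕ∞) : WithTop ℕ∞) fun k => ev c k * Lh k := by
        refine hP.smooth_div (d := fun k => (Uh k + 2 * Lh k) / Lh k) (fun k => ?_) (fun k hk => ?_)
          (fun k hk => (div_pos (Um_pos hk) (Lh_pos hk)).ne')
        · unfold ev
          by_cases hk : k = 0
          · rw [hk, hP.zero]; simp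
          · have := Um_pos hk
            have := Lh_pos hk
            field_simp
        · refine (Um_smoothAt hk).div ?_ (Lh_pos hk).ne'
          unfold Lh ck1 sk
          have hd : ContDiffAt ℝ ((⊤ : ℕ∞) : WithTop ℕ∞) (fun k : ℝ => k * Real.sinh (Real.pi / 2 * k)) k := by
            have : ContDiff ℝ ((⊤ : ℕ∞) : WithTop ℕ∞) fun k : ℝ => k * Real.sinh (Real.pi / 2 * k) := by fun_prop
            exact this.contDiffAt
          refine contDiffAt_const.mul (ContDiffAt.div ?_ hd (ksk_pos hk).ne')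
          have : ContDiff ℝ ((⊤ : ℕ∞) : WithTop ℕ∞) fun k : ℝ => 2 * Real.cosh (l * k) - 1 := by fun_prop
          exact this.contDiffAt
      exact this.continuous
    have j2 : Integrable fun k => ev c k * Uh k := by
      refine (hP.pf.int.sub (j1.const_mul 2)).congr (ae_of_all _ fun k => ?_)
      simp only [Pi.sub_apply]
      rw [← hP.ev_mul k]
      ring
    unfold ct
    rw [← integral_const_mul, ← integral_add (ct_integrable j2 s) ((ct_integrable j1 s).const_mul 2)]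
    refine integral_congr_ae (ae_of_all _ fun k => ?_)
    simp only
    rw [← hP.ev_mul k]
    ring
  rw [hc1]
  ring

end

end NUE
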