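import Pool.Agent.NUE.Rev

/-!
# Bessel inequality for general real charge distributions

`besselM_le`: charges `q` on a measure space with positions `s`, neutral.
`bessel_tau`: discrete charges plus a density.
`br2_tau`: the bracket with a real density `τ` of mass `p - n`.
-/

set_option autoImplicit false

open MeasureTheory Set Filter Topology

namespace NUE

noncomputable section

variable {α : Type*} [MeasurableSpace α] {μ : Measure α}

/-- structure factor -/
def sg (μ : Measure α) (q s : α → ℝ) (k : ℝ) : ℂ :=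
  ∫ a, (q a : ℂ) * Complex.exp (((k * s a : ℝ) : ℂ) * Complex.I) ∂μ

lemma sg_int {q s : α → ℝ} (hq : Integrable q μ) (hs : Measurable s) (k : ℝ) :
    Integrable (fun a => (q a : ℂ) * Complex.exp (((k * s a : ℝ) : ℂ) * Complex.I)) μ := by
  refine Integrable.mono' hq.norm ?_ (ae_of_all _ fun a => ?_)
  · refine (hq.ofReal (𝕜 := ℂ)).aestronglyMeasurable.mul ?_
    refine Measurable.aestronglyMeasurable ?_
    exact Complex.measurable_exp.comp ((Complex.measurable_ofReal.comp (hs.const_mul k)).mul_const _)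
  · rw [norm_mul, Complex.norm_exp_ofReal_mul_I, mul_one, Complex.norm_real]

lemma sg_cont {q s : α → ℝ} (hq : Integrable q μ) (hs : Measurable s) : Continuous (sg μ q s) := by
  unfold sg
  refine continuous_of_dominated (bound := fun a => ‖q a‖) (fun k => (sg_int hq hs k).aestronglyMeasurable)
    (fun k => ae_of_all _ fun a => ?_) hq.norm (ae_of_all _ fun a => by fun_prop)
  rw [norm_mul, Complex.norm_exp_ofReal_mul_I, mul_one, Complex.norm_real]

/-- Bessel inequality on the grid `h ℤ` -/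
theorem besselM [SFinite μ] {c : ℝ → ℝ} (hc : Continuous c) {K h : ℝ} (hh : 0 < h)
    (hK : K * h < Real.pi) (hcs : ∀ k, K < |k| → c k = 0) (La : Finset ℤ) {q s : α → ℝ}
    (hq : Integrable q μ) (hs : Measurable s) :
    ∑ l ∈ La, (∫ a, q a * chi c h (s a - l * h) ∂μ) ^ 2 ≤
      1 / (2 * Real.pi) * ∫ k, c k ^ 2 * ‖sg μ q s k‖ ^ 2 := by
  have hpi := Real.pi_pos
  set b : ℝ := Real.pi / h with hb
  have hb0 : 0 < b := by positivity
  have hab : -b < b := by linarith
  have hKb : K < b := by rw [hb, lt_div_iff₀ hh]; exact hK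
  have hba : b - -b = 2 * Real.pi / h := by rw [hb]; ring
  set F : ℝ → ℂ := fun k => (c k : ℂ) * sg μ q s k with hF
  have hFc : Continuous F := by
    have := sg_cont hq hs
    fun_prop
  have hsupp : ∀ f : ℝ → ℝ, Function.support (fun k => c k * f k) ⊆ Ioc (-b) b := by
    intro f k hk
    have h1 : c k ≠ 0 := fun e => hk (by simp [e])
    have h2 : ¬ K < |k| := fun e => h1 (hcs k e)
    push Not at h2
    have h3 := abs_lt.1 (lt_of_le_of_lt h2 hKb)
    exact ⟨h3.1, h3.2.le⟩
  have hmem : MemLp F 2 (volume.restrict (Ioc (-b) b)) := by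
    obtain ⟨C, hC⟩ := (isCompact_Icc : IsCompact (Icc (-b) b)).exists_bound_of_continuousOn hFc.continuousOn
    refine MemLp.of_bound hFc.aestronglyMeasurable C ?_
    filter_upwards [ae_restrict_mem measurableSet_Ioc] with x hx
    exact hC x ⟨hx.1.le, hx.2⟩
  have hsum := hasSum_sq_fourierCoeffOn hab hmem
  have hn : ∀ k, ‖F k‖ ^ 2 = c k ^ 2 * ‖sg μ q s k‖ ^ 2 := by
    intro k
    rw [hF]
    simp only
    rw [norm_mul, mul_pow, Complex.norm_real, Real.norm_eq_abs, sq_abs]
  have hcoef : ∀ l : ℤ, (fourierCoeffOn hab F l).re = √h * ∫ a, q a * chi c h (s a - l * h) ∂μ := by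
    intro l
    rw [fourierCoeffOn_eq_integral]
    have e1 : ∀ x : ℝ, ((fourier (-l)) (x : AddCircle (b - -b)) : ℂ) • F x =
        ∫ a, (q a : ℂ) * ((c x : ℂ) * Complex.exp (((x * (s a - l * h) : ℝ) : ℂ) * Complex.I)) ∂μ := by
      intro x
      rw [fourier_coe_apply, hF, hba]
      simp only [smul_eq_mul]
      unfold sg
      rw [← integral_const_mul, ← integral_const_mul]
      refine integral_congr_ae (ae_of_all _ fun a => ?_)
      simp only
      have : Complex.exp (2 * Real.pi * Complex.I * ((-l : ℤ) : ℂ) * x / ((2 * Real.pi / h : ℝ) : ℂ)) *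
          Complex.exp (((x * s a : ℝ) : ℂ) * Complex.I) =
          Complex.exp (((x * (s a - l * h) : ℝ) : ℂ) * Complex.I) := by
        rw [← Complex.exp_add]
        congr 1
        have hpc : (Real.pi : ℂ) ≠ 0 := by exact_mod_cast hpi.ne'
        have hhc : (h : ℂ) ≠ 0 := by exact_mod_cast hh.ne'
        push_cast
        field_simp
        ring
      rw [← this]
      ring
    have hmeas2 : Integrable (Function.uncurry fun (x : ℝ) (a : α) => (q a : ℂ) * ((c x : ℂ) *
        Complex.exp (((x * (s a - l * h) : ℝ) : ℂ) * Complex.I)))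
        ((volume.restrict (Ioc (-b) b)).prod μ) := by
      have h1 : Integrable (fun z : ℝ × α => c z.1 * q z.2) ((volume.restrict (Ioc (-b) b)).prod μ) :=
        (hc.integrableOn_Ioc (a := -b) (b := b)).mul_prod hq
      refine Integrable.mono' h1.norm ?_ (ae_of_all _ fun z => ?_)
      · have h2 : AEStronglyMeasurable (fun z : ℝ × α => ((c z.1 * q z.2 : ℝ) : ℂ))
            ((volume.restrict (Ioc (-b) b)).prod μ) := (h1.ofReal (𝕜 := ℂ)).aestronglyMeasurable
        have h3 : Measurable fun z : ℝ × α => Complex.exp (((z.1 * (s z.2 - l * h) : ℝ) : ℂ) * Complex.I) := by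
          refine Complex.measurable_exp.comp ((Complex.measurable_ofReal.comp ?_).mul_const _)
          exact measurable_fst.mul ((hs.comp measurable_snd).sub_const _)
        refine (h2.mul h3.aestronglyMeasurable).congr (ae_of_all _ fun z => ?_)
        simp only [Function.uncurry, Pi.mul_apply]
        push_cast
        ring
      · simp only [Function.uncurry]
        rw [norm_mul, norm_mul, Complex.norm_exp_ofReal_mul_I, mul_one, Complex.norm_real,
          Complex.norm_real, norm_mul, mul_comm]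
    rw [intervalIntegral.integral_congr (fun x _ => e1 x), intervalIntegral.integral_of_le hab.le,
      integral_integral_swap hmeas2]
    have e2 : ∀ a, (∫ x in Ioc (-b) b, (q a : ℂ) * ((c x : ℂ) *
          Complex.exp (((x * (s a - l * h) : ℝ) : ℂ) * Complex.I))).re =
          q a * ∫ x, c x * Real.cos (x * (s a - l * h)) := by
      intro a
      rw [integral_const_mul, Complex.re_ofReal_mul]
      congr 1
      have e3 := (Complex.reCLM).integral_comp_comm (μ := volume.restrict (Ioc (-b) b))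
        (φ := fun x : ℝ => (c x : ℂ) * Complex.exp (((x * (s a - l * h) : ℝ) : ℂ) * Complex.I))
        (by
          have : Continuous fun x : ℝ => (c x : ℂ) * Complex.exp (((x * (s a - l * h) : ℝ) : ℂ) * Complex.I) := by
            fun_prop
          exact this.integrableOn_Ioc)
      simp only [Complex.reCLM_apply] at e3
      rw [← e3]
      have e4 : ∀ x : ℝ, ((c x : ℂ) * Complex.exp (((x * (s a - l * h) : ℝ) : ℂ) * Complex.I)).re =
          c x * Real.cos (x * (s a - l * h)) := by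
        intro x
        rw [Complex.re_ofReal_mul, Complex.exp_ofReal_mul_I_re]
      simp_rw [e4]
      rw [← intervalIntegral.integral_of_le hab.le]
      exact intervalIntegral.integral_eq_integral_of_support_subset (hsupp _)
    have e5 := (Complex.reCLM).integral_comp_comm (μ := μ)
        (φ := fun a => ∫ x in Ioc (-b) b, (q a : ℂ) * ((c x : ℂ) *
          Complex.exp (((x * (s a - l * h) : ℝ) : ℂ) * Complex.I))) hmeas2.integral_prod_right
    simp only [Complex.reCLM_apply] at e5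
    rw [Complex.smul_re, ← e5]
    simp_rw [e2]
    rw [smul_eq_mul, hba, ← integral_const_mul, ← integral_const_mul]
    refine integral_congr_ae (ae_of_all _ fun a => ?_)
    simp only
    unfold chi
    have hsq : √h * √h = h := Real.mul_self_sqrt hh.le
    generalize (∫ x, c x * Real.cos (x * (s a - l * h))) = X
    rw [show √h * (q a * (√h / (2 * Real.pi) * X)) = (√h * √h) * (q a * X / (2 * Real.pi)) by ring,
      hsq]
    field_simp
  have hle : ∀ l : ℤ, (∫ a, q a * chi c h (s a - l * h) ∂μ) ^ 2 ≤ h⁻¹ * ‖fourierCoeffOn hab F l‖ ^ 2 := by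
    intro l
    have h1 : (fourierCoeffOn hab F l).re ^ 2 ≤ ‖fourierCoeffOn hab F l‖ ^ 2 := by
      rw [← sq_abs]
      exact pow_le_pow_left₀ (abs_nonneg _) (Complex.abs_re_le_norm _) 2
    rw [hcoef, mul_pow, Real.sq_sqrt hh.le] at h1
    rw [inv_mul_eq_div, le_div_iff₀ hh]
    linarith
  calc ∑ l ∈ La, (∫ a, q a * chi c h (s a - l * h) ∂μ) ^ 2
      ≤ ∑ l ∈ La, h⁻¹ * ‖fourierCoeffOn hab F l‖ ^ 2 := Finset.sum_le_sum fun l _ => hle l
    _ = h⁻¹ * ∑ l ∈ La, ‖fourierCoeffOn hab F l‖ ^ 2 := by rw [Finset.mul_sum]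
    _ ≤ h⁻¹ * ((b - -b)⁻¹ • ∫ x in (-b)..b, ‖F x‖ ^ 2) := by
        refine mul_le_mul_of_nonneg_left ?_ (by positivity)
        exact hsum.summable.sum_le_tsum La (fun _ _ => by positivity) |>.trans_eq hsum.tsum_eq
    _ = 1 / (2 * Real.pi) * ∫ k, c k ^ 2 * ‖sg μ q s k‖ ^ 2 := by
        simp_rw [hn, smul_eq_mul]
        rw [intervalIntegral.integral_eq_integral_of_support_subset, hba]
        · field_simp
        · have := hsupp (fun k => c k * ‖sg μ q s k‖ ^ 2)
          intro k hk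
          apply this
          intro e
          apply hk
          simp only at e ⊢
          rw [← e]
          ring

/-- the structure factor of a neutral distribution -/
lemma sg_neutral [SFinite μ] {q s : α → ℝ} (hq : Integrable q μ) (hs : Measurable s)
    (h0 : ∫ a, q a ∂μ = 0) (k : ℝ) :
    ‖sg μ q s k‖ ^ 2 = - ∫ p : α × α, q p.1 * q p.2 * (1 - Real.cos (k * (s p.1 - s p.2))) ∂(μ.prod μ) := by
  have hqq : Integrable (fun p : α × α => q p.1 * q p.2) (μ.prod μ) := hq.mul_prod hq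
  have hm : Measurable fun p : α × α => Real.cos (k * (s p.1 - s p.2)) :=
    Real.measurable_cos.comp (((hs.comp measurable_fst).sub (hs.comp measurable_snd)).const_mul k)
  have hqc : Integrable (fun p : α × α => q p.1 * q p.2 * Real.cos (k * (s p.1 - s p.2))) (μ.prod μ) := by
    refine Integrable.mul_bdd (c := 1) hqq hm.aestronglyMeasurable (ae_of_all _ fun p => ?_)
    rw [Real.norm_eq_abs]
    exact Real.abs_cos_le_one _
  have h1 : ∫ p : α × α, q p.1 * q p.2 * (1 - Real.cos (k * (s p.1 - s p.2))) ∂(μ.prod μ) =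
      ∫ p : α × α, q p.1 * q p.2 ∂(μ.prod μ) -
      ∫ p : α × α, q p.1 * q p.2 * Real.cos (k * (s p.1 - s p.2)) ∂(μ.prod μ) := by
    rw [← integral_sub hqq hqc]
    refine integral_congr_ae (ae_of_all _ fun p => ?_)
    simp only
    ring
  rw [h1, integral_prod_mul, h0, zero_mul, zero_sub, neg_neg]
  have h2 : ((‖sg μ q s k‖ ^ 2 : ℝ) : ℂ) = sg μ q s k * (starRingEnd ℂ) (sg μ q s k) := by
    rw [Complex.mul_conj, Complex.normSq_eq_norm_sq]
  have h3 : sg μ q s k * (starRingEnd ℂ) (sg μ q s k) = ∫ p : α × α,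
      ((q p.1 : ℂ) * Complex.exp (((k * s p.1 : ℝ) : ℂ) * Complex.I)) *
      ((q p.2 : ℂ) * Complex.exp (((-(k * s p.2) : ℝ) : ℂ) * Complex.I)) ∂(μ.prod μ) := by
    rw [integral_prod_mul (fun a => (q a : ℂ) * Complex.exp (((k * s a : ℝ) : ℂ) * Complex.I))
      (fun a => (q a : ℂ) * Complex.exp (((-(k * s a) : ℝ) : ℂ) * Complex.I))]
    congr 1
    unfold sg
    rw [← integral_conj]
    refine integral_congr_ae (ae_of_all _ fun a => ?_)
    simp only [map_mul, Complex.conj_ofReal]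
    congr 1
    rw [← Complex.exp_conj]
    congr 1
    simp
  have hi : Integrable (fun p : α × α => ((q p.1 : ℂ) * Complex.exp (((k * s p.1 : ℝ) : ℂ) * Complex.I)) *
      ((q p.2 : ℂ) * Complex.exp (((-(k * s p.2) : ℝ) : ℂ) * Complex.I))) (μ.prod μ) := by
    have h5 := sg_int hq hs (-k)
    have h6 := (sg_int hq hs k).mul_prod h5
    refine h6.congr (ae_of_all _ fun p => ?_)
    simp only [neg_mul]
  have h4 := (Complex.reCLM).integral_comp_comm (μ := μ.prod μ) hi
  simp only [Complex.reCLM_apply] at h4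
  have h7 : ‖sg μ q s k‖ ^ 2 = (((‖sg μ q s k‖ ^ 2 : ℝ) : ℂ)).re := (Complex.ofReal_re _).symm
  rw [h7, h2, h3, ← h4]
  refine integral_congr_ae (ae_of_all _ fun p => ?_)
  simp only
  rw [show ((q p.1 : ℂ) * Complex.exp (((k * s p.1 : ℝ) : ℂ) * Complex.I)) *
      ((q p.2 : ℂ) * Complex.exp (((-(k * s p.2) : ℝ) : ℂ) * Complex.I)) =
      ((q p.1 * q p.2 : ℝ) : ℂ) * (Complex.exp (((k * s p.1 : ℝ) : ℂ) * Complex.I) *
      Complex.exp (((-(k * s p.2) : ℝ) : ℂ) * Complex.I)) by push_cast; ring,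
    ← Complex.exp_add, ← add_mul, ← Complex.ofReal_add, Complex.re_ofReal_mul,
    Complex.exp_ofReal_mul_I_re]
  congr 2
  ring

lemma lg_nonneg {Lh lg : ℝ → ℝ} (hL0 : ∀ k, 0 < k → 0 ≤ Lh k)
    (hlg : ∀ t, lg t = 1 / Real.pi * ∫ k in Ioi (0:ℝ), (1 - Real.cos (k * t)) * Lh k) (t : ℝ) :
    0 ≤ lg t := by
  have hpi := Real.pi_pos
  rw [hlg]
  refine mul_nonneg (by positivity) (setIntegral_nonneg measurableSet_Ioi fun k hk => ?_)
  have := Real.cos_le_one (k * t)
  exact mul_nonneg (by linarith) (hL0 k hk)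

/-- Integrability used in the exchange of integrals. -/
lemma phi_int [SFinite μ] {Lh lg : ℝ → ℝ} (hL0 : ∀ k, 0 < k → 0 ≤ Lh k) (hLm : Measurable Lh)
    (hint : ∀ t, IntegrableOn (fun k => (1 - Real.cos (k * t)) * Lh k) (Ioi 0))
    (hlg : ∀ t, lg t = 1 / Real.pi * ∫ k in Ioi (0:ℝ), (1 - Real.cos (k * t)) * Lh k)
    {C : ℝ} (hlb : ∀ t, lg t ≤ C * (1 + |t|)) {q s : α → ℝ} (hq : Integrable q μ) (hs : Measurable s)
    (hq1 : Integrable (fun a => q a * s a) μ) :
    Integrable (fun p : α × α => q p.1 * q p.2 * lg (s p.1 - s p.2)) (μ.prod μ) ∧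
    Integrable (Function.uncurry fun (p : α × α) (k : ℝ) => q p.1 * q p.2 *
      ((1 - Real.cos (k * (s p.1 - s p.2))) * Lh k)) ((μ.prod μ).prod (volume.restrict (Ioi (0:ℝ)))) := by
  have hpi := Real.pi_pos
  have hlgp := lg_nonneg hL0 hlg
  have hC : 0 ≤ C := by
    have := (hlgp 0).trans (hlb 0)
    simpa using this
  set Φ : (α × α) → ℝ → ℝ := fun p k => q p.1 * q p.2 * ((1 - Real.cos (k * (s p.1 - s p.2))) * Lh k)
    with hΦ
  have hdm : Measurable fun p : α × α => s p.1 - s p.2 :=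
    (hs.comp measurable_fst).sub (hs.comp measurable_snd)
  have hqq : Integrable (fun p : α × α => q p.1 * q p.2) (μ.prod μ) := hq.mul_prod hq
  have hmeas : AEStronglyMeasurable (Function.uncurry Φ) ((μ.prod μ).prod (volume.restrict (Ioi (0:ℝ)))) := by
    have e1 : AEStronglyMeasurable (fun z : (α × α) × ℝ => q z.1.1 * q z.1.2)
        ((μ.prod μ).prod (volume.restrict (Ioi (0:ℝ)))) := hqq.aestronglyMeasurable.comp_fst
    have e2 : Measurable fun z : (α × α) × ℝ => (1 - Real.cos (z.2 * (s z.1.1 - s z.1.2))) * Lh z.2 := by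
      refine Measurable.mul (Measurable.const_sub ?_ 1) (hLm.comp measurable_snd)
      exact Real.measurable_cos.comp (measurable_snd.mul (hdm.comp measurable_fst))
    exact e1.mul e2.aestronglyMeasurable
  have hΦi : Integrable (Function.uncurry Φ) ((μ.prod μ).prod (volume.restrict (Ioi (0:ℝ)))) := by
    rw [integrable_prod_iff hmeas]
    refine ⟨ae_of_all _ fun p => ?_, ?_⟩
    · exact (hint (s p.1 - s p.2)).const_mul (q p.1 * q p.2)
    have e1 : ∀ p : α × α, ∫ k in Ioi (0:ℝ), ‖Function.uncurry Φ (p, k)‖ =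
        ‖q p.1 * q p.2‖ * (Real.pi * lg (s p.1 - s p.2)) := by
      intro p
      have e2 : ∀ k ∈ Ioi (0:ℝ), ‖Function.uncurry Φ (p, k)‖ =
          ‖q p.1 * q p.2‖ * ((1 - Real.cos (k * (s p.1 - s p.2))) * Lh k) := by
        intro k hk
        simp only [Function.uncurry, hΦ]
        have := Real.cos_le_one (k * (s p.1 - s p.2))
        rw [norm_mul, Real.norm_of_nonneg (mul_nonneg (by linarith : 0 ≤ 1 - Real.cos (k * (s p.1 - s p.2)))
          (hL0 k hk))]
      rw [setIntegral_congr_fun measurableSet_Ioi e2, integral_const_mul, hlg]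
      congr 1
      generalize (∫ k in Ioi (0:ℝ), (1 - Real.cos (k * (s p.1 - s p.2))) * Lh k) = X
      field_simp
    simp_rw [e1]
    have e3 : Integrable (fun p : α × α => ‖q p.1 * q p.2‖ * (Real.pi * (C * (1 + (|s p.1| + |s p.2|))))) (μ.prod μ) := by
      have f1 : Integrable (fun p : α × α => |q p.1 * s p.1| * |q p.2|) (μ.prod μ) := hq1.abs.mul_prod hq.abs
      have f2 : Integrable (fun p : α × α => |q p.1| * |q p.2 * s p.2|) (μ.prod μ) := hq.abs.mul_prod hq1.abs
      have f3 : Integrable (fun p : α × α => |q p.1| * |q p.2|) (μ.prod μ) := hq.abs.mul_prod hq.abs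
      refine ((f3.add (f1.add f2)).const_mul (Real.pi * C)).congr (ae_of_all _ fun p => ?_)
      simp only [Pi.add_apply, Real.norm_eq_abs, abs_mul]
      ring
    have e4 : ∀ p : α × α, ‖‖q p.1 * q p.2‖ * (Real.pi * lg (s p.1 - s p.2))‖ ≤
        ‖q p.1 * q p.2‖ * (Real.pi * (C * (1 + (|s p.1| + |s p.2|)))) := by
      intro p
      rw [norm_mul, norm_norm, norm_mul Real.pi, Real.norm_of_nonneg hpi.le, Real.norm_of_nonneg (hlgp _)]
      refine mul_le_mul_of_nonneg_left (mul_le_mul_of_nonneg_left ((hlb _).trans ?_) hpi.le) (norm_nonneg _)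
      refine mul_le_mul_of_nonneg_left ?_ hC
      have := abs_sub (s p.1) (s p.2)
      linarith
    refine Integrable.mono' e3 ?_ (ae_of_all _ e4)
    have e5 := hmeas.norm.integral_prod_right'
    refine e5.congr (ae_of_all _ fun p => ?_)
    simp only
    exact e1 p
  refine ⟨?_, hΦi⟩
  have := (hΦi.integral_prod_left).const_mul (1 / Real.pi)
  refine this.congr (ae_of_all _ fun p => ?_)
  simp only [Function.uncurry, hΦ]
  rw [integral_const_mul, hlg]
  ring

/-- Bessel inequality for a neutral distribution in terms of the pair potential. -/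
theorem besselM_le [SFinite μ] {c : ℝ → ℝ} (hc : Continuous c) (hce : ∀ k, c (-k) = c k)
    {K h : ℝ} (hh : 0 < h) (hK : K * h < Real.pi) (hcs : ∀ k, K < |k| → c k = 0)
    {Lh lg : ℝ → ℝ} (hL : ∀ k, 0 < k → c k ^ 2 ≤ Lh k) (hLm : Measurable Lh)
    (hint : ∀ t, IntegrableOn (fun k => (1 - Real.cos (k * t)) * Lh k) (Ioi 0))
    (hlg : ∀ t, lg t = 1 / Real.pi * ∫ k in Ioi (0:ℝ), (1 - Real.cos (k * t)) * Lh k)
    {C : ℝ} (hlb : ∀ t, lg t ≤ C * (1 + |t|))
    (La : Finset ℤ) (a0 : ℝ) {q s : α → ℝ} (hq : Integrable q μ) (hs : Measurable s)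
    (hq1 : Integrable (fun a => q a * s a) μ) (h0 : ∫ a, q a ∂μ = 0) :
    ∑ l ∈ La, (∫ a, q a * chi c h (s a - (a0 + l * h)) ∂μ) ^ 2 ≤
      - ∫ p : α × α, q p.1 * q p.2 * lg (s p.1 - s p.2) ∂(μ.prod μ) := by
  have hpi := Real.pi_pos
  have hL0 : ∀ k, 0 < k → 0 ≤ Lh k := fun k hk => (sq_nonneg _).trans (hL k hk)
  set s' : α → ℝ := fun a => s a - a0 with hs'
  have hs'm : Measurable s' := hs.sub_const _
  have h1 := besselM hc hh hK hcs La hq hs'm
  have hsg : ∀ k : ℝ, ‖sg μ q s' (-k)‖ = ‖sg μ q s' k‖ := by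
    intro k
    rw [← Complex.norm_conj (sg μ q s' k)]
    congr 1
    unfold sg
    rw [← integral_conj]
    refine integral_congr_ae (ae_of_all _ fun a => ?_)
    simp only [map_mul, Complex.conj_ofReal]
    congr 1
    rw [← Complex.exp_conj]
    congr 1
    simp
  have h2 : ∀ k : ℝ, c k ^ 2 * ‖sg μ q s' k‖ ^ 2 = (fun x => c x ^ 2 * ‖sg μ q s' x‖ ^ 2) |k| := by
    intro k
    rcases abs_cases k with ⟨h, _⟩ | ⟨h, _⟩
    · simp only [h]
    · simp only [h, hce, hsg]
  have h3 : ∫ k, c k ^ 2 * ‖sg μ q s' k‖ ^ 2 = 2 * ∫ k in Ioi (0:ℝ), c k ^ 2 * ‖sg μ q s' k‖ ^ 2 := by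
    rw [← integral_comp_abs (f := fun x => c x ^ 2 * ‖sg μ q s' x‖ ^ 2)]
    exact integral_congr_ae (ae_of_all _ h2)
  -- Fubini
  have hD : ∀ p : α × α, s' p.1 - s' p.2 = s p.1 - s p.2 := by
    intro p
    rw [hs']
    simp only
    ring
  set Φ : (α × α) → ℝ → ℝ := fun p k => q p.1 * q p.2 * ((1 - Real.cos (k * (s p.1 - s p.2))) * Lh k)
    with hΦ
  have hlgm := phi_int hL0 hLm hint hlg hlb hq hs hq1
  have hLs : ∀ k, Lh k * ‖sg μ q s' k‖ ^ 2 = - ∫ p, Φ p k ∂(μ.prod μ) := by
    intro k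
    rw [sg_neutral hq hs'm h0, mul_neg, ← integral_const_mul]
    congr 1
    refine integral_congr_ae (ae_of_all _ fun p => ?_)
    simp only [hΦ, hD]
    ring
  have hiL : IntegrableOn (fun k => Lh k * ‖sg μ q s' k‖ ^ 2) (Ioi 0) := by
    simp_rw [hLs]
    exact (hlgm.2.integral_prod_right).neg
  have h4 : ∫ k in Ioi (0:ℝ), c k ^ 2 * ‖sg μ q s' k‖ ^ 2 ≤ ∫ k in Ioi (0:ℝ), Lh k * ‖sg μ q s' k‖ ^ 2 := by
    refine setIntegral_mono_on ?_ hiL measurableSet_Ioi fun k hk =>
      mul_le_mul_of_nonneg_right (hL k hk) (by positivity)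
    have hcc : HasCompactSupport fun k => c k ^ 2 * ‖sg μ q s' k‖ ^ 2 := by
      refine HasCompactSupport.of_support_subset_isCompact (isCompact_Icc (a := -K) (b := K)) ?_
      intro k hk
      have : ¬ K < |k| := fun e => hk (by simp [hcs k e])
      push Not at this
      exact abs_le.1 this
    have hcont : Continuous fun k => c k ^ 2 * ‖sg μ q s' k‖ ^ 2 := by
      have := sg_cont hq hs'm
      fun_prop
    exact (hcont.integrable_of_hasCompactSupport hcc).integrableOn
  have h5 : ∫ k in Ioi (0:ℝ), Lh k * ‖sg μ q s' k‖ ^ 2 =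
      - (Real.pi * ∫ p : α × α, q p.1 * q p.2 * lg (s p.1 - s p.2) ∂(μ.prod μ)) := by
    simp_rw [hLs]
    rw [integral_neg, ← integral_integral_swap hlgm.2, ← integral_const_mul]
    congr 1
    refine integral_congr_ae (ae_of_all _ fun p => ?_)
    simp only [hΦ]
    rw [integral_const_mul, hlg]
    generalize (∫ k in Ioi (0:ℝ), (1 - Real.cos (k * (s p.1 - s p.2))) * Lh k) = X
    field_simp
  have h6 : ∀ l : ℤ, ∫ a, q a * chi c h (s a - (a0 + l * h)) ∂μ = ∫ a, q a * chi c h (s' a - l * h) ∂μ := by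
    intro l
    refine integral_congr_ae (ae_of_all _ fun a => ?_)
    simp only [hs']
    congr 2
    ring
  simp_rw [h6]
  refine h1.trans ?_
  rw [h3]
  have h8 : (1 / (2 * Real.pi)) * (2 * ∫ k in Ioi (0:ℝ), c k ^ 2 * ‖sg μ q s' k‖ ^ 2) =
      (∫ k in Ioi (0:ℝ), c k ^ 2 * ‖sg μ q s' k‖ ^ 2) / Real.pi := by
    field_simp
  rw [h8, div_le_iff₀ hpi]
  refine h4.trans ?_
  rw [h5]
  exact le_of_eq (by ring)

/-- counting measure on a finite type plus Lebesgue measure -/
def mS (ι : Type*) [MeasurableSpace ι] : Measure (ι ⊕ ℝ) :=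
  (Measure.count : Measure ι).map Sum.inl + (volume : Measure ℝ).map Sum.inr

section disc

variable {ι : Type*} [Fintype ι] [MeasurableSpace ι] [MeasurableSingletonClass ι]

lemma me_inl : MeasurableEmbedding (Sum.inl : ι → ι ⊕ ℝ) :=
  ⟨Sum.inl_injective, measurable_inl, fun {_} h => h.inl_image⟩

lemma me_inr : MeasurableEmbedding (Sum.inr : ℝ → ι ⊕ ℝ) :=
  ⟨Sum.inr_injective, measurable_inr, fun {_} h => h.inr_image⟩

instance : SigmaFinite (Measure.map (Sum.inr : ℝ → ι ⊕ ℝ) (volume : Measure ℝ)) :=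
  me_inr.sigmaFinite_map

instance : SFinite (mS ι) := by
  unfold mS
  infer_instance

lemma mS_integrable {f : ι ⊕ ℝ → ℝ} : Integrable f (mS ι) ↔ Integrable fun x => f (Sum.inr x) := by
  unfold mS
  rw [integrable_add_measure, me_inl.integrable_map_iff, me_inr.integrable_map_iff]
  exact ⟨fun h => h.2, fun h => ⟨Integrable.of_finite, h⟩⟩

lemma mS_integral {f : ι ⊕ ℝ → ℝ} (hf : Integrable f (mS ι)) :
    ∫ a, f a ∂(mS ι) = ∑ i, f (Sum.inl i) + ∫ x, f (Sum.inr x) := by
  have hf' := hf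
  unfold mS at hf' ⊢
  rw [integrable_add_measure] at hf'
  rw [integral_add_measure hf'.1 hf'.2, me_inl.integral_map, me_inr.integral_map]
  congr 1
  rw [integral_fintype Integrable.of_finite]
  simp

end disc

/-- convolution of the pair potential with a density -/
def cv (lg τ : ℝ → ℝ) (x : ℝ) : ℝ := ∫ y, τ y * lg (x - y)

/-- **Bessel inequality** for discrete charges plus a density. -/
theorem bessel_tau {ι : Type*} [Fintype ι] {c : ℝ → ℝ} (hc : Continuous c) (hce : ∀ k, c (-k) = c k)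
    {K h : ℝ} (hh : 0 < h) (hK : K * h < Real.pi) (hcs : ∀ k, K < |k| → c k = 0)
    {Lh lg : ℝ → ℝ} (hL : ∀ k, 0 < k → c k ^ 2 ≤ Lh k) (hLm : Measurable Lh)
    (hint : ∀ t, IntegrableOn (fun k => (1 - Real.cos (k * t)) * Lh k) (Ioi 0))
    (hlg : ∀ t, lg t = 1 / Real.pi * ∫ k in Ioi (0:ℝ), (1 - Real.cos (k * t)) * Lh k)
    {C : ℝ} (hlb : ∀ t, lg t ≤ C * (1 + |t|)) (hlm : Measurable lg)
    (La : Finset ℤ) (a0 : ℝ) (q s : ι → ℝ) {τ : ℝ → ℝ} (hτ : Integrable τ)
    (hτ1 : Integrable fun x => τ x * x) (h0 : ∑ i, q i + ∫ x, τ x = 0) :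
    ∑ l ∈ La, (∑ i, q i * chi c h (s i - (a0 + l * h)) + ∫ x, τ x * chi c h (x - (a0 + l * h))) ^ 2 ≤
      - (en lg q s + 2 * ∑ i, q i * cv lg τ (s i) + ∫ x, τ x * cv lg τ x) := by
  letI : MeasurableSpace ι := ⊤
  haveI : MeasurableSingletonClass ι := ⟨fun _ => trivial⟩
  have hL0 : ∀ k, 0 < k → 0 ≤ Lh k := fun k hk => (sq_nonneg _).trans (hL k hk)
  have hlgp := lg_nonneg hL0 hlg
  have hle : ∀ t, lg (-t) = lg t := by intro t; rw [hlg, hlg]; simp
  have hC : 0 ≤ C := by
    have := (hlgp 0).trans (hlb 0)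
    simpa using this
  set Q : ι ⊕ ℝ → ℝ := Sum.elim q τ with hQ
  set S : ι ⊕ ℝ → ℝ := Sum.elim s id with hS
  have hSm : Measurable S := (measurable_of_finite s).sumElim measurable_id
  have hQi : Integrable Q (mS ι) := mS_integrable.2 hτ
  have hQ1 : Integrable (fun a => Q a * S a) (mS ι) := mS_integrable.2 hτ1
  have hQ0 : ∫ a, Q a ∂(mS ι) = 0 := by
    rw [mS_integral hQi]
    exact h0
  have h1 := besselM_le hc hce hh hK hcs hL hLm hint hlg hlb La a0 hQi hSm hQ1 hQ0
  have hcont := chi_cont hc hcs h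
  obtain ⟨Mc, hMc⟩ : ∃ M, ∀ t, |chi c h t| ≤ M := by
    refine ⟨√h / (2 * Real.pi) * ∫ k, |c k|, fun t => ?_⟩
    unfold chi
    rw [abs_mul, abs_of_nonneg (by positivity : 0 ≤ √h / (2 * Real.pi))]
    refine mul_le_mul_of_nonneg_left ?_ (by positivity)
    have hcc : HasCompactSupport c := by
      refine HasCompactSupport.of_support_subset_isCompact (isCompact_Icc (a := -K) (b := K)) ?_
      intro k hk
      have : ¬ K < |k| := fun e => hk (hcs k e)
      push Not at this
      exact abs_le.1 this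
    have hci : Integrable c := hc.integrable_of_hasCompactSupport hcc
    rw [← Real.norm_eq_abs]
    refine (norm_integral_le_integral_norm _).trans (integral_mono_of_nonneg (ae_of_all _ fun k => norm_nonneg _)
      hci.norm (ae_of_all _ fun k => ?_))
    simp only [norm_mul, Real.norm_eq_abs]
    exact mul_le_of_le_one_right (abs_nonneg _) (Real.abs_cos_le_one _)
  have h2 : ∀ l : ℤ, ∫ a, Q a * chi c h (S a - (a0 + l * h)) ∂(mS ι) =
      ∑ i, q i * chi c h (s i - (a0 + l * h)) + ∫ x, τ x * chi c h (x - (a0 + l * h)) := by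
    intro l
    rw [mS_integral]
    · rfl
    · refine mS_integrable.2 ?_
      refine Integrable.mul_bdd (c := Mc) hτ ?_ (ae_of_all _ fun x => ?_)
      · exact (hcont.comp (by fun_prop : Continuous fun x : ℝ => x - (a0 + l * h))).aestronglyMeasurable
      · exact hMc _
  simp_rw [h2] at h1
  refine h1.trans (le_of_eq ?_)
  congr 1
  have hI := (phi_int hL0 hLm hint hlg hlb hQi hSm hQ1).1
  -- integrability against `lg`
  have hτl : ∀ t, Integrable fun y => τ y * lg (t - y) := by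
    intro t
    have e1 : Integrable fun y => |τ y| * (C * (1 + |t|)) + |τ y * y| * C :=
      (hτ.abs.mul_const _).add (hτ1.abs.mul_const _)
    refine Integrable.mono' e1 ?_ (ae_of_all _ fun y => ?_)
    · exact hτ.aestronglyMeasurable.mul (hlm.comp (by fun_prop : Measurable fun y : ℝ => t - y)).aestronglyMeasurable
    · rw [norm_mul, Real.norm_eq_abs, Real.norm_of_nonneg (hlgp _)]
      have e2 : lg (t - y) ≤ C * (1 + |t|) + |y| * C := by
        refine (hlb _).trans ?_
        have := abs_sub t y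
        nlinarith
      calc |τ y| * lg (t - y) ≤ |τ y| * (C * (1 + |t|) + |y| * C) :=
            mul_le_mul_of_nonneg_left e2 (abs_nonneg _)
        _ = _ := by rw [abs_mul]; ring
  have hin : ∀ t, ∫ b, Q b * lg (t - S b) ∂(mS ι) = ∑ j, q j * lg (t - s j) + cv lg τ t := by
    intro t
    rw [mS_integral]
    · rfl
    · exact mS_integrable.2 (hτl t)
  rw [integral_prod _ hI]
  have h3 : ∀ a, ∫ b, Q a * Q b * lg (S a - S b) ∂(mS ι) =
      Q a * (∑ j, q j * lg (S a - s j) + cv lg τ (S a)) := by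
    intro a
    rw [← hin, ← integral_const_mul]
    refine integral_congr_ae (ae_of_all _ fun b => ?_)
    simp only
    ring
  have h4 : Integrable (fun a => Q a * (∑ j, q j * lg (S a - s j) + cv lg τ (S a))) (mS ι) := by
    refine hI.integral_prod_left.congr (ae_of_all _ fun a => ?_)
    exact h3 a
  simp_rw [h3]
  rw [mS_integral h4]
  have h5 : Integrable fun x => τ x * (∑ j, q j * lg (x - s j) + cv lg τ x) := mS_integrable.1 h4
  have h6 : Integrable fun x => ∑ j, q j * (τ x * lg (s j - x)) :=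
    integrable_finsetSum _ fun j _ => (hτl (s j)).const_mul _
  have h7 : Integrable fun x => τ x * cv lg τ x := by
    refine (h5.sub h6).congr (ae_of_all _ fun x => ?_)
    simp only [Pi.sub_apply]
    rw [mul_add, Finset.mul_sum, add_sub_right_comm, ← Finset.sum_sub_distrib]
    rw [Finset.sum_eq_zero, zero_add]
    intro j _
    rw [← hle (s j - x), neg_sub]
    ring
  have h8 : ∫ x, τ x * (∑ j, q j * lg (x - s j) + cv lg τ x) =
      ∑ j, q j * cv lg τ (s j) + ∫ x, τ x * cv lg τ x := by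
    have e1 : ∀ x, τ x * (∑ j, q j * lg (x - s j) + cv lg τ x) =
        ∑ j, q j * (τ x * lg (s j - x)) + τ x * cv lg τ x := by
      intro x
      rw [mul_add, Finset.mul_sum]
      congr 1
      refine Finset.sum_congr rfl fun j _ => ?_
      rw [← hle (s j - x), neg_sub]
      ring
    simp_rw [e1]
    rw [integral_add h6 h7, integral_finsetSum _ fun j _ => (hτl (s j)).const_mul _]
    congr 1
    refine Finset.sum_congr rfl fun j _ => ?_
    rw [integral_const_mul]
    rfl
  have h9 : ∑ i, Q (Sum.inl i) * (∑ j, q j * lg (S (Sum.inl i) - s j) + cv lg τ (S (Sum.inl i))) =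
      en lg q s + ∑ i, q i * cv lg τ (s i) := by
    unfold en
    rw [← Finset.sum_add_distrib]
    refine Finset.sum_congr rfl fun i _ => ?_
    simp only [hQ, hS, Sum.elim_inl]
    rw [mul_add, Finset.mul_sum]
    congr 1
    refine Finset.sum_congr rfl fun j _ => ?_
    ring
  have h10 : ∫ x, Q (Sum.inr x) * (∑ j, q j * lg (S (Sum.inr x) - s j) + cv lg τ (S (Sum.inr x))) =
      ∫ x, τ x * (∑ j, q j * lg (x - s j) + cv lg τ x) := rfl
  rw [h9, h10, h8]
  ring

/-- The bracket with a real density `τ` of mass `p - n`. -/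
theorem br2_tau {p n : ℕ} {c : ℝ → ℝ} (hc : Continuous c)
    (hce : ∀ k, c (-k) = c k) {K h : ℝ} (hh : 0 < h) (hK : K * h < Real.pi)
    (hcs : ∀ k, K < |k| → c k = 0) {Lh lg : ℝ → ℝ} (hL : ∀ k, 0 < k → c k ^ 2 ≤ Lh k)
    (hLm : Measurable Lh)
    (hint : ∀ t, IntegrableOn (fun k => (1 - Real.cos (k * t)) * Lh k) (Ioi 0))
    (hlg : ∀ t, lg t = 1 / Real.pi * ∫ k in Ioi (0:ℝ), (1 - Real.cos (k * t)) * Lh k)
    {C : ℝ} (hlb : ∀ t, lg t ≤ C * (1 + |t|)) (hlm : Measurable lg)
    {g : ℝ → ℝ} (l0 : ℝ) (hg : ∀ t, g t = Real.exp (l0 - lg t))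
    (La : Finset ℤ) (a : ℝ) (s : Fin p → ℝ) (s' : Fin n → ℝ) {τ : ℝ → ℝ} (hτ : Integrable τ)
    (hτ1 : Integrable fun x => τ x * x) (h0 : ∫ x, τ x = (p : ℝ) - n) :
    br2 g s s' * Real.exp (1 / 2 * ∑ l ∈ La, (∑ i, chi c h (s i - (a + l * h)) -
        ∑ j, chi c h (s' j - (a + l * h)) - ∫ x, τ x * chi c h (x - (a + l * h))) ^ 2) ≤
      Real.exp (l0 * (((p : ℝ) + n - ((p : ℝ) - n) ^ 2) / 2) - 1 / 2 * ∫ x, τ x * cv lg τ x) *
        ((∏ i, Real.exp (cv lg τ (s i))) * ∏ j, Real.exp (- cv lg τ (s' j))) := by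
  have hl0 : lg 0 = 0 := by rw [hlg]; simp
  have hle : ∀ t, lg (-t) = lg t := by intro t; rw [hlg, hlg]; simp
  rw [br2_eq l0 hg hl0 hle, ← Real.exp_add, ← Real.exp_sum, ← Real.exp_sum, ← Real.exp_add,
    ← Real.exp_add]
  refine Real.exp_le_exp.2 ?_
  have h1 := bessel_tau hc hce hh hK hcs hL hLm hint hlg hlb hlm La a
    (qq p n) (Sum.elim s s') (τ := fun x => - τ x) hτ.neg (by simpa using hτ1.neg) (by
      rw [integral_neg, h0]
      simp [qq]
      ring)
  have hcv : ∀ x, cv lg (fun x => - τ x) x = - cv lg τ x := by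
    intro x
    unfold cv
    rw [← integral_neg]
    refine integral_congr_ae (ae_of_all _ fun y => ?_)
    simp only
    ring
  have h2 : ∀ l : ℤ, (∑ b : Fin p ⊕ Fin n, qq p n b *
      chi c h (Sum.elim s s' b - (a + l * h)) + ∫ x, (- τ x) * chi c h (x - (a + l * h))) =
      ∑ i, chi c h (s i - (a + l * h)) -
        ∑ j, chi c h (s' j - (a + l * h)) - ∫ x, τ x * chi c h (x - (a + l * h)) := by
    intro l
    simp only [neg_mul, integral_neg]
    simp [qq, sub_eq_add_neg]
  simp_rw [h2, hcv] at h1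
  have h3 : ∑ b : Fin p ⊕ Fin n, qq p n b * - cv lg τ (Sum.elim s s' b) =
      - ∑ i, cv lg τ (s i) + ∑ j, cv lg τ (s' j) := by
    rw [Fintype.sum_sum_type]
    simp only [qq, Sum.elim_inl, Sum.elim_inr, one_mul, neg_mul, neg_neg, Finset.sum_neg_distrib]
  have h4 : ∫ x, (- τ x) * (- cv lg τ x) = ∫ x, τ x * cv lg τ x := by
    refine integral_congr_ae (ae_of_all _ fun y => ?_)
    simp only
    ring
  rw [h3, h4] at h1
  simp only [Finset.sum_neg_distrib]
  linarith

end

end NUE
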