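import Pool.Agent.NUE.CosT
import Pool.Agent.NUE.RevTau
import Pool.Agent.NUP.MF.Forward

/-!
# Inversion and convolution of cosine transforms with the pair potentials
-/

set_option autoImplicit false

open MeasureTheory Set Filter Topology

namespace NUE

noncomputable section

lemma ct_half {a : ℝ → ℝ} (he : ∀ k, a (-k) = a k) (t : ℝ) :
    ct a t = ∫ k in Ioi (0:ℝ), 2 * Real.cos (t * k) * a k := by
  have h1 : ∀ k : ℝ, a k * Real.cos (k * t) = (fun x => a x * Real.cos (x * t)) |k| := by
    intro k
    rcases abs_cases k with ⟨h, _⟩ | ⟨h, _⟩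
    · simp only [h]
    · simp only [h, he, neg_mul, Real.cos_neg]
  unfold ct
  rw [integral_congr_ae (ae_of_all _ h1), integral_comp_abs (f := fun x => a x * Real.cos (x * t)),
    ← integral_const_mul]
  refine integral_congr_ae (ae_of_all _ fun k => ?_)
  simp only
  rw [mul_comm t k]
  ring

lemma int_odd {f : ℝ → ℝ} (hf : ∀ t, f (-t) = - f t) : ∫ t, f t = 0 := by
  have h1 : ∫ t, f (-t) = ∫ t, f t := integral_neg_eq_self f volume
  simp_rw [hf] at h1
  rw [integral_neg] at h1
  linarith

/-- inversion -/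
theorem inv_cos {a : ℝ → ℝ} (h : Pf a) (he : ∀ k, a (-k) = a k) (k : ℝ) :
    ∫ t, ct a t * Real.cos (k * t) = 2 * Real.pi * a k := by
  have hpos : ∀ k, 0 < k → ∫ t, ct a t * Real.cos (k * t) = 2 * Real.pi * a k := fun k hk =>
    NUMF.cos_inversion h.int.integrableOn (ct_int h) (ct_half he) hk h.cont.continuousAt
  rcases lt_trichotomy k 0 with hk | hk | hk
  · have := hpos (-k) (by linarith)
    rw [he] at this
    simpa using this
  · subst hk
    have h1 : Tendsto (fun k => ∫ t, ct a t * Real.cos (k * t)) (𝓝[>] 0)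
        (𝓝 (∫ t, ct a t * Real.cos (0 * t))) := by
      have hc : Continuous fun k => ∫ t, ct a t * Real.cos (k * t) := by
        refine continuous_of_dominated (bound := fun t => |ct a t|) (fun k => ?_) (fun k => ae_of_all _ fun t => ?_)
          (ct_int h).abs (ae_of_all _ fun t => by fun_prop)
        · exact ((ct_cont h.int).mul (by fun_prop)).aestronglyMeasurable
        · rw [norm_mul, Real.norm_eq_abs]
          exact mul_le_of_le_one_right (abs_nonneg _) (Real.abs_cos_le_one _)
      exact (hc.tendsto 0).mono_left nhdsWithin_le_nhds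
    have h2 : Tendsto (fun k => 2 * Real.pi * a k) (𝓝[>] 0) (𝓝 (2 * Real.pi * a 0)) :=
      ((h.cont.tendsto 0).const_mul _).mono_left nhdsWithin_le_nhds
    refine tendsto_nhds_unique (h1.congr' ?_) h2
    filter_upwards [self_mem_nhdsWithin] with k hk
    exact hpos k hk
  · exact hpos k hk

lemma inv_sin (a : ℝ → ℝ) (k : ℝ) : ∫ t, ct a t * Real.sin (k * t) = 0 := by
  refine int_odd fun t => ?_
  rw [ct_neg, mul_neg, Real.sin_neg]
  ring

lemma inv_shift {a : ℝ → ℝ} (h : Pf a) (he : ∀ k, a (-k) = a k) (k x : ℝ) :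
    ∫ t, ct a t * Real.cos (k * (x - t)) = 2 * Real.pi * a k * Real.cos (k * x) := by
  have h1 : Integrable fun t => ct a t * Real.cos (k * t) :=
    Integrable.mul_bdd (c := 1) (ct_int h) (by fun_prop) (ae_of_all _ fun t => by
      rw [Real.norm_eq_abs]; exact Real.abs_cos_le_one _)
  have h2 : Integrable fun t => ct a t * Real.sin (k * t) :=
    Integrable.mul_bdd (c := 1) (ct_int h) (by fun_prop) (ae_of_all _ fun t => by
      rw [Real.norm_eq_abs]; exact Real.abs_sin_le_one _)
  have h3 : ∀ t, ct a t * Real.cos (k * (x - t)) =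
      Real.cos (k * x) * (ct a t * Real.cos (k * t)) + Real.sin (k * x) * (ct a t * Real.sin (k * t)) := by
    intro t
    rw [mul_sub, Real.cos_sub]
    ring
  simp_rw [h3]
  rw [integral_add (h1.const_mul _) (h2.const_mul _), integral_const_mul, integral_const_mul,
    inv_cos h he, inv_sin]
  ring

/-- Parseval in the form needed -/
theorem parseval {a b : ℝ → ℝ} (ha : Pf a) (hae : ∀ k, a (-k) = a k) (hb : Pf b) (x y : ℝ) :
    ∫ t, ct a (t - x) * ct b (t - y) = 2 * Real.pi * ∫ k, a k * b k * Real.cos (k * (x - y)) := by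
  have hi : Integrable (Function.uncurry fun (t k : ℝ) => ct a (t - x) * (b k * Real.cos (k * (t - y))))
      (volume.prod volume) := by
    have h1 : Integrable (fun z : ℝ × ℝ => ct a (z.1 - x) * b z.2) (volume.prod volume) :=
      ((ct_int ha).comp_sub_right x).mul_prod hb.int
    refine Integrable.mono' h1.norm ?_ (ae_of_all _ fun z => ?_)
    · have h2 : Continuous fun z : ℝ × ℝ => ct a (z.1 - x) * (b z.2 * Real.cos (z.2 * (z.1 - y))) := by
        have := ct_cont ha.int
        have := hb.cont
        fun_prop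
      exact h2.aestronglyMeasurable
    · simp only [Function.uncurry]
      rw [norm_mul, norm_mul, norm_mul]
      refine mul_le_mul_of_nonneg_left ?_ (norm_nonneg _)
      rw [Real.norm_eq_abs (Real.cos _)]
      exact mul_le_of_le_one_right (norm_nonneg _) (Real.abs_cos_le_one _)
  have h1 : ∀ t, ct a (t - x) * ct b (t - y) = ∫ k, ct a (t - x) * (b k * Real.cos (k * (t - y))) := by
    intro t
    rw [integral_const_mul]
    rfl
  simp_rw [h1]
  rw [integral_integral_swap hi, ← integral_const_mul]
  refine integral_congr_ae (ae_of_all _ fun k => ?_)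
  simp only
  have h2 : ∫ t, ct a (t - x) * (b k * Real.cos (k * (t - y))) =
      b k * ∫ t, ct a t * Real.cos (k * ((y - x) - t)) := by
    rw [← integral_sub_right_eq_self (fun t => ct a t * Real.cos (k * ((y - x) - t))) x, ← integral_const_mul]
    refine integral_congr_ae (ae_of_all _ fun t => ?_)
    simp only
    rw [show k * ((y - x) - (t - x)) = -(k * (t - y)) by ring, Real.cos_neg]
    ring
  rw [h2, inv_shift ha hae, show k * (y - x) = - (k * (x - y)) by ring, Real.cos_neg]
  ring

/-- convolution with the integrable even potential `V` -/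
theorem conv_even {e V Uh : ℝ → ℝ} (h : Pf e) (hV : Integrable V) (hVe : ∀ t, V (-t) = V t)
    (hVf : ∀ k, k ≠ 0 → ∫ t, V t * Real.cos (k * t) = Uh k) (he0 : e 0 = 0) (t : ℝ) :
    ∫ u, ct e u * V (t - u) = ct (fun k => e k * Uh k) t := by
  have hVt : Integrable fun u => V (t - u) := hV.comp_sub_left t
  have hi : Integrable (Function.uncurry fun (u k : ℝ) => (e k * Real.cos (k * u)) * V (t - u))
      (volume.prod volume) := by
    have h1 : Integrable (fun z : ℝ × ℝ => V (t - z.1) * e z.2) (volume.prod volume) :=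
      hVt.mul_prod h.int
    refine Integrable.mono' h1.norm ?_ (ae_of_all _ fun z => ?_)
    · have h2 : Continuous fun z : ℝ × ℝ => Real.cos (z.2 * z.1) := by fun_prop
      refine (h1.aestronglyMeasurable.mul h2.aestronglyMeasurable).congr (ae_of_all _ fun z => ?_)
      simp only [Function.uncurry, Pi.mul_apply]
      ring
    · simp only [Function.uncurry]
      rw [norm_mul, norm_mul, norm_mul, mul_comm ‖V _‖]
      refine mul_le_mul_of_nonneg_right ?_ (norm_nonneg _)
      rw [Real.norm_eq_abs (Real.cos _)]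
      exact mul_le_of_le_one_right (norm_nonneg _) (Real.abs_cos_le_one _)
  have h1 : ∀ u, ct e u * V (t - u) = ∫ k, (e k * Real.cos (k * u)) * V (t - u) := by
    intro u
    rw [integral_mul_const]
    rfl
  simp_rw [h1]
  rw [integral_integral_swap hi]
  unfold ct
  refine integral_congr_ae (ae_of_all _ fun k => ?_)
  simp only
  rcases eq_or_ne k 0 with hk | hk
  · subst hk
    simp [he0]
  have hc : Integrable fun u => V u * Real.cos (k * u) :=
    Integrable.mul_bdd (c := 1) hV (by fun_prop) (ae_of_all _ fun t => by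
      rw [Real.norm_eq_abs]; exact Real.abs_cos_le_one _)
  have hs : Integrable fun u => V u * Real.sin (k * u) :=
    Integrable.mul_bdd (c := 1) hV (by fun_prop) (ae_of_all _ fun t => by
      rw [Real.norm_eq_abs]; exact Real.abs_sin_le_one _)
  have h2 : ∫ u, (e k * Real.cos (k * u)) * V (t - u) =
      ∫ u, (e k * Real.cos (k * t) * (V u * Real.cos (k * u)) + e k * Real.sin (k * t) * (V u * Real.sin (k * u))) := by
    rw [← integral_sub_left_eq_self (fun u => (e k * Real.cos (k * t) * (V u * Real.cos (k * u)) +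
      e k * Real.sin (k * t) * (V u * Real.sin (k * u)))) volume t]
    refine integral_congr_ae (ae_of_all _ fun u => ?_)
    simp only
    have : Real.cos (k * u) = Real.cos (k * t) * Real.cos (k * (t - u)) + Real.sin (k * t) * Real.sin (k * (t - u)) := by
      rw [← Real.cos_sub]
      congr 1
      ring
    rw [this]
    ring
  rw [h2, integral_add (hc.const_mul _) (hs.const_mul _), integral_const_mul, integral_const_mul, hVf k hk]
  have h3 : ∫ u, V u * Real.sin (k * u) = 0 := by
    refine int_odd fun u => ?_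
    rw [hVe, mul_neg, Real.sin_neg]
    ring
  rw [h3]
  ring

/-- convolution with the Coulomb like potential `lg` -/
theorem conv_lg {e Lh lg : ℝ → ℝ} (h : Pf e) (hee : ∀ k, e (-k) = e k) (he0 : e 0 = 0)
    (hL0 : ∀ k, 0 < k → 0 ≤ Lh k) (hLe : ∀ k, Lh (-k) = Lh k) (hLm : Measurable Lh)
    (hint : ∀ t, IntegrableOn (fun k => (1 - Real.cos (k * t)) * Lh k) (Ioi 0))
    (hlg : ∀ t, lg t = 1 / Real.pi * ∫ k in Ioi (0:ℝ), (1 - Real.cos (k * t)) * Lh k)
    {C : ℝ} (hlb : ∀ t, lg t ≤ C * (1 + |t|)) (t : ℝ) :
    ∫ u, ct e u * lg (t - u) = - ct (fun k => e k * Lh k) t := by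
  have hpi := Real.pi_pos
  have hlgp := lg_nonneg hL0 hlg
  have hC : 0 ≤ C := by
    have := (hlgp 0).trans (hlb 0)
    simpa using this
  set Φ : ℝ → ℝ → ℝ := fun u k => ct e u * ((1 - Real.cos (k * (t - u))) * Lh k) with hΦ
  have hmeas : AEStronglyMeasurable (Function.uncurry Φ) (volume.prod (volume.restrict (Ioi (0:ℝ)))) := by
    have h1 : Measurable fun z : ℝ × ℝ => ct e z.1 * ((1 - Real.cos (z.2 * (t - z.1))) * Lh z.2) := by
      have h2 : Measurable fun z : ℝ × ℝ => ct e z.1 := (ct_cont h.int).measurable.comp measurable_fst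
      have h3 : Measurable fun z : ℝ × ℝ => Lh z.2 := hLm.comp measurable_snd
      have h4 : Measurable fun z : ℝ × ℝ => Real.cos (z.2 * (t - z.1)) := by fun_prop
      exact h2.mul ((h4.const_sub 1).mul h3)
    exact h1.aestronglyMeasurable
  have hi : Integrable (Function.uncurry Φ) (volume.prod (volume.restrict (Ioi (0:ℝ)))) := by
    rw [integrable_prod_iff hmeas]
    refine ⟨ae_of_all _ fun u => (hint (t - u)).const_mul (ct e u), ?_⟩
    have e1 : ∀ u : ℝ, ∫ k in Ioi (0:ℝ), ‖Function.uncurry Φ (u, k)‖ = |ct e u| * (Real.pi * lg (t - u)) := by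
      intro u
      have e2 : ∀ k ∈ Ioi (0:ℝ), ‖Function.uncurry Φ (u, k)‖ =
          |ct e u| * ((1 - Real.cos (k * (t - u))) * Lh k) := by
        intro k hk
        simp only [Function.uncurry, hΦ]
        have := Real.cos_le_one (k * (t - u))
        rw [norm_mul, Real.norm_eq_abs (ct e u), Real.norm_of_nonneg (mul_nonneg (by linarith) (hL0 k hk))]
      rw [setIntegral_congr_fun measurableSet_Ioi e2, integral_const_mul, hlg]
      congr 1
      generalize (∫ k in Ioi (0:ℝ), (1 - Real.cos (k * (t - u))) * Lh k) = X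
      field_simp
    have e3 : Integrable fun u : ℝ => Real.pi * (C * (1 + |t|)) * ((1 + |u|) ^ 2 * |ct e u|) :=
      (ct_wint h).const_mul _
    refine Integrable.mono' e3 hmeas.norm.integral_prod_right' (ae_of_all _ fun u => ?_)
    rw [e1, Real.norm_of_nonneg (mul_nonneg (abs_nonneg _) (mul_nonneg hpi.le (hlgp _)))]
    have e4 : lg (t - u) ≤ C * (1 + |t|) * (1 + |u|) ^ 2 := by
      refine (hlb _).trans ?_
      rw [mul_assoc]
      refine mul_le_mul_of_nonneg_left ?_ hC
      have h1 := abs_sub t u
      have h2 := abs_nonneg t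
      have h3 := abs_nonneg u
      nlinarith [mul_nonneg h2 h3, mul_nonneg h2 (mul_nonneg h3 h3), mul_nonneg h3 h3]
    calc |ct e u| * (Real.pi * lg (t - u)) ≤ |ct e u| * (Real.pi * (C * (1 + |t|) * (1 + |u|) ^ 2)) := by
          refine mul_le_mul_of_nonneg_left (mul_le_mul_of_nonneg_left e4 hpi.le) (abs_nonneg _)
      _ = _ := by ring
  have h1 : ∫ u, ct e u * lg (t - u) = 1 / Real.pi * ∫ u, ∫ k in Ioi (0:ℝ), Φ u k := by
    rw [← integral_const_mul]
    refine integral_congr_ae (ae_of_all _ fun u => ?_)
    simp only [hΦ]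
    rw [integral_const_mul, hlg]
    ring
  rw [h1, integral_integral_swap hi]
  have h2 : ∀ k, ∫ u, Φ u k = - (2 * Real.pi * (e k * Lh k * Real.cos (k * t))) := by
    intro k
    simp only [hΦ]
    have e1 : ∀ u, ct e u * ((1 - Real.cos (k * (t - u))) * Lh k) =
        Lh k * (ct e u * Real.cos (0 * u)) - Lh k * (ct e u * Real.cos (k * (t - u))) := by
      intro u
      rw [zero_mul, Real.cos_zero]
      ring
    simp_rw [e1]
    have i1 : Integrable fun u => ct e u * Real.cos (0 * u) := by simpa using ct_int h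
    have i2 : Integrable fun u => ct e u * Real.cos (k * (t - u)) :=
      Integrable.mul_bdd (c := 1) (ct_int h) (by fun_prop) (ae_of_all _ fun t => by
        rw [Real.norm_eq_abs]; exact Real.abs_cos_le_one _)
    rw [integral_sub (i1.const_mul _) (i2.const_mul _), integral_const_mul, integral_const_mul,
      inv_cos h hee, inv_shift h hee, he0]
    ring
  simp_rw [h2]
  rw [integral_neg, integral_const_mul]
  have h3 : ct (fun k => e k * Lh k) t = 2 * ∫ k in Ioi (0:ℝ), e k * Lh k * Real.cos (k * t) := by
    rw [ct_half (fun k => by rw [hee, hLe]), ← integral_const_mul]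
    refine integral_congr_ae (ae_of_all _ fun k => ?_)
    simp only
    rw [mul_comm t k]
    ring
  rw [h3]
  generalize (∫ k in Ioi (0:ℝ), e k * Lh k * Real.cos (k * t)) = X
  field_simp

end

end NUE
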