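import Pool.Agent.NUE.Psi

/-!
# The energy form of the difference mode and the exact Toeplitz identity
-/

set_option autoImplicit false

open MeasureTheory Set Filter Topology NUMF

namespace NUE

noncomputable section

variable {δ K : ℝ} {c : ℝ → ℝ}

/-- admissible densities -/
structure Dn (D : ℝ → ℝ) : Prop where
  cont : Continuous D
  bdd : ∃ M, ∀ t, |D t| ≤ M
  wint : Integrable fun t => (1 + |t|) ^ 2 * |D t|

lemma Dn.int {D : ℝ → ℝ} (h : Dn D) : Integrable D := int_of_wint h.cont h.wint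

lemma Dn.add {D D' : ℝ → ℝ} (h : Dn D) (h' : Dn D') : Dn fun t => D t + D' t := by
  obtain ⟨M, hM⟩ := h.bdd
  obtain ⟨M', hM'⟩ := h'.bdd
  refine ⟨h.cont.add h'.cont, ⟨M + M', fun t => (abs_add_le _ _).trans (add_le_add (hM t) (hM' t))⟩, ?_⟩
  refine Integrable.mono' (h.wint.add h'.wint) ?_ (ae_of_all _ fun t => ?_)
  · have := h.cont
    have := h'.cont
    exact Continuous.aestronglyMeasurable (by fun_prop)
  · rw [Real.norm_of_nonneg (by positivity)]
    simp only [Pi.add_apply]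
    rw [← mul_add]
    exact mul_le_mul_of_nonneg_left (abs_add_le _ _) (by positivity)

lemma Dn.smul {D : ℝ → ℝ} (h : Dn D) (r : ℝ) : Dn fun t => r * D t := by
  obtain ⟨M, hM⟩ := h.bdd
  refine ⟨h.cont.const_mul r |>.congr fun _ => rfl, ⟨|r| * M, fun t => ?_⟩, ?_⟩
  · rw [abs_mul]
    exact mul_le_mul_of_nonneg_left (hM t) (abs_nonneg _)
  · refine (h.wint.const_mul |r|).congr (ae_of_all _ fun t => ?_)
    simp only [abs_mul]
    ring

lemma Dn.sub {D D' : ℝ → ℝ} (h : Dn D) (h' : Dn D') : Dn fun t => D t - D' t := by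
  have := h.add (h'.smul (-1))
  simpa [sub_eq_add_neg] using this

lemma Dn.zero : Dn fun _ => 0 := ⟨continuous_const, ⟨0, fun t => by simp⟩, by simp⟩

lemma Dn.sum {N : ℕ} {D : Fin N → ℝ → ℝ} (h : ∀ j, Dn (D j)) : Dn fun t => ∑ j, D j t := by
  classical
  have : ∀ s : Finset (Fin N), Dn fun t => ∑ j ∈ s, D j t := by
    intro s
    induction s using Finset.induction_on with
    | empty => simpa using Dn.zero
    | insert a s ha ih =>
      simp_rw [Finset.sum_insert ha]
      exact (h a).add ih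
  exact this Finset.univ

lemma Dn.shift {D : ℝ → ℝ} (h : Dn D) (x : ℝ) : Dn fun t => D (t - x) := by
  obtain ⟨M, hM⟩ := h.bdd
  refine ⟨h.cont.comp (by fun_prop), ⟨M, fun t => hM _⟩, ?_⟩
  have h1 := (h.wint.comp_sub_right x).const_mul ((1 + |x|) ^ 2)
  refine Integrable.mono' h1 ?_ (ae_of_all _ fun t => ?_)
  · have := h.cont
    exact Continuous.aestronglyMeasurable (by fun_prop)
  · rw [Real.norm_of_nonneg (by positivity), ← mul_assoc, ← mul_pow]
    refine mul_le_mul_of_nonneg_right (pow_le_pow_left₀ (by positivity) ?_ 2) (abs_nonneg _)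
    have h2 : |t| ≤ |t - x| + |x| := by
      have := abs_add_le (t - x) x
      simpa using this
    nlinarith [abs_nonneg x, abs_nonneg (t - x), mul_nonneg (abs_nonneg x) (abs_nonneg (t - x))]

lemma Dn_of_decay {D : ℝ → ℝ} (hc : Continuous D) {A : ℝ} (hA : ∀ t, (1 + |t|) ^ 4 * |D t| ≤ A) : Dn D := by
  refine ⟨hc, ⟨A, fun t => ?_⟩, decay_int hc hA⟩
  refine le_trans ?_ (hA t)
  have h1 : (1:ℝ) ≤ (1 + |t|) ^ 4 := one_le_pow₀ (by linarith [abs_nonneg t])
  nlinarith [abs_nonneg (D t)]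

lemma Dn_ct {a : ℝ → ℝ} (h : Pf a) : Dn (ct a) := by
  obtain ⟨C, _, hC⟩ := decay 4 h
  exact Dn_of_decay (ct_cont h.int) fun t => (hC t).1

lemma Dn_st {a : ℝ → ℝ} (h : Pf a) : Dn (st a) := by
  obtain ⟨C, _, hC⟩ := decay 4 h
  exact Dn_of_decay (st_cont h.int) fun t => (hC t).2

/-- the energy form -/
def EE (D D' : ℝ → ℝ) : ℝ := ∫ z : ℝ × ℝ, D z.1 * D' z.2 * Ud (z.1 - z.2)

lemma EE_int {D D' : ℝ → ℝ} (h : Dn D) (h' : Dn D') :
    Integrable fun z : ℝ × ℝ => D z.1 * D' z.2 * Ud (z.1 - z.2) := by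
  obtain ⟨M, hM⟩ := h.bdd
  have i1 : Integrable fun z : ℝ × ℝ => D z.1 * (D' z.2 * V (z.1 - z.2)) := by
    have e1 : Integrable (fun z : ℝ × ℝ => D' z.2 * V (z.1 - z.2)) (volume.prod volume) :=
      Integrable.convolution_integrand (ContinuousLinearMap.mul ℝ ℝ) h'.int V_integral.1
    exact e1.bdd_mul (c := M) (h.cont.comp continuous_fst).aestronglyMeasurable
      (ae_of_all _ fun z => by rw [Real.norm_eq_abs]; exact hM _)
  have i2 : Integrable fun z : ℝ × ℝ => D z.1 * D' z.2 * lgm (z.1 - z.2) := by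
    have e3 : Integrable (fun z : ℝ × ℝ => 2 * (((1 + |z.1|) ^ 2 * |D z.1|) * ((1 + |z.2|) ^ 2 * |D' z.2|)))
        (volume.prod volume) := (h.wint.mul_prod h'.wint).const_mul 2
    refine Integrable.mono' e3 ?_ (ae_of_all _ fun z => ?_)
    · have := h.cont
      have := h'.cont
      have := lgm_cont
      exact Continuous.aestronglyMeasurable (by fun_prop)
    · have h0 := lg_nonneg Lh_nonneg lgm_eq (z.1 - z.2)
      rw [norm_mul, norm_mul, Real.norm_eq_abs, Real.norm_eq_abs, Real.norm_of_nonneg h0]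
      have e4 : lgm (z.1 - z.2) ≤ 2 * ((1 + |z.1|) ^ 2 * (1 + |z.2|) ^ 2) := by
        refine (lgm_le _).trans ?_
        have h1 := abs_sub z.1 z.2
        have h2 := abs_nonneg z.1
        have h3 := abs_nonneg z.2
        have h4 : 1 + |z.1| + |z.2| ≤ (1 + |z.1|) ^ 2 * (1 + |z.2|) ^ 2 := by
          have h5 : 1 + |z.1| ≤ (1 + |z.1|) ^ 2 := by nlinarith
          have h6 : 1 + |z.2| ≤ (1 + |z.2|) ^ 2 := by nlinarith
          calc 1 + |z.1| + |z.2| ≤ (1 + |z.1|) * (1 + |z.2|) := by nlinarith [mul_nonneg h2 h3]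
            _ ≤ _ := mul_le_mul h5 h6 (by positivity) (by positivity)
        linarith
      calc |D z.1| * |D' z.2| * lgm (z.1 - z.2) ≤
          |D z.1| * |D' z.2| * (2 * ((1 + |z.1|) ^ 2 * (1 + |z.2|) ^ 2)) :=
            mul_le_mul_of_nonneg_left e4 (by positivity)
        _ = _ := by ring
  have i3 : Integrable fun z : ℝ × ℝ => D z.1 * D' z.2 := h.int.mul_prod h'.int
  refine ((i1.sub (i2.const_mul 2)).add (i3.mul_const (2 * Real.log (g 0)))).congr (ae_of_all _ fun z => ?_)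
  simp only [Pi.add_apply, Pi.sub_apply]
  rw [Ud_eq]
  ring

lemma EE_comm (D D' : ℝ → ℝ) : EE D D' = EE D' D := by
  unfold EE
  have h1 : ∫ z : ℝ × ℝ, D z.1 * D' z.2 * Ud (z.1 - z.2) =
      ∫ z : ℝ × ℝ, (fun z : ℝ × ℝ => D z.2 * D' z.1 * Ud (z.2 - z.1)) z.swap := rfl
  rw [h1]
  have h2 := integral_prod_swap (μ := (volume : Measure ℝ)) (ν := (volume : Measure ℝ))
    (f := fun z : ℝ × ℝ => D z.2 * D' z.1 * Ud (z.2 - z.1))
  have h3 : ∫ z : ℝ × ℝ, (fun z : ℝ × ℝ => D z.2 * D' z.1 * Ud (z.2 - z.1)) z.swap =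
      ∫ z : ℝ × ℝ, D z.2 * D' z.1 * Ud (z.2 - z.1) := h2
  rw [h3]
  refine integral_congr_ae (ae_of_all _ fun z => ?_)
  simp only
  rw [← Ud_even (z.1 - z.2), neg_sub]
  ring

lemma EE_add_left {D1 D2 D' : ℝ → ℝ} (h1 : Dn D1) (h2 : Dn D2) (h' : Dn D') :
    EE (fun t => D1 t + D2 t) D' = EE D1 D' + EE D2 D' := by
  unfold EE
  rw [← integral_add (EE_int h1 h') (EE_int h2 h')]
  refine integral_congr_ae (ae_of_all _ fun z => ?_)
  simp only
  ring

lemma EE_smul_left (r : ℝ) (D D' : ℝ → ℝ) : EE (fun t => r * D t) D' = r * EE D D' := by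
  unfold EE
  rw [← integral_const_mul]
  refine integral_congr_ae (ae_of_all _ fun z => ?_)
  simp only
  ring

lemma EE_sub_left {D1 D2 D' : ℝ → ℝ} (h1 : Dn D1) (h2 : Dn D2) (h' : Dn D') :
    EE (fun t => D1 t - D2 t) D' = EE D1 D' - EE D2 D' := by
  unfold EE
  rw [← integral_sub (EE_int h1 h') (EE_int h2 h')]
  refine integral_congr_ae (ae_of_all _ fun z => ?_)
  simp only
  ring

lemma EE_sub_right {D1 D2 D' : ℝ → ℝ} (h1 : Dn D1) (h2 : Dn D2) (h' : Dn D') :
    EE D' (fun t => D1 t - D2 t) = EE D' D1 - EE D' D2 := by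
  rw [EE_comm, EE_sub_left h1 h2 h', EE_comm D1, EE_comm D2]

/-- iterated form -/
lemma EE_iter {D D' : ℝ → ℝ} (h : Dn D) (h' : Dn D') :
    EE D D' = ∫ t, D t * ∫ u, D' u * Ud (t - u) := by
  unfold EE
  have := integral_prod (μ := (volume : Measure ℝ)) (ν := (volume : Measure ℝ)) _ (EE_int h h')
  refine this.trans ?_
  refine integral_congr_ae (ae_of_all _ fun t => ?_)
  simp only
  rw [← integral_const_mul]
  refine integral_congr_ae (ae_of_all _ fun u => ?_)
  simp only
  ring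

/-- energy against a shifted grid function -/
lemma EE_ct (hP : Prof δ K c) {D : ℝ → ℝ} (h : Dn D) (x : ℝ) :
    EE D (fun t => ct (ev c) (t - x)) = ∫ t, D t * ct c (t - x) := by
  rw [EE_iter h ((Dn_ct hP.pf_ev).shift x)]
  refine integral_congr_ae (ae_of_all _ fun t => ?_)
  simp only
  congr 1
  rw [← (conv_Ud hP (t - x)).2]
  rw [← integral_sub_right_eq_self (fun u => ct (ev c) u * Ud (t - x - u)) x]
  refine integral_congr_ae (ae_of_all _ fun u => ?_)
  simp only
  congr 2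
  ring

/-- derivative of the displacement profile: `ψ'` -/
def psi1 (c : ℝ → ℝ) (h t : ℝ) : ℝ := -(√h / (2 * Real.pi)) * ct (ev c) t

/-- the displacement profile `ψ` -/
def psi (c : ℝ → ℝ) (h t : ℝ) : ℝ := -(√h / (2 * Real.pi)) * st (ev1 c) t

lemma hasDerivAt_psi (hP : Prof δ K c) (h t : ℝ) : HasDerivAt (psi c h) (psi1 c h t) t := by
  have h1 := hasDerivAt_st hP.pf_ev1.int (by rw [hP.k_ev1]; exact hP.pf_ev.int) t
  rw [hP.k_ev1] at h1
  exact h1.const_mul _

lemma chi_eq (c : ℝ → ℝ) (h t : ℝ) : chi c h t = √h / (2 * Real.pi) * ct c t := rfl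

/-- grid functions -/
def grid {N : ℕ} (f : ℝ → ℝ) (a h : ℝ) (x : Fin N → ℝ) (t : ℝ) : ℝ :=
  ∑ j : Fin N, x j * f (t - (a + (j : ℕ) * h))

lemma Dn_psi1 (hP : Prof δ K c) (h : ℝ) : Dn (psi1 c h) := (Dn_ct hP.pf_ev).smul _

lemma Dn_psi (hP : Prof δ K c) (h : ℝ) : Dn (psi c h) := (Dn_st hP.pf_ev1).smul _

lemma Dn_chi (hP : Prof δ K c) (h : ℝ) : Dn (chi c h) := (Dn_ct hP.pf).smul _

lemma Dn_grid {N : ℕ} {f : ℝ → ℝ} (hf : Dn f) (a h : ℝ) (x : Fin N → ℝ) : Dn (grid f a h x) :=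
  Dn.sum fun j => (hf.shift _).smul _

lemma hasDerivAt_grid {N : ℕ} {f f' : ℝ → ℝ} (hf : ∀ t, HasDerivAt f (f' t) t) (a h : ℝ) (x : Fin N → ℝ)
    (t : ℝ) : HasDerivAt (grid f a h x) (grid f' a h x t) t := by
  unfold grid
  refine HasDerivAt.fun_sum fun j _ => HasDerivAt.const_mul _ ?_
  have h1 := (hf (t - (a + (j : ℕ) * h))).comp t ((hasDerivAt_id t).sub_const _)
  simpa [Function.comp_def] using h1

/-- energy of any density against the grid displacement -/
theorem EE_psi1 (hP : Prof δ K c) {N : ℕ} {D : ℝ → ℝ} (hD : Dn D) (a h : ℝ) (x : Fin N → ℝ) :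
    EE D (grid (psi1 c h) a h x) = - ∫ t, D t * grid (chi c h) a h x t := by
  have h1 : ∀ j : Fin N, EE (fun t => x j * psi1 c h (t - (a + (j : ℕ) * h))) D =
      - ∫ t, D t * (x j * chi c h (t - (a + (j : ℕ) * h))) := by
    intro j
    unfold psi1
    rw [EE_smul_left, EE_smul_left (-(√h / (2 * Real.pi))) (fun t => ct (ev c) (t - (a + (j : ℕ) * h))),
      EE_comm, EE_ct hP hD, ← integral_neg, ← integral_const_mul, ← integral_const_mul]
    refine integral_congr_ae (ae_of_all _ fun t => ?_)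
    simp only [chi_eq]
    ring
  classical
  have h2 : ∀ s : Finset (Fin N), EE (fun t => ∑ j ∈ s, x j * psi1 c h (t - (a + (j : ℕ) * h))) D =
      ∑ j ∈ s, EE (fun t => x j * psi1 c h (t - (a + (j : ℕ) * h))) D := by
    intro s
    induction s using Finset.induction_on with
    | empty =>
      simp [EE]
    | insert b s hb ih =>
      simp_rw [Finset.sum_insert hb]
      rw [EE_add_left (((Dn_psi1 hP h).shift _).smul _) ?_ hD, ih]
      have : ∀ s : Finset (Fin N), Dn fun t => ∑ j ∈ s, x j * psi1 c h (t - (a + (j : ℕ) * h)) := by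
        intro s
        induction s using Finset.induction_on with
        | empty => simpa using Dn.zero
        | insert a s ha ih =>
          simp_rw [Finset.sum_insert ha]
          exact (((Dn_psi1 hP h).shift _).smul _).add ih
      exact this s
  have h3 : EE D (grid (psi1 c h) a h x) = EE (fun t => ∑ j ∈ Finset.univ, x j * psi1 c h (t - (a + (j : ℕ) * h))) D :=
    EE_comm _ _
  rw [h3, h2]
  simp_rw [h1]
  rw [Finset.sum_neg_distrib]
  congr 1
  unfold grid
  simp_rw [Finset.mul_sum]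
  rw [integral_finsetSum]
  intro j _
  obtain ⟨M, hM⟩ := ((Dn_chi hP h).smul (x j)).bdd
  refine Integrable.mul_bdd (c := M) hD.int ?_ (ae_of_all _ fun t => ?_)
  · have := (Dn_chi hP h).cont
    exact Continuous.aestronglyMeasurable (by fun_prop)
  · rw [Real.norm_eq_abs]
    exact hM _

/-- the Toeplitz form -/
theorem EE_grid (hP : Prof δ K c) {h : ℝ} (hh : 0 < h) (hK : K * h < Real.pi) {N : ℕ} (a : ℝ)
    (x : Fin N → ℝ) : EE (grid (psi1 c h) a h x) (grid (psi1 c h) a h x) =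
      (∑ i, ∑ j, x i * toep (fun θ => rs c (θ / h)) N i j * x j) / 2 := by
  have hpi := Real.pi_pos
  rw [EE_psi1 hP (Dn_grid (Dn_psi1 hP h) a h x)]
  have h0 : ∀ i j : Fin N, ∫ t, psi1 c h (t - (a + (i : ℕ) * h)) * chi c h (t - (a + (j : ℕ) * h)) =
      - (toep (fun θ => rs c (θ / h)) N i j / 2) := by
    intro i j
    rw [toep_scale hh (rs c)]
    have e1 : ∀ t, psi1 c h (t - (a + (i : ℕ) * h)) * chi c h (t - (a + (j : ℕ) * h)) =
        -(√h / (2 * Real.pi)) * (√h / (2 * Real.pi)) * (ct (ev c) (t - (a + (i : ℕ) * h)) * ct c (t - (a + (j : ℕ) * h))) := by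
      intro t
      unfold psi1
      rw [chi_eq]
      ring
    simp_rw [e1]
    rw [integral_const_mul, parseval hP.pf_ev hP.ev_even hP.pf]
    have e2 : ∫ k in (-(Real.pi / h))..(Real.pi / h), rs c k * Real.cos (k * (h * ((i : ℝ) - (j : ℝ)))) =
        2 * ∫ k, ev c k * c k * Real.cos (k * (a + (i : ℕ) * h - (a + (j : ℕ) * h))) := by
      rw [int_line hh, ← integral_const_mul]
      · refine integral_congr_ae (ae_of_all _ fun k => ?_)
        simp only
        unfold rs ev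
        rw [show k * (a + (i : ℕ) * h - (a + (j : ℕ) * h)) = k * (h * ((i : ℝ) - (j : ℝ))) by ring]
        ring
      · intro k hk
        have : K < |k| := by
          refine lt_of_le_of_lt ?_ hk
          rw [le_div_iff₀ hh]
          exact hK.le
        unfold rs
        rw [hP.large' k this]
        simp
    rw [e2]
    have hsq : √h * √h = h := Real.mul_self_sqrt hh.le
    generalize (∫ k, ev c k * c k * Real.cos (k * (a + (i : ℕ) * h - (a + (j : ℕ) * h)))) = X
    rw [show -(√h / (2 * Real.pi)) * (√h / (2 * Real.pi)) * (2 * Real.pi * X) =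
      - ((√h * √h) / (2 * Real.pi) * X) by field_simp, hsq]
    ring
  have hi : ∀ i j : Fin N, Integrable fun t => x i * psi1 c h (t - (a + (i : ℕ) * h)) *
      (x j * chi c h (t - (a + (j : ℕ) * h))) := by
    intro i j
    obtain ⟨M, hM⟩ := ((Dn_chi hP h).smul (x j)).bdd
    refine Integrable.mul_bdd (c := M) (((Dn_psi1 hP h).shift _).smul (x i)).int ?_ (ae_of_all _ fun t => ?_)
    · have := (Dn_chi hP h).cont
      exact Continuous.aestronglyMeasurable (by fun_prop)
    · rw [Real.norm_eq_abs]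
      exact hM _
  unfold grid
  simp_rw [Finset.sum_mul_sum]
  rw [integral_finsetSum _ fun i _ => integrable_finsetSum _ fun j _ => hi i j]
  rw [← Finset.sum_neg_distrib, Finset.sum_div]
  refine Finset.sum_congr rfl fun i _ => ?_
  rw [integral_finsetSum _ fun j _ => hi i j, ← Finset.sum_neg_distrib, Finset.sum_div]
  refine Finset.sum_congr rfl fun j _ => ?_
  have e3 : ∫ t, x i * psi1 c h (t - (a + (i : ℕ) * h)) * (x j * chi c h (t - (a + (j : ℕ) * h))) =
      x i * x j * ∫ t, psi1 c h (t - (a + (i : ℕ) * h)) * chi c h (t - (a + (j : ℕ) * h)) := by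
    rw [← integral_const_mul]
    refine integral_congr_ae (ae_of_all _ fun t => ?_)
    simp only
    ring
  rw [e3, h0]
  ring

/-- **Exact identity**: completion of the square around the grid displacement. -/
theorem psi_exact (hP : Prof δ K c) {h : ℝ} (hh : 0 < h) (hK : K * h < Real.pi) {N : ℕ} (a : ℝ)
    (x : Fin N → ℝ) {D : ℝ → ℝ} (hD : Dn D) :
    - 2 * (∫ t, D t * grid (chi c h) a h x t) - EE D D =
      (∑ i, ∑ j, x i * toep (fun θ => rs c (θ / h)) N i j * x j) / 2 -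
      EE (fun t => grid (psi1 c h) a h x t - D t) (fun t => grid (psi1 c h) a h x t - D t) := by
  have hp := Dn_grid (Dn_psi1 hP h) a h x
  rw [EE_sub_left hp hD (hp.sub hD), EE_sub_right hp hD hp, EE_sub_right hp hD hD, EE_grid hP hh hK,
    EE_comm (grid (psi1 c h) a h x) D, EE_psi1 hP hD]
  generalize (∑ i, ∑ j, x i * toep (fun θ => rs c (θ / h)) N i j * x j) = T
  ring

end

end NUE
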