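import Pool.Agent.NUE.PsiB

/-!
# Tails: the cut off grid displacement

`EE_le`: `|EE D D'| ≤ C A A'` for densities with `(1+|t|)^4 |D| ≤ A`.
`psi_tail`: for `F = H ψ_g`, `D = F'`:
`- 2 ∫ D χ_g - EE D D ≥ (1/2) g T g - error`.
`by_parts`: `- ∫ D χ_g = ∫ F χ_g'`.
-/

set_option autoImplicit false

open MeasureTheory Set Filter Topology NUMF

namespace NUE

noncomputable section

variable {δ K : ℝ} {c : ℝ → ℝ}

lemma Dn_inv : Dn fun t : ℝ => ((1 + |t|) ^ 4)⁻¹ := by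
  have h0 : ∀ t : ℝ, (1 + |t|) ^ 4 ≠ 0 := fun t => by positivity
  refine Dn_of_decay (A := 1) ?_ fun t => ?_
  · exact Continuous.inv₀ (by fun_prop) h0
  · have h1 : (0:ℝ) < ((1 + |t|) ^ 4)⁻¹ := by positivity
    rw [abs_of_pos h1, mul_inv_cancel₀ (h0 t)]

theorem EE_le : ∃ C, 0 ≤ C ∧ ∀ (D D' : ℝ → ℝ) (A A' : ℝ), (∀ t, (1 + |t|) ^ 4 * |D t| ≤ A) →
    (∀ t, (1 + |t|) ^ 4 * |D' t| ≤ A') → |EE D D'| ≤ C * (A * A') := by
  refine ⟨∫ z : ℝ × ℝ, ‖((1 + |z.1|) ^ 4)⁻¹ * ((1 + |z.2|) ^ 4)⁻¹ * Ud (z.1 - z.2)‖,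
    integral_nonneg fun z => norm_nonneg _, fun D D' A A' hA hA' => ?_⟩
  unfold EE
  rw [← Real.norm_eq_abs]
  refine (norm_integral_le_integral_norm _).trans ?_
  rw [← integral_mul_const]
  refine integral_mono_of_nonneg (ae_of_all _ fun z => norm_nonneg _)
    ((EE_int Dn_inv Dn_inv).norm.mul_const _) (ae_of_all _ fun z => ?_)
  simp only
  rw [norm_mul, norm_mul, norm_mul, norm_mul]
  have h1 : ∀ {f : ℝ → ℝ} {B : ℝ}, (∀ t, (1 + |t|) ^ 4 * |f t| ≤ B) → ∀ t, ‖f t‖ ≤ ‖((1 + |t|) ^ 4)⁻¹‖ * B := by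
    intro f B hB t
    rw [Real.norm_eq_abs, Real.norm_of_nonneg (by positivity), inv_mul_eq_div, le_div_iff₀ (by positivity)]
    linarith [hB t]
  have hA0 : 0 ≤ A := le_trans (by positivity) (hA 0)
  calc ‖D z.1‖ * ‖D' z.2‖ * ‖Ud (z.1 - z.2)‖ ≤
      (‖((1 + |z.1|) ^ 4)⁻¹‖ * A) * (‖((1 + |z.2|) ^ 4)⁻¹‖ * A') * ‖Ud (z.1 - z.2)‖ := by
        refine mul_le_mul_of_nonneg_right ?_ (norm_nonneg _)
        exact mul_le_mul (h1 hA _) (h1 hA' _) (norm_nonneg _) (mul_nonneg (norm_nonneg _) hA0)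
    _ = _ := by ring

lemma Dn.mul_bdd {D H : ℝ → ℝ} (h : Dn D) (hH : Continuous H) {M : ℝ} (hM : ∀ t, |H t| ≤ M) :
    Dn fun t => H t * D t := by
  obtain ⟨M', hM'⟩ := h.bdd
  have hM0 : 0 ≤ M := (abs_nonneg _).trans (hM 0)
  refine ⟨hH.mul h.cont, ⟨M * M', fun t => ?_⟩, ?_⟩
  · rw [abs_mul]
    exact mul_le_mul (hM t) (hM' t) (abs_nonneg _) hM0
  · refine Integrable.mono' (h.wint.const_mul M) ?_ (ae_of_all _ fun t => ?_)
    · have := h.cont
      exact Continuous.aestronglyMeasurable (by fun_prop)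
    · rw [Real.norm_of_nonneg (by positivity), abs_mul]
      calc (1 + |t|) ^ 2 * (|H t| * |D t|) = |H t| * ((1 + |t|) ^ 2 * |D t|) := by ring
        _ ≤ _ := mul_le_mul_of_nonneg_right (hM t) (by positivity)

/-- pointwise bound of a grid function away from the grid -/
lemma grid_far {N : ℕ} {f : ℝ → ℝ} {C : ℝ} (m : ℕ) (_hC0 : 0 ≤ C)
    (hC : ∀ t, (1 + |t|) ^ (m + 4) * |f t| ≤ C) {a h R0 R1 : ℝ} (hR0 : 0 ≤ R0) (hR : R0 < R1)
    (hg : ∀ j : Fin N, |a + (j : ℕ) * h| ≤ R0) (x : Fin N → ℝ) {t : ℝ} (ht : R1 ≤ |t|) :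
    (1 + |t|) ^ 4 * |grid f a h x t| ≤
      C * (R1 / (R1 - R0)) ^ (m + 4) * ((1 + R1) ^ m)⁻¹ * ∑ j, |x j| := by
  have hR1 : 0 < R1 := lt_of_le_of_lt hR0 hR
  have hl : 0 < R1 - R0 := by linarith
  have hj : ∀ j : Fin N, (1 + |t|) ^ 4 * |f (t - (a + (j : ℕ) * h))| ≤
      C * (R1 / (R1 - R0)) ^ (m + 4) * ((1 + R1) ^ m)⁻¹ := by
    intro j
    set u := t - (a + (j : ℕ) * h) with hu
    have h1 : |t| - R0 ≤ |u| := by
      have := abs_sub_abs_le_abs_sub t (a + (j : ℕ) * h)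
      have := hg j
      linarith
    have h2 : 1 + |t| ≤ (R1 / (R1 - R0)) * (1 + |u|) := by
      rw [div_mul_eq_mul_div, le_div_iff₀ hl]
      nlinarith
    have h3 : (1 + |t|) ^ (m + 4) ≤ (R1 / (R1 - R0)) ^ (m + 4) * (1 + |u|) ^ (m + 4) := by
      rw [← mul_pow]
      exact pow_le_pow_left₀ (by positivity) h2 _
    have h4 : (1 + |t|) ^ (m + 4) * |f u| ≤ (R1 / (R1 - R0)) ^ (m + 4) * C := by
      calc (1 + |t|) ^ (m + 4) * |f u| ≤ (R1 / (R1 - R0)) ^ (m + 4) * (1 + |u|) ^ (m + 4) * |f u| :=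
            mul_le_mul_of_nonneg_right h3 (abs_nonneg _)
        _ = (R1 / (R1 - R0)) ^ (m + 4) * ((1 + |u|) ^ (m + 4) * |f u|) := by ring
        _ ≤ _ := mul_le_mul_of_nonneg_left (hC u) (by positivity)
    have h5 : (1 + R1) ^ m ≤ (1 + |t|) ^ m := pow_le_pow_left₀ (by positivity) (by linarith) _
    have h6 : (1 + |t|) ^ 4 * |f u| * (1 + R1) ^ m ≤ (R1 / (R1 - R0)) ^ (m + 4) * C := by
      refine le_trans ?_ h4
      rw [pow_add]
      calc (1 + |t|) ^ 4 * |f u| * (1 + R1) ^ m ≤ (1 + |t|) ^ 4 * |f u| * (1 + |t|) ^ m :=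
            mul_le_mul_of_nonneg_left h5 (by positivity)
        _ = _ := by ring
    rw [← div_eq_mul_inv, le_div_iff₀ (by positivity)]
    linarith
  unfold grid
  calc (1 + |t|) ^ 4 * |∑ j, x j * f (t - (a + (j : ℕ) * h))|
      ≤ (1 + |t|) ^ 4 * ∑ j, |x j * f (t - (a + (j : ℕ) * h))| :=
        mul_le_mul_of_nonneg_left (Finset.abs_sum_le_sum_abs _ _) (by positivity)
    _ = ∑ j, |x j| * ((1 + |t|) ^ 4 * |f (t - (a + (j : ℕ) * h))|) := by
        rw [Finset.mul_sum]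
        refine Finset.sum_congr rfl fun j _ => ?_
        rw [abs_mul]
        ring
    _ ≤ ∑ j, |x j| * (C * (R1 / (R1 - R0)) ^ (m + 4) * ((1 + R1) ^ m)⁻¹) :=
        Finset.sum_le_sum fun j _ => mul_le_mul_of_nonneg_left (hj j) (abs_nonneg _)
    _ = _ := by rw [← Finset.sum_mul]; ring

/-- The density of the cut off displacement `F = H ψ_g`. -/
def cutD {N : ℕ} (c : ℝ → ℝ) (h : ℝ) (H H' : ℝ → ℝ) (a : ℝ) (x : Fin N → ℝ) (t : ℝ) : ℝ :=
  H' t * grid (psi c h) a h x t + H t * grid (psi1 c h) a h x t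

lemma hasDerivAt_cut (hP : Prof δ K c) {h : ℝ} {H H' : ℝ → ℝ} (hH : ∀ t, HasDerivAt H (H' t) t) {N : ℕ}
    (a : ℝ) (x : Fin N → ℝ) (t : ℝ) :
    HasDerivAt (fun t => H t * grid (psi c h) a h x t) (cutD c h H H' a x t) t :=
  (hH t).mul (hasDerivAt_grid (hasDerivAt_psi hP h) a h x t)

lemma Dn_cut (hP : Prof δ K c) {h : ℝ} {H H' : ℝ → ℝ} (hHc : Continuous H) (hH'c : Continuous H') {M M' : ℝ}
    (hM : ∀ t, |H t| ≤ M) (hM' : ∀ t, |H' t| ≤ M') {N : ℕ} (a : ℝ) (x : Fin N → ℝ) :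
    Dn (cutD c h H H' a x) :=
  ((Dn_grid (Dn_psi hP h) a h x).mul_bdd hH'c hM').add ((Dn_grid (Dn_psi1 hP h) a h x).mul_bdd hHc hM)

/-- **The form of the cut off displacement** -/
theorem psi_tail (hP : Prof δ K c) {h : ℝ} (hh : 0 < h) (hK : K * h < Real.pi) (m : ℕ) :
    ∃ C, 0 ≤ C ∧ ∀ {N : ℕ} (a : ℝ) (x : Fin N → ℝ) {R0 R1 : ℝ}, 0 ≤ R0 → R0 < R1 →
      (∀ j : Fin N, |a + (j : ℕ) * h| ≤ R0) → ∀ {H H' : ℝ → ℝ} {M' : ℝ}, Continuous H → Continuous H' →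
      (∀ t, 0 ≤ H t ∧ H t ≤ 1) → (∀ t, |H' t| ≤ M') → (∀ t, |t| ≤ R1 → H t = 1 ∧ H' t = 0) →
      (∑ i, ∑ j, x i * toep (fun θ => rs c (θ / h)) N i j * x j) / 2 -
        C * ((1 + M') * (R1 / (R1 - R0)) ^ (m + 4) * ((1 + R1) ^ m)⁻¹ * ∑ j, |x j|) ^ 2 ≤
      - 2 * (∫ t, cutD c h H H' a x t * grid (chi c h) a h x t) -
        EE (cutD c h H H' a x) (cutD c h H H' a x) := by
  obtain ⟨CE, hCE, HE⟩ := EE_le
  obtain ⟨C1, hC1, H1⟩ := decay (m + 4) hP.pf_ev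
  obtain ⟨C2, hC2, H2⟩ := decay (m + 4) hP.pf_ev1
  have hpi := Real.pi_pos
  set s : ℝ := √h / (2 * Real.pi) with hs
  have hs0 : 0 ≤ s := by positivity
  set C3 : ℝ := s * C1 + s * C2 with hC3
  have hC30 : 0 ≤ C3 := by positivity
  refine ⟨CE * C3 ^ 2, by positivity, ?_⟩
  intro N a x R0 R1 hR0 hR hg H H' M' hHc hH'c hH01 hM' hH1
  have hM'0 : 0 ≤ M' := (abs_nonneg _).trans (hM' 0)
  have hD := Dn_cut hP (h := h) hHc hH'c (M := 1) (fun t => abs_le.2 ⟨by linarith [(hH01 t).1], (hH01 t).2⟩) hM' a x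
  rw [psi_exact hP hh hK a x hD]
  set B : ℝ := (R1 / (R1 - R0)) ^ (m + 4) * ((1 + R1) ^ m)⁻¹ * ∑ j, |x j| with hB
  have hl : 0 < R1 - R0 := by linarith
  have hR1 : 0 < R1 := by linarith
  have hB0 : 0 ≤ B := by positivity
  have hp1 : ∀ t, (1 + |t|) ^ (m + 4) * |psi1 c h t| ≤ C3 := by
    intro t
    unfold psi1
    rw [abs_mul, abs_neg, abs_of_nonneg hs0]
    have := mul_le_mul_of_nonneg_left (H1 t).1 hs0
    have h3 : 0 ≤ s * C2 := by positivity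
    rw [hC3]
    linarith
  have hp2 : ∀ t, (1 + |t|) ^ (m + 4) * |psi c h t| ≤ C3 := by
    intro t
    unfold psi
    rw [abs_mul, abs_neg, abs_of_nonneg hs0]
    have := mul_le_mul_of_nonneg_left (H2 t).2 hs0
    have h3 : 0 ≤ s * C1 := by positivity
    rw [hC3]
    linarith
  have key : ∀ t, (1 + |t|) ^ 4 * |grid (psi1 c h) a h x t - cutD c h H H' a x t| ≤
      C3 * ((1 + M') * B) := by
    intro t
    rcases le_or_gt |t| R1 with ht | ht
    · obtain ⟨e1, e2⟩ := hH1 t ht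
      have : grid (psi1 c h) a h x t - cutD c h H H' a x t = 0 := by
        unfold cutD
        rw [e1, e2]
        ring
      rw [this, abs_zero, mul_zero]
      positivity
    · have g1 := grid_far m hC30 hp1 hR0 hR hg x ht.le
      have g2 := grid_far m hC30 hp2 hR0 hR hg x ht.le
      have e1 : grid (psi1 c h) a h x t - cutD c h H H' a x t =
          (1 - H t) * grid (psi1 c h) a h x t - H' t * grid (psi c h) a h x t := by
        unfold cutD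
        ring
      have e2 : C3 * (R1 / (R1 - R0)) ^ (m + 4) * ((1 + R1) ^ m)⁻¹ * ∑ j, |x j| = C3 * B := by
        rw [hB]; ring
      rw [e2] at g1 g2
      rw [e1]
      calc (1 + |t|) ^ 4 * |(1 - H t) * grid (psi1 c h) a h x t - H' t * grid (psi c h) a h x t|
          ≤ (1 + |t|) ^ 4 * (|1 - H t| * |grid (psi1 c h) a h x t| + |H' t| * |grid (psi c h) a h x t|) := by
            refine mul_le_mul_of_nonneg_left ?_ (by positivity)
            rw [← abs_mul, ← abs_mul]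
            exact abs_sub _ _
        _ = |1 - H t| * ((1 + |t|) ^ 4 * |grid (psi1 c h) a h x t|) +
            |H' t| * ((1 + |t|) ^ 4 * |grid (psi c h) a h x t|) := by ring
        _ ≤ 1 * (C3 * B) + M' * (C3 * B) := by
            refine add_le_add (mul_le_mul ?_ g1 (by positivity) zero_le_one)
              (mul_le_mul (hM' t) g2 (by positivity) hM'0)
            rw [abs_le]
            constructor <;> linarith [(hH01 t).1, (hH01 t).2]
        _ = _ := by ring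
  have h1 := HE _ _ _ _ key key
  have h2 := (abs_le.1 h1).2
  have e3 : CE * (C3 * ((1 + M') * B) * (C3 * ((1 + M') * B))) = CE * C3 ^ 2 * ((1 + M') * (R1 / (R1 - R0)) ^ (m + 4) *
      ((1 + R1) ^ m)⁻¹ * ∑ j, |x j|) ^ 2 := by
    rw [hB]; ring
  rw [e3] at h2
  linarith

/-- derivative of `χ` -/
def chi1 (c : ℝ → ℝ) (h t : ℝ) : ℝ := -(√h / (2 * Real.pi)) * st (fun k => k * c k) t

lemma hasDerivAt_chi (hP : Prof δ K c) (h t : ℝ) : HasDerivAt (chi c h) (chi1 c h t) t := by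
  have h1 := (hasDerivAt_ct hP.pf.int hP.pf.mulk.int t).const_mul (√h / (2 * Real.pi))
  have e : √h / (2 * Real.pi) * - st (fun k => k * c k) t = chi1 c h t := by
    unfold chi1; ring
  rw [e] at h1
  exact h1

lemma Dn_chi1 (hP : Prof δ K c) (h : ℝ) : Dn (chi1 c h) := (Dn_st hP.pf.mulk).smul _

lemma Dn.mul_int {D D' : ℝ → ℝ} (h : Dn D) (h' : Dn D') : Integrable fun t => D t * D' t := by
  obtain ⟨M, hM⟩ := h'.bdd
  exact Integrable.mul_bdd (c := M) h.int h'.cont.aestronglyMeasurable (ae_of_all _ fun t => hM t)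

/-- integration by parts -/
theorem by_parts (hP : Prof δ K c) {h : ℝ} {H H' : ℝ → ℝ} (hH : ∀ t, HasDerivAt H (H' t) t)
    (hH'c : Continuous H') {M M' : ℝ} (hM : ∀ t, |H t| ≤ M) (hM' : ∀ t, |H' t| ≤ M') {N : ℕ} (a : ℝ)
    (x : Fin N → ℝ) : ∫ t, cutD c h H H' a x t * grid (chi c h) a h x t =
      - ∫ t, (H t * grid (psi c h) a h x t) * grid (chi1 c h) a h x t := by
  have hHc : Continuous H := continuous_iff_continuousAt.2 fun t => (hH t).continuousAt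
  have d1 := Dn_cut hP (h := h) hHc hH'c hM hM' a x
  have d2 := (Dn_grid (Dn_psi hP h) a h x).mul_bdd hHc hM
  have d3 := Dn_grid (Dn_chi hP h) a h x
  have d4 := Dn_grid (Dn_chi1 hP h) a h x
  have h1 := integral_mul_deriv_eq_deriv_mul_of_integrable
    (u := fun t => H t * grid (psi c h) a h x t) (v := grid (chi c h) a h x)
    (u' := cutD c h H H' a x) (v' := grid (chi1 c h) a h x)
    (fun t _ => hasDerivAt_cut hP hH a x t) (fun t _ => hasDerivAt_grid (hasDerivAt_chi hP h) a h x t)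
    (d2.mul_int d4) (d1.mul_int d3) (d2.mul_int d3)
  rw [h1, neg_neg]

end

end NUE
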