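import Pool.Agent.NUE.PsiC

/-!
# Derivative bounds of the grid functions and of the cut off displacement

`BD n C f`: `f` is smooth and all derivatives of order `≤ n` are bounded by `C`.
`Hc R t`: smooth cutoff, `1` on `|t| ≤ R`, `0` on `|t| ≥ R + 1`.
`cutF`: the displacement `F = Hc R * ψ_g`; `BD_cutF`, `BD_chig`; `psi_final`.
-/

set_option autoImplicit false

open MeasureTheory Set Filter Topology NUMF

namespace NUE

noncomputable section

variable {δ K : ℝ} {c : ℝ → ℝ}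

/-- bounded derivatives -/
def BD (n : ℕ) (C : ℝ) (f : ℝ → ℝ) : Prop :=
  ContDiff ℝ ((⊤ : ℕ∞) : WithTop ℕ∞) f ∧ ∀ i ≤ n, ∀ t, |iteratedDeriv i f t| ≤ C

lemma BD.mono {n : ℕ} {C C' : ℝ} {f : ℝ → ℝ} (h : BD n C f) (hC : C ≤ C') : BD n C' f :=
  ⟨h.1, fun i hi t => (h.2 i hi t).trans hC⟩

lemma BD.nonneg {n : ℕ} {C : ℝ} {f : ℝ → ℝ} (h : BD n C f) : 0 ≤ C :=
  (abs_nonneg _).trans (h.2 0 (Nat.zero_le _) 0)

lemma BD.at {n : ℕ} {C : ℝ} {f : ℝ → ℝ} (h : BD n C f) (i : ℕ) (t : ℝ) : ContDiffAt ℝ i f t :=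
  (h.1.of_le (by exact_mod_cast le_top)).contDiffAt

lemma BD.mul {n : ℕ} {C C' : ℝ} {f g : ℝ → ℝ} (h : BD n C f) (h' : BD n C' g) :
    BD n (2 ^ n * (C * C')) fun t => f t * g t := by
  refine ⟨h.1.mul h'.1, fun i hi t => ?_⟩
  rw [iteratedDeriv_fun_mul (h.at i t) (h'.at i t)]
  have hC := h.nonneg
  have hC' := h'.nonneg
  calc |∑ j ∈ Finset.range (i + 1), (i.choose j : ℝ) * iteratedDeriv j f t * iteratedDeriv (i - j) g t|
      ≤ ∑ j ∈ Finset.range (i + 1), |(i.choose j : ℝ) * iteratedDeriv j f t * iteratedDeriv (i - j) g t| :=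
        Finset.abs_sum_le_sum_abs _ _
    _ ≤ ∑ j ∈ Finset.range (i + 1), (i.choose j : ℝ) * (C * C') := by
        refine Finset.sum_le_sum fun j hj => ?_
        rw [Finset.mem_range] at hj
        rw [abs_mul, abs_mul, abs_of_nonneg (by positivity : (0:ℝ) ≤ (i.choose j : ℝ)), mul_assoc]
        refine mul_le_mul_of_nonneg_left ?_ (by positivity)
        exact mul_le_mul (h.2 j (by omega) t) (h'.2 (i - j) (by omega) t) (abs_nonneg _) hC
    _ = 2 ^ i * (C * C') := by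
        rw [← Finset.sum_mul]
        congr 1
        exact_mod_cast Nat.sum_range_choose i
    _ ≤ 2 ^ n * (C * C') := by
        refine mul_le_mul_of_nonneg_right ?_ (by positivity)
        exact pow_le_pow_right₀ (by norm_num) hi

lemma BD.shift {n : ℕ} {C : ℝ} {f : ℝ → ℝ} (h : BD n C f) (s : ℝ) : BD n C fun t => f (t - s) := by
  refine ⟨h.1.comp (contDiff_id.sub contDiff_const), fun i hi t => ?_⟩
  rw [iteratedDeriv_comp_sub_const]
  exact h.2 i hi _

lemma BD.add_const {n : ℕ} {C : ℝ} {f : ℝ → ℝ} (h : BD n C f) (s : ℝ) : BD n C fun t => f (s + t) := by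
  refine ⟨h.1.comp (contDiff_const.add contDiff_id), fun i hi t => ?_⟩
  rw [iteratedDeriv_comp_const_add]
  exact h.2 i hi _

lemma BD.const_sub {n : ℕ} {C : ℝ} {f : ℝ → ℝ} (h : BD n C f) (s : ℝ) : BD n C fun t => f (s - t) := by
  refine ⟨h.1.comp (contDiff_const.sub contDiff_id), fun i hi t => ?_⟩
  rw [iteratedDeriv_comp_const_sub]
  simp only [smul_eq_mul, abs_mul, abs_pow, abs_neg, abs_one, one_pow, one_mul]
  exact h.2 i hi _

lemma BD.smul {n : ℕ} {C : ℝ} {f : ℝ → ℝ} (h : BD n C f) (r : ℝ) : BD n (|r| * C) fun t => r * f t := by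
  refine ⟨contDiff_const.mul h.1, fun i hi t => ?_⟩
  rw [iteratedDeriv_const_mul r (h.at i t), abs_mul]
  exact mul_le_mul_of_nonneg_left (h.2 i hi t) (abs_nonneg _)

lemma BD.sum {n N : ℕ} {C : Fin N → ℝ} {f : Fin N → ℝ → ℝ} (h : ∀ j, BD n (C j) (f j)) :
    BD n (∑ j, C j) fun t => ∑ j, f j t := by
  refine ⟨ContDiff.sum fun j _ => (h j).1, fun i hi t => ?_⟩
  rw [iteratedDeriv_fun_sum fun j _ => (h j).at i t]
  exact (Finset.abs_sum_le_sum_abs _ _).trans (Finset.sum_le_sum fun j _ => (h j).2 i hi t)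

lemma BD_grid {n N : ℕ} {C : ℝ} {f : ℝ → ℝ} (h : BD n C f) (a s : ℝ) (x : Fin N → ℝ) :
    BD n (C * ∑ j, |x j|) (grid f a s x) := by
  have h1 := BD.sum fun j : Fin N => ((h.shift (a + (j : ℕ) * s)).smul (x j))
  rw [← Finset.sum_mul, mul_comm] at h1
  exact h1

lemma ct_smooth (n : ℕ) : ∀ {a : ℝ → ℝ}, Pf a → ContDiff ℝ n (ct a) ∧ ContDiff ℝ n (st a) := by
  induction n with
  | zero =>
    intro a h
    exact ⟨contDiff_zero.2 (ct_cont h.int), contDiff_zero.2 (st_cont h.int)⟩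
  | succ n ih =>
    intro a h
    have d1 : deriv (ct a) = fun t => - st (fun k => k * a k) t :=
      funext fun t => (hasDerivAt_ct h.int h.mulk.int t).deriv
    have d2 : deriv (st a) = fun t => ct (fun k => k * a k) t :=
      funext fun t => (hasDerivAt_st h.int h.mulk.int t).deriv
    obtain ⟨i1, i2⟩ := ih h.mulk
    constructor
    · push_cast
      rw [contDiff_succ_iff_deriv]
      refine ⟨fun t => (hasDerivAt_ct h.int h.mulk.int t).differentiableAt, by simp, ?_⟩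
      rw [d1]
      exact i2.neg
    · push_cast
      rw [contDiff_succ_iff_deriv]
      refine ⟨fun t => (hasDerivAt_st h.int h.mulk.int t).differentiableAt, by simp, ?_⟩
      rw [d2]
      exact i1

lemma ct_der_bdd (i : ℕ) : ∀ {a : ℝ → ℝ}, Pf a → ∃ C, ∀ t,
    |iteratedDeriv i (ct a) t| ≤ C ∧ |iteratedDeriv i (st a) t| ≤ C := by
  induction i with
  | zero =>
    intro a h
    refine ⟨∫ k, |a k|, fun t => ?_⟩
    rw [iteratedDeriv_zero, iteratedDeriv_zero]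
    exact ⟨abs_ct_le h.int t, abs_st_le h.int t⟩
  | succ n ih =>
    intro a h
    have d1 : deriv (ct a) = fun t => - st (fun k => k * a k) t :=
      funext fun t => (hasDerivAt_ct h.int h.mulk.int t).deriv
    have d2 : deriv (st a) = fun t => ct (fun k => k * a k) t :=
      funext fun t => (hasDerivAt_st h.int h.mulk.int t).deriv
    obtain ⟨C, hC⟩ := ih h.mulk
    refine ⟨C, fun t => ?_⟩
    rw [iteratedDeriv_succ', iteratedDeriv_succ', d1, d2]
    have e : iteratedDeriv n (fun t => - st (fun k => k * a k) t) t =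
        - iteratedDeriv n (st (fun k => k * a k)) t := by
      have := iteratedDeriv_neg n (st fun k => k * a k) t
      exact this
    rw [e, abs_neg]
    exact ⟨(hC t).2, (hC t).1⟩

lemma BD_of_all {n : ℕ} {f : ℝ → ℝ} (hf : ContDiff ℝ ((⊤ : ℕ∞) : WithTop ℕ∞) f)
    (hb : ∀ i, ∃ C, ∀ t, |iteratedDeriv i f t| ≤ C) : ∃ C, BD n C f := by
  choose C hC using hb
  have h0 : ∀ i, 0 ≤ C i := fun i => (abs_nonneg _).trans (hC i 0)
  refine ⟨∑ i ∈ Finset.range (n + 1), C i, hf, fun i hi t => (hC i t).trans ?_⟩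
  exact Finset.single_le_sum (f := C) (fun j _ => h0 j) (Finset.mem_range.2 (by omega))

lemma BD_ct (n : ℕ) {a : ℝ → ℝ} (h : Pf a) : ∃ C, BD n C (ct a) :=
  BD_of_all (contDiff_infty.2 fun n => (ct_smooth n h).1) fun i =>
    (ct_der_bdd i h).imp fun _ hC t => (hC t).1

lemma BD_st (n : ℕ) {a : ℝ → ℝ} (h : Pf a) : ∃ C, BD n C (st a) :=
  BD_of_all (contDiff_infty.2 fun n => (ct_smooth n h).2) fun i =>
    (ct_der_bdd i h).imp fun _ hC t => (hC t).2

lemma BD_sT (n : ℕ) : ∃ C, BD n C Real.smoothTransition := by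
  refine BD_of_all Real.smoothTransition.contDiff fun i => ?_
  have hcont : Continuous (iteratedDeriv i Real.smoothTransition) :=
    Real.smoothTransition.contDiff.continuous_iteratedDeriv i (by exact_mod_cast le_top)
  obtain ⟨C, hC⟩ := (isCompact_Icc : IsCompact (Icc (0:ℝ) 1)).exists_bound_of_continuousOn hcont.continuousOn
  refine ⟨max C 1, fun t => ?_⟩
  by_cases ht : t ∈ Icc (0:ℝ) 1
  · exact (hC t ht).trans (le_max_left _ _)
  · have h1 : ∀ b : ℝ, |b| ≤ 1 → |iteratedDeriv i (fun _ : ℝ => b) t| ≤ 1 := by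
      intro b hb
      rw [iteratedDeriv_const]
      split_ifs
      · exact hb
      · simp
    rw [mem_Icc, not_and_or, not_le, not_le] at ht
    rcases ht with ht | ht
    · have e : Real.smoothTransition =ᶠ[𝓝 t] fun _ => 0 := by
        filter_upwards [gt_mem_nhds ht] with x hx
        exact Real.smoothTransition.zero_of_nonpos hx.le
      rw [e.iteratedDeriv_eq]
      exact (h1 0 (by simp)).trans (le_max_right _ _)
    · have e : Real.smoothTransition =ᶠ[𝓝 t] fun _ => 1 := by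
        filter_upwards [lt_mem_nhds ht] with x hx
        exact Real.smoothTransition.one_of_one_le hx.le
      rw [e.iteratedDeriv_eq]
      exact (h1 1 (by simp)).trans (le_max_right _ _)

/-- smooth cutoff -/
def Hc (R t : ℝ) : ℝ := Real.smoothTransition (R + 1 - t) * Real.smoothTransition (R + 1 + t)

lemma Hc_one {R t : ℝ} (ht : |t| ≤ R) : Hc R t = 1 := by
  obtain ⟨h1, h2⟩ := abs_le.1 ht
  unfold Hc
  rw [Real.smoothTransition.one_of_one_le (by linarith), Real.smoothTransition.one_of_one_le (by linarith),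
    one_mul]

lemma Hc_zero {R t : ℝ} (ht : R + 1 ≤ |t|) : Hc R t = 0 := by
  unfold Hc
  rcases le_abs.1 ht with h | h
  · rw [Real.smoothTransition.zero_of_nonpos (by linarith), zero_mul]
  · rw [Real.smoothTransition.zero_of_nonpos (x := R + 1 + t) (by linarith), mul_zero]

lemma Hc_nonneg (R t : ℝ) : 0 ≤ Hc R t :=
  mul_nonneg (Real.smoothTransition.nonneg _) (Real.smoothTransition.nonneg _)

lemma Hc_le_one (R t : ℝ) : Hc R t ≤ 1 :=
  mul_le_one₀ (Real.smoothTransition.le_one _) (Real.smoothTransition.nonneg _) (Real.smoothTransition.le_one _)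

lemma BD_Hc (n : ℕ) : ∃ C, ∀ R, BD n C (Hc R) := by
  obtain ⟨C, hC⟩ := BD_sT n
  exact ⟨2 ^ n * (C * C), fun R => (hC.const_sub (R + 1)).mul (hC.add_const (R + 1))⟩

lemma BD.hasDeriv {n : ℕ} {C : ℝ} {f : ℝ → ℝ} (h : BD n C f) (t : ℝ) : HasDerivAt f (deriv f t) t :=
  (h.1.differentiable (by simp) t).hasDerivAt

lemma BD.deriv_le {n : ℕ} {C : ℝ} {f : ℝ → ℝ} (h : BD (n + 1) C f) (t : ℝ) : |deriv f t| ≤ C := by
  have := h.2 1 (by omega) t
  rwa [iteratedDeriv_one] at this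

lemma Hc_deriv_zero {R t : ℝ} (ht : |t| ≤ R) : deriv (Hc R) t = 0 := by
  obtain ⟨C, hC⟩ := BD_Hc 1
  have hc : Continuous (deriv (Hc R)) := (hC R).1.continuous_deriv (by simp)
  have h1 : ∀ x, |x| < R → deriv (Hc R) x = 0 := by
    intro x hx
    have e : Hc R =ᶠ[𝓝 x] fun _ => 1 := by
      filter_upwards [(continuous_abs.tendsto x).eventually (gt_mem_nhds hx)] with y hy
      exact Hc_one hy.le
    rw [e.deriv_eq, deriv_const]
  rcases ht.lt_or_eq with h | h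
  · exact h1 t h
  · rcases eq_or_lt_of_le (le_trans (abs_nonneg t) ht) with hR | hR
    · -- R = 0: maximum of a function bounded by one
      have ht0 : t = 0 := by
        have := abs_nonneg t
        exact abs_eq_zero.1 (by linarith)
      have hmax : IsLocalMax (Hc R) t := by
        refine Filter.Eventually.of_forall fun y => ?_
        rw [Hc_one ht]
        exact Hc_le_one R y
      exact hmax.deriv_eq_zero
    · have hmax : IsLocalMax (Hc R) t := by
        refine Filter.Eventually.of_forall fun y => ?_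
        rw [Hc_one ht]
        exact Hc_le_one R y
      exact hmax.deriv_eq_zero

/-- the cut off displacement -/
def cutF {N : ℕ} (c : ℝ → ℝ) (h R a : ℝ) (x : Fin N → ℝ) (t : ℝ) : ℝ :=
  Hc R t * grid (psi c h) a h x t

/-- its derivative -/
def cutF' {N : ℕ} (c : ℝ → ℝ) (h R a : ℝ) (x : Fin N → ℝ) : ℝ → ℝ :=
  cutD c h (Hc R) (deriv (Hc R)) a x

lemma hasDerivAt_cutF (hP : Prof δ K c) {h R : ℝ} {N : ℕ} (a : ℝ) (x : Fin N → ℝ) (t : ℝ) :
    HasDerivAt (cutF c h R a x) (cutF' c h R a x t) t := by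
  obtain ⟨C, hC⟩ := BD_Hc 1
  exact hasDerivAt_cut hP (fun t => (hC R).hasDeriv t) a x t

lemma cutF_zero {N : ℕ} {h R a : ℝ} {x : Fin N → ℝ} {t : ℝ} (ht : R + 1 ≤ |t|) : cutF c h R a x t = 0 := by
  unfold cutF
  rw [Hc_zero ht, zero_mul]

theorem BD_cutF (hP : Prof δ K c) (n : ℕ) (h : ℝ) : ∃ C, ∀ {N : ℕ} (R a : ℝ) (x : Fin N → ℝ),
    BD n (C * ∑ j, |x j|) (cutF c h R a x) := by
  obtain ⟨C1, h1⟩ := BD_Hc n
  obtain ⟨C2, h2⟩ := BD_st n hP.pf_ev1
  refine ⟨2 ^ n * (C1 * (|-(√h / (2 * Real.pi))| * C2)), fun {N} R a x => ?_⟩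
  have h3 : BD n (|-(√h / (2 * Real.pi))| * C2) (psi c h) := h2.smul _
  have h4 := (h1 R).mul (BD_grid h3 a h x)
  have e : 2 ^ n * (C1 * (|-(√h / (2 * Real.pi))| * C2)) * ∑ j, |x j| =
      2 ^ n * (C1 * (|-(√h / (2 * Real.pi))| * C2 * ∑ j, |x j|)) := by ring
  rw [e]
  exact h4

theorem BD_chig (hP : Prof δ K c) (n : ℕ) (h : ℝ) : ∃ C, ∀ {N : ℕ} (a : ℝ) (x : Fin N → ℝ),
    BD n (C * ∑ j, |x j|) (grid (chi c h) a h x) := by
  obtain ⟨C2, h2⟩ := BD_ct n hP.pf
  refine ⟨|√h / (2 * Real.pi)| * C2, fun {N} a x => ?_⟩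
  have h3 : BD n (|√h / (2 * Real.pi)| * C2) (chi c h) := h2.smul _
  exact BD_grid h3 a h x

/-- odd in the Gaussian -/
lemma grid_neg {N : ℕ} (f : ℝ → ℝ) (a h : ℝ) (x : Fin N → ℝ) (t : ℝ) :
    grid f a h (-x) t = - grid f a h x t := by
  unfold grid
  rw [← Finset.sum_neg_distrib]
  refine Finset.sum_congr rfl fun j _ => ?_
  simp

lemma cutF_neg {N : ℕ} (h R a : ℝ) (x : Fin N → ℝ) (t : ℝ) : cutF c h R a (-x) t = - cutF c h R a x t := by
  unfold cutF
  rw [grid_neg]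
  ring

lemma Dn_cutF' (hP : Prof δ K c) {h R : ℝ} {N : ℕ} (a : ℝ) (x : Fin N → ℝ) : Dn (cutF' c h R a x) := by
  obtain ⟨C, hC⟩ := BD_Hc 1
  exact Dn_cut hP (hC R).1.continuous ((hC R).1.continuous_deriv (by simp)) (M := 1)
    (fun t => abs_le.2 ⟨by linarith [Hc_nonneg R t], Hc_le_one R t⟩) (hC R).deriv_le a x

/-- **Final form of the Gaussian part of the transport.** -/
theorem psi_final (hP : Prof δ K c) {h : ℝ} (hh : 0 < h) (hK : K * h < Real.pi) (m : ℕ) :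
    ∃ C, 0 ≤ C ∧ ∀ {N : ℕ} (a : ℝ) (x : Fin N → ℝ) {R0 R1 : ℝ}, 0 ≤ R0 → R0 < R1 →
      (∀ j : Fin N, |a + (j : ℕ) * h| ≤ R0) →
      (∑ i, ∑ j, x i * toep (fun θ => rs c (θ / h)) N i j * x j) / 2 -
        C * ((R1 / (R1 - R0)) ^ (m + 4) * ((1 + R1) ^ m)⁻¹ * ∑ j, |x j|) ^ 2 ≤
      2 * (∫ t, cutF c h R1 a x t * grid (chi1 c h) a h x t) - EE (cutF' c h R1 a x) (cutF' c h R1 a x) := by
  obtain ⟨C, hC0, hC⟩ := psi_tail hP hh hK m
  obtain ⟨M, hM⟩ := BD_Hc 1
  have hM0 : 0 ≤ M := (hM 0).nonneg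
  refine ⟨C * (1 + M) ^ 2, by positivity, ?_⟩
  intro N a x R0 R1 hR0 hR hg
  have h1 := hC a x hR0 hR hg (H := Hc R1) (H' := deriv (Hc R1)) (M' := M) (hM R1).1.continuous
    ((hM R1).1.continuous_deriv (by simp)) (fun t => ⟨Hc_nonneg _ _, Hc_le_one _ _⟩) (hM R1).deriv_le
    (fun t ht => ⟨Hc_one ht, Hc_deriv_zero ht⟩)
  have h2 := by_parts hP (h := h) (H := Hc R1) (H' := deriv (Hc R1)) (fun t => (hM R1).hasDeriv t)
    ((hM R1).1.continuous_deriv (by simp)) (M := 1)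
    (fun t => abs_le.2 ⟨by linarith [Hc_nonneg R1 t], Hc_le_one R1 t⟩) (hM R1).deriv_le a x
  rw [h2] at h1
  have e : C * (1 + M) ^ 2 * ((R1 / (R1 - R0)) ^ (m + 4) * ((1 + R1) ^ m)⁻¹ * ∑ j, |x j|) ^ 2 =
      C * ((1 + M) * (R1 / (R1 - R0)) ^ (m + 4) * ((1 + R1) ^ m)⁻¹ * ∑ j, |x j|) ^ 2 := by ring
  rw [e]
  refine h1.trans (le_of_eq ?_)
  unfold cutF cutF'
  ring

end

end NUE
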