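import Pool.Agent.NUE.Red

/-!
# Two groups of different size, with extra (object) charges

`br2 g s s'`: cross over own pair products, `s : Fin p → ℝ`, `s' : Fin n → ℝ`.
`br2_eq`: energy form; `br2_tot`: completion by extra charges making the system neutral;
`br2_le`: Bessel with the grid statistics of the total charge;
`rev_int`: the two component gas with the grid statistics switched off is at most a product of two
one component integrals.
-/

set_option autoImplicit false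

open MeasureTheory Set Filter Topology

namespace NUE

noncomputable section

/-- cross over own pair products, groups of different size -/
def br2 {p n : ℕ} (g : ℝ → ℝ) (s : Fin p → ℝ) (s' : Fin n → ℝ) : ℝ :=
  (∏ i, ∏ j, g (s i - s' j)) /
    ((∏ i, ∏ j ∈ Finset.Ioi i, g (s i - s j)) * ∏ i, ∏ j ∈ Finset.Ioi i, g (s' i - s' j))

/-- charges `+1` and `-1` -/
def qq (p n : ℕ) : Fin p ⊕ Fin n → ℝ := Sum.elim (fun _ => 1) (fun _ => -1)

/-- quadratic form of a family of charges -/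
def en {ι : Type*} [Fintype ι] (lg : ℝ → ℝ) (q x : ι → ℝ) : ℝ :=
  ∑ a, ∑ b, q a * q b * lg (x a - x b)

lemma card_sum (n : ℕ) : (n : ℝ) * n = n + 2 * ∑ i : Fin n, ((Finset.Ioi i).card : ℝ) := by
  have := sum_sum_eq (n := n) (fun _ _ => (1:ℝ)) (fun _ _ => rfl)
  simpa using this

theorem br2_eq {p n : ℕ} {g lg : ℝ → ℝ} (l0 : ℝ) (hg : ∀ t, g t = Real.exp (l0 - lg t))
    (hl0 : lg 0 = 0) (hle : ∀ t, lg (-t) = lg t) (s : Fin p → ℝ) (s' : Fin n → ℝ) :
    br2 g s s' = Real.exp (l0 * (((p : ℝ) + n - ((p : ℝ) - n) ^ 2) / 2) +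
      1 / 2 * en lg (qq p n) (Sum.elim s s')) := by
  have hown : ∀ {k : ℕ} (x : Fin k → ℝ), ∏ i, ∏ j ∈ Finset.Ioi i, g (x i - x j) =
      Real.exp (l0 * (((k : ℝ) * k - k) / 2) - 1 / 2 * ∑ i, ∑ j, lg (x i - x j)) := by
    intro k x
    rw [sum_sum_eq (fun i j => lg (x i - x j)) (fun i j => by rw [← hle, neg_sub]), card_sum]
    simp only [sub_self, hl0, Finset.sum_const_zero, zero_add, hg]
    simp_rw [← Real.exp_sum, Finset.sum_sub_distrib]
    congr 1
    simp only [Finset.sum_const, nsmul_eq_mul]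
    rw [← Finset.sum_mul]
    ring
  have hcross : ∏ i, ∏ j, g (s i - s' j) =
      Real.exp (l0 * ((p : ℝ) * n) - ∑ i, ∑ j, lg (s i - s' j)) := by
    simp only [hg]
    simp_rw [← Real.exp_sum, Finset.sum_sub_distrib]
    congr 1
    simp
    ring
  have hsum : en lg (qq p n) (Sum.elim s s') =
      ∑ i, ∑ j, lg (s i - s j) + ∑ i, ∑ j, lg (s' i - s' j) - 2 * ∑ i, ∑ j, lg (s i - s' j) := by
    unfold en qq
    rw [Fintype.sum_sum_type]
    simp only [Fintype.sum_sum_type, Sum.elim_inl, Sum.elim_inr, one_mul, neg_mul, mul_neg, mul_one,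
      neg_neg, Finset.sum_add_distrib, Finset.sum_neg_distrib]
    have : ∑ i, ∑ j, lg (s' i - s j) = ∑ i, ∑ j, lg (s i - s' j) := by
      rw [Finset.sum_comm]
      exact Finset.sum_congr rfl fun i _ => Finset.sum_congr rfl fun j _ => by rw [← hle, neg_sub]
    rw [this]
    ring
  unfold br2
  rw [hsum, hown, hown, hcross, ← Real.exp_add, ← Real.exp_sub]
  congr 1
  ring

/-- energy of a union -/
lemma en_union {ι κ : Type*} [Fintype ι] [Fintype κ] {lg : ℝ → ℝ} (hle : ∀ t, lg (-t) = lg t)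
    (q x : ι → ℝ) (r y : κ → ℝ) :
    en lg (Sum.elim q r) (Sum.elim x y) =
      en lg q x + en lg r y + 2 * ∑ a, ∑ o, q a * r o * lg (x a - y o) := by
  unfold en
  rw [Fintype.sum_sum_type]
  simp only [Fintype.sum_sum_type, Sum.elim_inl, Sum.elim_inr, Finset.sum_add_distrib]
  have : ∑ o, ∑ a, r o * q a * lg (y o - x a) = ∑ a, ∑ o, q a * r o * lg (x a - y o) := by
    rw [Finset.sum_comm]
    refine Finset.sum_congr rfl fun i _ => Finset.sum_congr rfl fun j _ => ?_
    rw [← hle, neg_sub]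
    ring
  rw [this]
  ring

/-- The bracket with the extra charges `r` at `y` (objects): neutral total charge. -/
theorem br2_le {κ : Type*} [Fintype κ] {p n : ℕ} {c : ℝ → ℝ} (hc : Continuous c)
    (hce : ∀ k, c (-k) = c k) {K h : ℝ} (hh : 0 < h) (hK : K * h < Real.pi)
    (hcs : ∀ k, K < |k| → c k = 0) {Lh lg : ℝ → ℝ} (hL : ∀ k, 0 < k → c k ^ 2 ≤ Lh k)
    (hint : ∀ t, IntegrableOn (fun k => (1 - Real.cos (k * t)) * Lh k) (Ioi 0))
    (hlg : ∀ t, lg t = 1 / Real.pi * ∫ k in Ioi (0:ℝ), (1 - Real.cos (k * t)) * Lh k)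
    {g : ℝ → ℝ} (l0 : ℝ) (hg : ∀ t, g t = Real.exp (l0 - lg t))
    (La : Finset ℤ) (a : ℝ) (s : Fin p → ℝ) (s' : Fin n → ℝ) (r y : κ → ℝ)
    (hr : (p : ℝ) - n + ∑ o, r o = 0) :
    br2 g s s' * Real.exp (1 / 2 * ∑ l ∈ La, (∑ i, chi c h (s i - (a + l * h)) -
        ∑ j, chi c h (s' j - (a + l * h)) + ∑ o, r o * chi c h (y o - (a + l * h))) ^ 2) ≤
      Real.exp (l0 * (((p : ℝ) + n - ((p : ℝ) - n) ^ 2) / 2) - 1 / 2 * en lg r y) *
        ((∏ i, Real.exp (- ∑ o, r o * lg (s i - y o))) *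
          ∏ j, Real.exp (∑ o, r o * lg (s' j - y o))) := by
  have hl0 : lg 0 = 0 := by rw [hlg]; simp
  have hle : ∀ t, lg (-t) = lg t := by intro t; rw [hlg, hlg]; simp
  rw [br2_eq l0 hg hl0 hle, ← Real.exp_add, ← Real.exp_sum, ← Real.exp_sum, ← Real.exp_add,
    ← Real.exp_add]
  refine Real.exp_le_exp.2 ?_
  have h1 := bessel_le hc hce hh hK hcs hL hint hlg La a
    (Sum.elim (qq p n) r) (Sum.elim (Sum.elim s s') y) (by
      simp [qq]
      linarith)
  have h2 : ∀ l : ℤ, (∑ b : (Fin p ⊕ Fin n) ⊕ κ, Sum.elim (qq p n) r b *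
      chi c h (Sum.elim (Sum.elim s s') y b - (a + l * h))) =
      ∑ i, chi c h (s i - (a + l * h)) -
        ∑ j, chi c h (s' j - (a + l * h)) + ∑ o, r o * chi c h (y o - (a + l * h)) := by
    intro l
    simp [qq, sub_eq_add_neg]
  simp_rw [h2] at h1
  have h3 := en_union hle (qq p n) (Sum.elim s s') r y
  have h4 : ∑ b : Fin p ⊕ Fin n, ∑ o, qq p n b * r o * lg (Sum.elim s s' b - y o) =
      ∑ i, ∑ o, r o * lg (s i - y o) - ∑ j, ∑ o, r o * lg (s' j - y o) := by
    simp [qq, sub_eq_add_neg]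
  rw [h4] at h3
  have h5 : - ∑ i, ∑ j, Sum.elim (qq p n) r i * Sum.elim (qq p n) r j *
      lg (Sum.elim (Sum.elim s s') y i - Sum.elim (Sum.elim s s') y j) =
      - en lg (Sum.elim (qq p n) r) (Sum.elim (Sum.elim s s') y) := rfl
  rw [h5, h3] at h1
  simp only [Finset.sum_neg_distrib]
  linarith

end

end NUE
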