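import Pool.Agent.NUE.Field
import Pool.Agent.NUA.Szego

/-!
# Reverse linearisation with a Toeplitz matrix (docs nu34/79c, 79d, 57)

`det (1 - C_N) ≤ exp (N (mean of log (1 - s) + e) + const)` for the Toeplitz matrices `C_N` of a continuous
symbol `0 ≤ s < 1`, from Szegoe's inequality (helper93), and the resulting form of `NURev.rev_lin_basis`.
-/

set_option autoImplicit false

namespace NUE

open MeasureTheory ProbabilityTheory Module NURev

open scoped RealInnerProductSpace NNReal ComplexConjugate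

lemma sum_Icc_int {M : Type*} [AddCommMonoid M] (g : ℤ → M) (N : ℕ) :
    ∑ n ∈ Finset.Icc (-(N : ℤ)) N, g n =
      g 0 + ∑ k ∈ Finset.range N, (g ((k : ℤ) + 1) + g (-((k : ℤ) + 1))) := by
  induction N with
  | zero => simp
  | succ N ih =>
    have h : Finset.Icc (-((N + 1 : ℕ) : ℤ)) ((N + 1 : ℕ) : ℤ) =
        insert (-((N : ℤ) + 1)) (insert ((N : ℤ) + 1) (Finset.Icc (-(N : ℤ)) N)) := by
      ext n
      simp only [Finset.mem_Icc, Finset.mem_insert]
      push_cast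
      omega
    rw [h, Finset.sum_insert, Finset.sum_insert, ih, Finset.sum_range_succ]
    · abel
    · simp only [Finset.mem_Icc, not_and_or]
      omega
    · simp only [Finset.mem_Icc, Finset.mem_insert, not_or]
      constructor
      · omega
      · rw [not_and_or]
        omega

/-- real trigonometric polynomial -/
noncomputable def trig (K : ℕ) (v0 : ℝ) (v : ℕ → ℂ) (θ : ℝ) : ℝ :=
  v0 + ∑ k : Fin K, 2 * (v (k + 1) * NUA.E θ ^ ((k : ℕ) + 1)).re

instance : Fact (0 < 2 * Real.pi) := ⟨by positivity⟩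

/-- Weierstrass -/
theorem trig_approx {V : ℝ → ℝ} (hV : Continuous V) (hp : Function.Periodic V (2 * Real.pi)) {e : ℝ} (he : 0 < e) :
    ∃ (K : ℕ) (v0 : ℝ) (v : ℕ → ℂ), ∀ θ, |V θ - trig K v0 v θ| ≤ e := by
  obtain ⟨Vc, hVc⟩ : ∃ Vc : C(AddCircle (2 * Real.pi), ℂ), ∀ θ : ℝ, Vc (θ : AddCircle (2 * Real.pi)) = (V θ : ℂ) := by
    refine ⟨⟨fun x => ((hp.lift x : ℝ) : ℂ), ?_⟩, fun θ => ?_⟩
    · refine Complex.continuous_ofReal.comp ?_
      exact hV.quotient_liftOn' _
    · simp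
  have h1 : Vc ∈ (Submodule.span ℂ (Set.range (@fourier (2 * Real.pi)))).topologicalClosure := by
    rw [span_fourier_closure_eq_top]
    trivial
  obtain ⟨p, hp1, hp2⟩ := Metric.mem_closure_iff.1 (show Vc ∈ closure _ from h1) e he
  obtain ⟨c, hc⟩ := (Finsupp.mem_span_range_iff_exists_finsupp).1 hp1
  obtain ⟨N, hN⟩ : ∃ N : ℕ, c.support ⊆ Finset.Icc (-(N : ℤ)) N := by
    refine ⟨c.support.sup Int.natAbs, fun n hn => ?_⟩
    have := Finset.le_sup (f := Int.natAbs) hn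
    rw [Finset.mem_Icc]
    omega
  refine ⟨N, (c 0).re, fun k => (c k + conj (c (-(k : ℤ)))) / 2, fun θ => ?_⟩
  have h2 : ‖(V θ : ℂ) - p (θ : AddCircle (2 * Real.pi))‖ ≤ e := by
    rw [← hVc, ← dist_eq_norm]
    exact (ContinuousMap.dist_apply_le_dist _).trans hp2.le
  have h3 : p (θ : AddCircle (2 * Real.pi)) = ∑ n ∈ Finset.Icc (-(N : ℤ)) N, c n * Complex.exp (n * θ * Complex.I) := by
    rw [← hc, Finsupp.sum]
    rw [Finset.sum_subset hN (fun n _ hn => by
      rw [Finsupp.notMem_support_iff.1 hn, zero_smul])]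
    rw [ContinuousMap.coe_sum, Finset.sum_apply]
    refine Finset.sum_congr rfl fun n _ => ?_
    rw [ContinuousMap.coe_smul, Pi.smul_apply, smul_eq_mul, fourier_coe_apply]
    congr 2
    have hpi : (Real.pi : ℂ) ≠ 0 := by exact_mod_cast Real.pi_ne_zero
    push_cast
    field_simp
  have h4 : (p (θ : AddCircle (2 * Real.pi))).re = trig N ((c 0).re) (fun k => (c k + conj (c (-(k : ℤ)))) / 2) θ := by
    rw [h3, sum_Icc_int, Complex.add_re, Complex.re_sum, trig, ← Fin.sum_univ_eq_sum_range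
      (fun k => (c ((k : ℤ) + 1) * Complex.exp ((((k : ℤ) + 1 : ℤ) : ℂ) * θ * Complex.I) +
        c (-((k : ℤ) + 1)) * Complex.exp (((-((k : ℤ) + 1) : ℤ) : ℂ) * θ * Complex.I)).re)]
    congr 1
    · simp
    · refine Finset.sum_congr rfl fun k _ => ?_
      have e1 : Complex.exp ((((k : ℤ) + 1 : ℤ) : ℂ) * θ * Complex.I) = NUA.E θ ^ ((k : ℕ) + 1) := by
        unfold NUA.E
        rw [← Complex.exp_nat_mul]
        congr 1
        push_cast
        ring
      have e2 : Complex.exp (((-((k : ℤ) + 1) : ℤ) : ℂ) * θ * Complex.I) = conj (NUA.E θ ^ ((k : ℕ) + 1)) := by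
        rw [map_pow, NUA.conj_E]
        unfold NUA.E
        rw [← Complex.exp_neg, ← Complex.exp_nat_mul]
        congr 1
        push_cast
        ring
      rw [e1, e2]
      generalize NUA.E θ ^ ((k : ℕ) + 1) = z
      push_cast
      generalize c ((k : ℤ) + 1) = a
      generalize c (-((k : ℤ) + 1)) = b
      simp [Complex.add_re, Complex.mul_re]
      ring
  rw [← h4]
  have h5 := (Complex.abs_re_le_norm ((V θ : ℂ) - p (θ : AddCircle (2 * Real.pi)))).trans h2
  rwa [Complex.sub_re, Complex.ofReal_re] at h5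

lemma continuous_trig (K : ℕ) (v0 : ℝ) (v : ℕ → ℂ) : Continuous (trig K v0 v) := by
  unfold trig
  refine continuous_const.add (continuous_finsetSum _ fun k _ => ?_)
  exact continuous_const.mul (Complex.continuous_re.comp (continuous_const.mul (NUA.continuous_E.pow _)))

/-- the constant term is the mean -/
lemma int_trig (K : ℕ) (v0 : ℝ) (v : ℕ → ℂ) : ∫ θ, trig K v0 v θ ∂NUA.P = v0 := by
  unfold trig
  have hc : ∀ k : Fin K, Continuous fun θ : ℝ => 2 * (v (k + 1) * NUA.E θ ^ ((k : ℕ) + 1)).re := fun k =>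
    continuous_const.mul (Complex.continuous_re.comp (continuous_const.mul (NUA.continuous_E.pow _)))
  rw [integral_add (integrable_const _) (integrable_finsetSum _ fun k _ => NUA.integrable_P (hc k)),
    integral_finsetSum _ (fun k _ => NUA.integrable_P (hc k))]
  have h0 : ∀ k : Fin K, ∫ θ, 2 * (v (k + 1) * NUA.E θ ^ ((k : ℕ) + 1)).re ∂NUA.P = 0 := by
    intro k
    rw [integral_const_mul]
    have h1 := NUA.orth 0 ((k : ℕ) + 1)
    rw [if_neg (by omega)] at h1
    simp only [pow_zero, one_mul] at h1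
    have h2 : ∫ θ, (v (k + 1) * NUA.E θ ^ ((k : ℕ) + 1)).re ∂NUA.P =
        (∫ θ, v (k + 1) * NUA.E θ ^ ((k : ℕ) + 1) ∂NUA.P).re := by
      have := integral_re (𝕜 := ℂ) (μ := NUA.P) (f := fun θ => v (k + 1) * NUA.E θ ^ ((k : ℕ) + 1))
        (NUA.integrable_P (continuous_const.mul (NUA.continuous_E.pow _)))
      simpa using this
    rw [h2, integral_const_mul, h1]
    simp
  rw [Finset.sum_eq_zero fun k _ => h0 k]
  simp

/-- **upper bound of the circular gas**, continuous weight -/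
theorem gas_upper {V : ℝ → ℝ} (hV : Continuous V) (hp : Function.Periodic V (2 * Real.pi)) {e : ℝ} (he : 0 < e) :
    ∃ C : ℝ, ∀ n : ℕ, NUA.gas n (fun θ => Real.exp (V θ)) ≤ Real.exp (n * ((∫ θ, V θ ∂NUA.P) + e) + C) := by
  obtain ⟨K, v0, v, h⟩ := trig_approx hV hp (half_pos he)
  refine ⟨∑ k : Fin K, ((k : ℕ) + 1 : ℝ) * ‖v (k + 1)‖ ^ 2, fun n => ?_⟩
  have hv0 : v0 ≤ (∫ θ, V θ ∂NUA.P) + e / 2 := by
    rw [← int_trig K v0 v]
    have h1 : ∫ θ, trig K v0 v θ ∂NUA.P ≤ ∫ θ, (V θ + e / 2) ∂NUA.P := by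
      refine integral_mono (NUA.integrable_P (continuous_trig K v0 v))
        (NUA.integrable_P (hV.add continuous_const)) fun θ => ?_
      have := abs_le.1 (h θ)
      simp only
      linarith
    rw [integral_add (NUA.integrable_P hV) (integrable_const _)] at h1
    simpa using h1
  calc NUA.gas n (fun θ => Real.exp (V θ))
      ≤ NUA.gas n (fun θ => Real.exp ((v0 + e / 2) + ∑ k : Fin K, 2 * (v (k + 1) * NUA.E θ ^ ((k : ℕ) + 1)).re)) := by
        refine NUA.gas_mono n _ _ (fun θ => (Real.exp_pos _).le) (fun θ => ?_)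
          (NUA.integrable_P (Real.continuous_exp.comp hV)) (NUA.integrable_P (Real.continuous_exp.comp
            (by
              have := continuous_trig K (v0 + e / 2) v
              exact this)))
        refine Real.exp_le_exp.2 ?_
        have := abs_le.1 (h θ)
        unfold trig at this
        linarith
    _ ≤ Real.exp (n * (v0 + e / 2) + ∑ k : Fin K, ((k : ℕ) + 1 : ℝ) * ‖v (k + 1)‖ ^ 2) :=
        NUA.szego_trig n K (v0 + e / 2) v
    _ ≤ _ := by
        refine Real.exp_le_exp.2 ?_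
        have hn : (0 : ℝ) ≤ n := Nat.cast_nonneg n
        have := mul_le_mul_of_nonneg_left (show v0 + e / 2 ≤ (∫ θ, V θ ∂NUA.P) + e by linarith) hn
        linarith

/-- orthogonality, matrix form -/
lemma int_sq_ip {N : ℕ} (i j : Fin N) : toep (fun _ => 1) N i j = (1 : Matrix (Fin N) (Fin N) ℝ) i j := by
  have hpi := Real.pi_pos
  by_cases hij : i = j
  · subst hij
    rw [Matrix.one_apply_eq]
    unfold toep
    simp only [sub_self, mul_zero, Real.cos_zero, mul_one, intervalIntegral.integral_const, smul_eq_mul]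
    field_simp
    ring
  · rw [Matrix.one_apply_ne hij]
    unfold toep
    simp only [one_mul]
    have hne : (i : ℝ) - (j : ℝ) ≠ 0 := by
      intro h0
      apply hij
      have : (i : ℝ) = (j : ℝ) := by linarith
      exact Fin.ext (by exact_mod_cast this)
    have h2 : ∫ θ in (-Real.pi)..Real.pi, Real.cos (θ * ((i : ℝ) - (j : ℝ))) = 0 := by
      rw [intervalIntegral.integral_comp_mul_right (fun x => Real.cos x) hne, integral_cos]
      have h3 : (i : ℝ) - (j : ℝ) = (((i : ℤ) - (j : ℤ) : ℤ) : ℝ) := by push_cast; ring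
      rw [h3, mul_comm Real.pi, mul_comm (-Real.pi), show ((((i : ℤ) - (j : ℤ) : ℤ) : ℝ)) * -Real.pi =
        -((((i : ℤ) - (j : ℤ) : ℤ) : ℝ) * Real.pi) by ring, Real.sin_neg, Real.sin_int_mul_pi]
      simp
    rw [h2, mul_zero]

/-- the Toeplitz entries of an even periodic weight -/
lemma tc_eq {w : ℝ → ℝ} (hw : Continuous w) (hp : Function.Periodic w (2 * Real.pi)) (he : ∀ θ, w (-θ) = w θ)
    (j k : ℕ) : NUA.tc w j k =
      ((1 / (2 * Real.pi) * ∫ θ in (-Real.pi)..Real.pi, w θ * Real.cos (θ * ((j : ℝ) - (k : ℝ))) : ℝ) : ℂ) := by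
  have h1 : ∀ θ : ℝ, conj (NUA.E θ) ^ j * NUA.E θ ^ k * (w θ : ℂ) =
      ((w θ * Real.cos (θ * ((j : ℝ) - (k : ℝ))) : ℝ) : ℂ) -
        ((w θ * Real.sin (θ * ((j : ℝ) - (k : ℝ))) : ℝ) : ℂ) * Complex.I := by
    intro θ
    have e1 : conj (NUA.E θ) ^ j * NUA.E θ ^ k = Complex.exp (-((θ * ((j : ℝ) - (k : ℝ)) : ℝ) : ℂ) * Complex.I) := by
      rw [NUA.conj_E]
      unfold NUA.E
      rw [← Complex.exp_neg, ← Complex.exp_nat_mul, ← Complex.exp_nat_mul, ← Complex.exp_add]
      congr 1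
      push_cast
      ring
    rw [e1, ← Complex.ofReal_neg, Complex.exp_mul_I, ← Complex.ofReal_cos, ← Complex.ofReal_sin, Real.cos_neg,
      Real.sin_neg]
    push_cast
    ring
  have hper : Function.Periodic (fun θ : ℝ => conj (NUA.E θ) ^ j * NUA.E θ ^ k * (w θ : ℂ)) (2 * Real.pi) := by
    intro θ
    have e1 : NUA.E (θ + 2 * Real.pi) = NUA.E θ := by
      unfold NUA.E
      push_cast
      rw [add_mul, Complex.exp_add, Complex.exp_two_pi_mul_I, mul_one]
    simp only [e1, hp θ]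
  have hsin : ∫ θ in (-Real.pi)..Real.pi, w θ * Real.sin (θ * ((j : ℝ) - (k : ℝ))) = 0 := by
    have h2 := intervalIntegral.integral_comp_neg (a := -Real.pi) (b := Real.pi)
      (fun θ => w θ * Real.sin (θ * ((j : ℝ) - (k : ℝ))))
    rw [neg_neg] at h2
    have h3 : ∀ θ : ℝ, w (-θ) * Real.sin (-θ * ((j : ℝ) - (k : ℝ))) =
        -(w θ * Real.sin (θ * ((j : ℝ) - (k : ℝ)))) := by
      intro θ
      rw [he, neg_mul, Real.sin_neg]
      ring
    simp_rw [h3] at h2
    rw [intervalIntegral.integral_neg] at h2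
    linarith
  unfold NUA.tc
  rw [NUA.integral_P]
  have h4 := hper.intervalIntegral_add_eq 0 (-Real.pi)
  rw [zero_add, show -Real.pi + 2 * Real.pi = Real.pi by ring] at h4
  rw [h4]
  simp_rw [h1]
  rw [intervalIntegral.integral_sub (by apply Continuous.intervalIntegrable; fun_prop)
    (by apply Continuous.intervalIntegrable; fun_prop), intervalIntegral.integral_mul_const,
    intervalIntegral.integral_ofReal, intervalIntegral.integral_ofReal, hsin]
  push_cast
  ring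

/-- the periodic extension of `1 - s` -/
lemma exists_ext {s : ℝ → ℝ} (hs : Continuous s) (he : ∀ θ, s (-θ) = s θ) :
    ∃ w : ℝ → ℝ, Continuous w ∧ Function.Periodic w (2 * Real.pi) ∧ (∀ θ, w (-θ) = w θ) ∧
      (∀ θ ∈ Set.Icc (-Real.pi) Real.pi, w θ = s θ) ∧ ∀ θ, ∃ θ' ∈ Set.Icc (-Real.pi) Real.pi, w θ = s θ' := by
  have hpi := Real.pi_pos
  have h1 : s (-Real.pi) = s (-Real.pi + 2 * Real.pi) := by
    rw [show -Real.pi + 2 * Real.pi = Real.pi by ring, he]
  have hc : Continuous (AddCircle.liftIco (2 * Real.pi) (-Real.pi) s) :=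
    AddCircle.liftIco_continuous h1 hs.continuousOn
  obtain ⟨w, hw⟩ : ∃ w : ℝ → ℝ, w = fun θ : ℝ => AddCircle.liftIco (2 * Real.pi) (-Real.pi) s
    (θ : AddCircle (2 * Real.pi)) := ⟨_, rfl⟩
  have hper : Function.Periodic w (2 * Real.pi) := by
    intro θ
    rw [hw]
    simp only [AddCircle.coe_add_period]
  have hval : ∀ θ ∈ Set.Icc (-Real.pi) Real.pi, w θ = s θ := by
    intro θ hθ
    rcases eq_or_lt_of_le hθ.2 with h | h
    · have := hper (-Real.pi)
      rw [show -Real.pi + 2 * Real.pi = Real.pi by ring] at this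
      rw [h, this, hw]
      simp only
      rw [AddCircle.liftIco_coe_apply ⟨le_rfl, by linarith⟩, he]
    · rw [hw]
      simp only
      rw [AddCircle.liftIco_coe_apply ⟨hθ.1, by linarith⟩]
  have hred : ∀ θ : ℝ, ∃ n : ℤ, θ + n * (2 * Real.pi) ∈ Set.Icc (-Real.pi) Real.pi := by
    intro θ
    obtain ⟨n, hn, _⟩ := existsUnique_add_zsmul_mem_Ico (show 0 < 2 * Real.pi by positivity) θ (-Real.pi)
    refine ⟨n, ?_⟩
    rw [zsmul_eq_mul] at hn
    exact ⟨hn.1, by have := hn.2; linarith⟩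
  have hperz : ∀ (θ : ℝ) (n : ℤ), w (θ + n * (2 * Real.pi)) = w θ := fun θ n => hper.int_mul n θ
  refine ⟨w, ?_, hper, ?_, hval, ?_⟩
  · rw [hw]
    exact hc.comp (AddCircle.continuous_mk' _)
  · intro θ
    obtain ⟨n, hn⟩ := hred θ
    rw [← hperz θ n, hval _ hn, ← he, ← hval _ (by
      rw [Set.mem_Icc] at hn ⊢
      constructor <;> linarith [hn.1, hn.2]), show -(θ + n * (2 * Real.pi)) = -θ + ((-n : ℤ) : ℝ) * (2 * Real.pi) by
        push_cast
        ring, hperz]
  · intro θ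
    obtain ⟨n, hn⟩ := hred θ
    exact ⟨_, hn, by rw [← hperz θ n, hval _ hn]⟩

/-- **upper bound of Toeplitz determinants** `det (1 - C_N)` -/
theorem det_upper {s : ℝ → ℝ} (hs : Continuous s) (he : ∀ θ, s (-θ) = s θ)
    {δ : ℝ} (hδ : 0 < δ) (h1 : ∀ θ, s θ ≤ 1 - δ) {e : ℝ} (hepos : 0 < e) :
    ∃ Cst : ℝ, ∀ N : ℕ, (1 - toep s N).det ≤
      Real.exp (N * ((1 / (2 * Real.pi) * ∫ θ in (-Real.pi)..Real.pi, Real.log (1 - s θ)) + e) + Cst) := by
  obtain ⟨w, hwc, hwp, hwe, hwv, hwr⟩ := exists_ext (s := fun θ => 1 - s θ) (continuous_const.sub hs)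
    (fun θ => by simp only [he])
  have hw0 : ∀ θ, 0 < w θ := by
    intro θ
    obtain ⟨θ', _, h⟩ := hwr θ
    rw [h]
    linarith [h1 θ']
  have hV : Continuous fun θ => Real.log (w θ) := hwc.log fun θ => (hw0 θ).ne'
  obtain ⟨Cst, hC⟩ := gas_upper hV (fun θ => by simp only [hwp θ]) hepos
  refine ⟨Cst, fun N => ?_⟩
  have hgas := hC N
  have hexp : (fun θ => Real.exp (Real.log (w θ))) = w := by
    funext θ
    exact Real.exp_log (hw0 θ)
  rw [hexp] at hgas
  have hheine := NUA.heine N w (NUA.integrable_P hwc)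
  have hmat : NUA.T N w = (1 - toep s N).map (algebraMap ℝ ℂ) := by
    ext j k
    rw [Matrix.map_apply, NUA.T, Matrix.of_apply, tc_eq hwc hwp hwe]
    congr 1
    have e1 : ∫ θ in (-Real.pi)..Real.pi, w θ * Real.cos (θ * ((j : ℝ) - (k : ℝ))) =
        (∫ θ in (-Real.pi)..Real.pi, (1 : ℝ) * Real.cos (θ * ((j : ℝ) - (k : ℝ)))) -
          ∫ θ in (-Real.pi)..Real.pi, s θ * Real.cos (θ * ((j : ℝ) - (k : ℝ))) := by
      rw [← intervalIntegral.integral_sub (by apply Continuous.intervalIntegrable; fun_prop)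
        (by apply Continuous.intervalIntegrable; fun_prop)]
      refine intervalIntegral.integral_congr fun θ hθ => ?_
      rw [Set.uIcc_of_le (by linarith [Real.pi_pos])] at hθ
      simp only [hwv θ hθ]
      ring
    rw [e1, mul_sub]
    have e2 : 1 / (2 * Real.pi) * ∫ θ in (-Real.pi)..Real.pi, (1 : ℝ) * Real.cos (θ * ((j : ℝ) - (k : ℝ))) =
        (1 : Matrix (Fin N) (Fin N) ℝ) j k := by
      have h := int_sq_ip j k
      rw [← h]
      rfl
    rw [e2]
    rfl
  rw [hmat, ← RingHom.mapMatrix_apply, ← RingHom.map_det] at hheine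
  rw [Complex.coe_algebraMap] at hheine
  have hreal : NUA.gas N w = (1 - toep s N).det := by
    exact_mod_cast hheine
  rw [← hreal]
  refine hgas.trans (le_of_eq ?_)
  congr 3
  rw [NUA.integral_P_real]
  have hper : Function.Periodic (fun θ => Real.log (w θ)) (2 * Real.pi) := fun θ => by simp only [hwp θ]
  have h4 := hper.intervalIntegral_add_eq 0 (-Real.pi)
  rw [zero_add, show -Real.pi + 2 * Real.pi = Real.pi by ring] at h4
  rw [h4, one_div]
  congr 2
  refine intervalIntegral.integral_congr fun θ hθ => ?_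
  rw [Set.uIcc_of_le (by linarith [Real.pi_pos])] at hθ
  simp only [hwv θ hθ]

variable {Ω : Type*} [MeasurableSpace Ω]

/-- **reverse linearisation, matrix and determinant form** -/
theorem rev_lin_det {K : ℕ} {C : Matrix (Fin K) (Fin K) ℝ} (hC : ∀ a b, C a b = C b a) {δ R : ℝ} (hδ : 0 < δ)
    (hR0 : 0 ≤ R) (hc : ∀ g : Fin K → ℝ, ∑ a, ∑ b, g a * C a b * g b ≤ (1 - δ) * ∑ a, g a ^ 2)
    (hR : 2 * (K : ℝ) + 4 ≤ δ * R ^ 2) {μ : Measure Ω} [SFinite μ] {F : Fin K → Ω → ℝ}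
    (hF : ∀ a, Measurable (F a)) {Z₀ Z₁ e : ℝ} {l : (Fin K → ℝ) → ℝ}
    (hl : ∀ g, l (-g) = -l g) (hZ0 : 0 ≤ Z₀) (hZ1 : 0 ≤ Z₁)
    (hup : ∫⁻ x, ENNReal.ofReal (Real.exp ((∑ a, F a x ^ 2) / 2)) ∂μ ≤ ENNReal.ofReal Z₀)
    (hlow : ∀ g : Fin K → ℝ, ∑ a, g a ^ 2 ≤ R ^ 2 →
      ENNReal.ofReal (Z₁ * Real.exp ((∑ a, ∑ b, g a * C a b * g b) / 2 + l g - e)) ≤
        ∫⁻ x, ENNReal.ofReal (Real.exp (∑ a, g a * F a x)) ∂μ) :
    0 ≤ (1 - C).det ∧ Z₁ ≤ 2 * Real.exp e * Z₀ * Real.sqrt (1 - C).det := by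
  have hH : (1 - C).IsHermitian := by
    ext a b
    rw [Matrix.conjTranspose_apply, Matrix.sub_apply, Matrix.sub_apply, star_trivial, hC b a]
    congr 1
    by_cases h : a = b
    · rw [h]
    · rw [Matrix.one_apply_ne h, Matrix.one_apply_ne (Ne.symm h)]
  obtain ⟨b, hb⟩ : ∃ b, b = hH.eigenvectorBasis := ⟨_, rfl⟩
  obtain ⟨d, hd⟩ : ∃ d, d = hH.eigenvalues := ⟨_, rfl⟩
  have hdet : (1 - C).det = ∏ i, d i := by
    have := hH.det_eq_prod_eigenvalues
    rw [this, hd]
    rfl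
  obtain ⟨T, hT⟩ : ∃ T : EuclideanSpace ℝ (Fin K) →ₗ[ℝ] EuclideanSpace ℝ (Fin K),
    T = (1 - C).toEuclideanLin := ⟨_, rfl⟩
  have hquad : ∀ g : EuclideanSpace ℝ (Fin K), ⟪T g, g⟫ = ∑ a, g a ^ 2 - ∑ a, ∑ b, g a * C a b * g b := by
    intro g
    rw [hT, PiLp.inner_apply, ← Finset.sum_sub_distrib]
    refine Finset.sum_congr rfl fun a _ => ?_
    rw [Matrix.toLpLin_apply]
    simp only [RCLike.inner_apply, conj_trivial, Matrix.mulVec, dotProduct, Matrix.sub_apply, sub_mul,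
      Finset.sum_sub_distrib, mul_sub]
    congr 1
    · rw [Finset.sum_eq_single a]
      · rw [Matrix.one_apply_eq]
        ring
      · intro j _ hj
        rw [Matrix.one_apply_ne (Ne.symm hj), zero_mul]
      · intro h0
        exact absurd (Finset.mem_univ _) h0
    · rw [Finset.mul_sum]
      exact Finset.sum_congr rfl fun b _ => by ring
  have hsym : T.IsSymmetric := by
    rw [hT, Matrix.isSymmetric_toEuclideanLin_iff]
    exact hH
  have hTb : ∀ i, T (b i) = d i • b i := by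
    intro i
    rw [hT, hb, hd]
    have h1 := hH.mulVec_eigenvectorBasis i
    rw [Matrix.toLpLin_apply]
    apply (WithLp.ofLp_injective 2)
    rw [WithLp.ofLp_toLp, h1]
    rfl
  have hdiag : ∀ g, ⟪T g, g⟫ = ∑ i, d i * ⟪b i, g⟫ ^ 2 := by
    intro g
    rw [← b.sum_inner_mul_inner (T g) g]
    refine Finset.sum_congr rfl fun i _ => ?_
    rw [hsym g (b i), hTb, real_inner_smul_right, real_inner_comm]
    ring
  have hnorm : ∀ g : EuclideanSpace ℝ (Fin K), ‖g‖ ^ 2 = ∑ a, g a ^ 2 := EuclideanSpace.real_norm_sq_eq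
  have hCdiag : ∀ g : EuclideanSpace ℝ (Fin K),
      ∑ a, ∑ b, g a * C a b * g b = ∑ i, (1 - d i) * ⟪b i, g⟫ ^ 2 := by
    intro g
    have h1 := hquad g
    rw [hdiag, ← hnorm, ← b.sum_sq_inner_right g] at h1
    have h2 : ∑ i, (1 - d i) * ⟪b i, g⟫ ^ 2 = ∑ i, ⟪b i, g⟫ ^ 2 - ∑ i, d i * ⟪b i, g⟫ ^ 2 := by
      rw [← Finset.sum_sub_distrib]
      exact Finset.sum_congr rfl fun i _ => by ring
    rw [h2]
    linarith
  have hd1 : ∀ i, δ ≤ d i := by
    intro i
    have h1 := hc (WithLp.ofLp (b i))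
    rw [← hnorm, b.orthonormal.1 i] at h1
    have h2 := hquad (b i)
    rw [hTb, real_inner_smul_left, real_inner_self_eq_norm_sq, ← hnorm, b.orthonormal.1 i] at h2
    linarith
  have hd0 : ∀ i, 0 ≤ d i := fun i => hδ.le.trans (hd1 i)
  obtain ⟨G, hG⟩ : ∃ G : Ω → EuclideanSpace ℝ (Fin K), G = fun x => WithLp.toLp 2 (fun a => F a x) := ⟨_, rfl⟩
  have hGm : Measurable G := by
    rw [hG]
    have : Measurable fun x => (fun a => F a x) := measurable_pi_lambda _ hF
    exact (WithLp.measurable_toLp 2 (Fin K → ℝ)).comp this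
  have h := rev_lin_basis b (c := fun i => 1 - d i) hδ hR0 (fun i => by linarith [hd1 i])
    (by rw [Fintype.card_fin]; exact hR) (μ := μ) hGm (Z₀ := Z₀) (Z₁ := Z₁) (e := e)
    (l := fun g => l (WithLp.ofLp g)) (fun g => by simpa using hl _) hZ0 hZ1
    (by
      refine le_trans (le_of_eq ?_) hup
      refine lintegral_congr fun x => ?_
      rw [hnorm, hG])
    (fun g hg => by
      have h1 := hlow (WithLp.ofLp g) (by
        have := hnorm g
        have h2 : ‖g‖ ^ 2 ≤ R ^ 2 := by gcongr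
        rw [this] at h2
        exact h2)
      rw [← hCdiag]
      refine h1.trans (le_of_eq ?_)
      refine lintegral_congr fun x => ?_
      congr 2
      rw [PiLp.inner_apply, hG]
      refine Finset.sum_congr rfl fun a _ => ?_
      simp only [RCLike.inner_apply, conj_trivial]
      ring)
  refine ⟨by rw [hdet]; exact Finset.prod_nonneg fun i _ => hd0 i, ?_⟩
  have h3 : ∏ i, Real.sqrt (1 - (1 - d i)) = Real.sqrt (1 - C).det := by
    rw [hdet, Real.sqrt_prod _ (fun i _ => hd0 i)]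
    exact Finset.prod_congr rfl fun i _ => by rw [sub_sub_cancel]
  rw [← h3]
  exact h

/-- **reverse linearisation with a Toeplitz matrix**: the constant depends only on the symbol and on `e` -/
theorem rev_toep {s : ℝ → ℝ} (hs : Continuous s) (he : ∀ θ, s (-θ) = s θ)
    {δ : ℝ} (hδ : 0 < δ) (h1 : ∀ θ, s θ ≤ 1 - δ) {e : ℝ} (hepos : 0 < e) :
    ∃ Cst : ℝ, ∀ (N : ℕ) (R : ℝ), 0 ≤ R → 2 * (N : ℝ) + 4 ≤ δ * R ^ 2 →
      ∀ {Ω : Type*} [MeasurableSpace Ω] (μ : Measure Ω) [SFinite μ] (F : Fin N → Ω → ℝ) (Z₀ Z₁ e' : ℝ)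
        (l : (Fin N → ℝ) → ℝ), (∀ a, Measurable (F a)) → (∀ g, l (-g) = -l g) → 0 ≤ Z₀ → 0 ≤ Z₁ →
        ∫⁻ x, ENNReal.ofReal (Real.exp ((∑ a, F a x ^ 2) / 2)) ∂μ ≤ ENNReal.ofReal Z₀ →
        (∀ g : Fin N → ℝ, ∑ a, g a ^ 2 ≤ R ^ 2 →
          ENNReal.ofReal (Z₁ * Real.exp ((∑ a, ∑ b, g a * toep s N a b * g b) / 2 + l g - e')) ≤
            ∫⁻ x, ENNReal.ofReal (Real.exp (∑ a, g a * F a x)) ∂μ) →
        Z₁ ≤ Z₀ * Real.exp (e' + (N : ℝ) / 2 *
          ((1 / (2 * Real.pi) * ∫ θ in (-Real.pi)..Real.pi, Real.log (1 - s θ)) + e) + Cst) := by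
  obtain ⟨Cst, hC⟩ := det_upper hs he hδ h1 hepos
  refine ⟨Real.log 2 + Cst / 2, ?_⟩
  intro N R hR0 hR Ω _ μ _ F Z₀ Z₁ e' l hF hl hZ0 hZ1 hup hlow
  have hpi := Real.pi_pos
  have hcle : ∀ g : Fin N → ℝ, ∑ a, ∑ b, g a * toep s N a b * g b ≤ (1 - δ) * ∑ a, g a ^ 2 := by
    intro g
    rw [toep_quad hs, ← int_sq g, mul_left_comm]
    have hcs := continuous_sq g
    refine mul_le_mul_of_nonneg_left ?_ (by positivity)
    rw [← intervalIntegral.integral_const_mul]
    refine intervalIntegral.integral_mono_on (by linarith) (by apply Continuous.intervalIntegrable; fun_prop)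
      (by apply Continuous.intervalIntegrable; fun_prop) fun θ _ => ?_
    exact mul_le_mul_of_nonneg_right (h1 θ) (sq_nonneg' g θ)
  obtain ⟨hdet0, h⟩ := rev_lin_det (toep_symm s) hδ hR0 hcle hR hF hl hZ0 hZ1 hup hlow
  refine h.trans ?_
  obtain ⟨J, hJ⟩ : ∃ J : ℝ, J = (1 / (2 * Real.pi) * ∫ θ in (-Real.pi)..Real.pi, Real.log (1 - s θ)) + e := ⟨_, rfl⟩
  have h2 := hC N
  rw [← hJ] at h2 ⊢
  have h3 : Real.sqrt (1 - toep s N).det ≤ Real.exp ((N : ℝ) / 2 * J + Cst / 2) := by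
    rw [Real.sqrt_le_left (Real.exp_pos _).le, ← Real.exp_nat_mul]
    refine h2.trans (le_of_eq ?_)
    congr 1
    push_cast
    ring
  calc 2 * Real.exp e' * Z₀ * Real.sqrt (1 - toep s N).det
      ≤ 2 * Real.exp e' * Z₀ * Real.exp ((N : ℝ) / 2 * J + Cst / 2) := by gcongr
    _ = Z₀ * Real.exp (e' + (N : ℝ) / 2 * J + (Real.log 2 + Cst / 2)) := by
        rw [show e' + (N : ℝ) / 2 * J + (Real.log 2 + Cst / 2) = Real.log 2 + (e' + ((N : ℝ) / 2 * J + Cst / 2)) by
          ring, Real.exp_add (Real.log 2), Real.exp_log two_pos, Real.exp_add e']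
        ring

end NUE
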